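import Mathlib

/-! Area formula for holomorphic functions and the pointwise derivative estimate. -/

set_option autoImplicit false

namespace Pool.Agent.Hhelper32

open MeasureTheory Set Metric Complex
open scoped ENNReal NNReal Real

/-- multiplication by `c`, seen as a real-linear map, has determinant `|c|^2` -/
theorem det_smul_one (c : ℂ) : (c • (1 : ℂ →L[ℝ] ℂ)).det = ‖c‖ ^ 2 := by
  rw [← Complex.normSq_eq_norm_sq, ← Algebra.norm_complex_apply, Algebra.norm_apply]
  congr 1

theorem ofReal_abs_det (c : ℂ) :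
    ENNReal.ofReal |(c • (1 : ℂ →L[ℝ] ℂ)).det| = ‖c‖ₑ ^ 2 := by
  rw [det_smul_one, abs_of_nonneg (by positivity), ENNReal.ofReal_pow (norm_nonneg _),
    ofReal_norm]

/-- area formula, injective case -/
theorem lintegral_deriv_sq_eq {s : Set ℂ} (hs : MeasurableSet s) {g : ℂ → ℂ}
    (hg : ∀ x ∈ s, DifferentiableAt ℂ g x) (hinj : InjOn g s) :
    ∫⁻ x in s, ‖deriv g x‖ₑ ^ 2 = volume (g '' s) := by
  rw [← lintegral_abs_det_fderiv_eq_addHaar_image volume hs
    (f' := fun x => deriv g x • (1 : ℂ →L[ℝ] ℂ))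
    (fun x hx => ((hg x hx).hasDerivAt.complexToReal_fderiv).hasFDerivWithinAt) hinj]
  exact lintegral_congr fun x => (ofReal_abs_det _).symm

/-- area formula, inequality in the general case -/
theorem volume_image_le {s : Set ℂ} (hs : MeasurableSet s) {g : ℂ → ℂ}
    (hg : ∀ x ∈ s, DifferentiableAt ℂ g x) :
    volume (g '' s) ≤ ∫⁻ x in s, ‖deriv g x‖ₑ ^ 2 := by
  refine (addHaar_image_le_lintegral_abs_det_fderiv volume hs
    (f' := fun x => deriv g x • (1 : ℂ →L[ℝ] ℂ))
    (fun x hx => ((hg x hx).hasDerivAt.complexToReal_fderiv).hasFDerivWithinAt)).trans ?_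
  exact le_of_eq (lintegral_congr fun x => ofReal_abs_det _)


theorem circle_sq_le {G : ℂ → ℂ} {c : ℂ} {r ρ : ℝ} (hρ : 0 < ρ) (hρr : ρ < r)
    (hG : DifferentiableOn ℂ G (ball c r)) :
    ENNReal.ofReal (2 * π) * ‖G c‖ₑ ^ 2 ≤
      ∫⁻ θ in Ioo (-π) π, ‖G (c + ρ * (Real.cos θ + Real.sin θ * I))‖ₑ ^ 2 := by
  have hsub : closedBall c ρ ⊆ ball c r := closedBall_subset_ball hρr
  have hd : DiffContOnCl ℂ (fun z => G z ^ 2) (ball c |ρ|) := by
    rw [abs_of_pos hρ]
    apply DifferentiableOn.diffContOnCl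
    rw [closure_ball c hρ.ne']
    exact (hG.mono hsub).pow 2
  have h1 := hd.circleAverage
  rw [Real.circleAverage_eq_integral_add (-π)] at h1
  have h2 : ∫ θ in (0:ℝ)..2 * π, G (circleMap c ρ (θ + -π)) ^ 2 =
      ∫ θ in (-π)..π, G (circleMap c ρ θ) ^ 2 := by
    rw [intervalIntegral.integral_comp_add_right (fun θ => G (circleMap c ρ θ) ^ 2)]
    congr 1 <;> ring
  rw [h2] at h1
  have hpi : (2 * π) ≠ 0 := by positivity
  have h3 : ∫ θ in (-π)..π, G (circleMap c ρ θ) ^ 2 = (2 * π) • (G c ^ 2) := by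
    rw [← h1, smul_smul, mul_inv_cancel₀ hpi, one_smul]
  have h4 : ENNReal.ofReal (2 * π) * ‖G c‖ₑ ^ 2 = ‖(2 * π) • (G c ^ 2)‖ₑ := by
    rw [enorm_smul, enorm_pow, Real.enorm_of_nonneg (by positivity)]
  rw [h4, ← h3, intervalIntegral.integral_of_le (by linarith [Real.pi_pos])]
  refine (enorm_integral_le_lintegral_enorm _).trans ?_
  rw [← restrict_Ioo_eq_restrict_Ioc]
  apply lintegral_mono
  intro θ
  simp only
  rw [enorm_pow]
  simp only [circleMap, exp_mul_I, Complex.ofReal_cos, Complex.ofReal_sin]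
  exact le_rfl

/-- sub-mean value inequality over a disc for `|G|^2` -/
theorem sq_le_lintegral_ball {G : ℂ → ℂ} {c : ℂ} {r : ℝ} (hr : 0 < r)
    (hG : DifferentiableOn ℂ G (ball c r)) :
    ENNReal.ofReal (π * r ^ 2) * ‖G c‖ₑ ^ 2 ≤ ∫⁻ z in ball c r, ‖G z‖ₑ ^ 2 := by
  set F : ℂ → ℝ≥0∞ := (ball (0:ℂ) r).indicator (fun z => ‖G (c + z)‖ₑ ^ 2) with hF
  have e1 : ∫⁻ z in ball c r, ‖G z‖ₑ ^ 2 = ∫⁻ z, F z := by
    rw [hF, lintegral_indicator measurableSet_ball, ← lintegral_indicator measurableSet_ball,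
      ← lintegral_indicator measurableSet_ball]
    rw [← lintegral_add_left_eq_self (μ := volume) _ c]
    apply lintegral_congr
    intro z
    by_cases hz : z ∈ ball (0:ℂ) r
    · have : c + z ∈ ball c r := by simpa [mem_ball, dist_eq_norm] using hz
      rw [indicator_of_mem hz, indicator_of_mem this]
    · have : c + z ∉ ball c r := by simpa [mem_ball, dist_eq_norm] using hz
      rw [indicator_of_notMem hz, indicator_of_notMem this]
  rw [e1, ← Complex.lintegral_comp_polarCoord_symm]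
  -- restrict to the rectangle
  have hsub : Ioo (0:ℝ) r ×ˢ Ioo (-π) π ⊆ polarCoord.target := by
    rw [polarCoord_target]
    exact prod_mono (fun x hx => hx.1) (le_refl _)
  refine le_trans ?_ (lintegral_mono_set hsub)
  rw [Measure.volume_eq_prod]
  have hval : ∀ p ∈ Ioo (0:ℝ) r ×ˢ Ioo (-π) π,
      ENNReal.ofReal p.1 • F (Complex.polarCoord.symm p) =
        ENNReal.ofReal p.1 * ‖G (c + p.1 * (Real.cos p.2 + Real.sin p.2 * I))‖ₑ ^ 2 := by
    rintro ⟨ρ, θ⟩ ⟨h1, h2⟩
    have hmem : Complex.polarCoord.symm (ρ, θ) ∈ ball (0:ℂ) r := by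
      rw [mem_ball_zero_iff, norm_polarCoord_symm, abs_of_pos h1.1]
      exact h1.2
    rw [hF, indicator_of_mem hmem, Complex.polarCoord_symm_apply, smul_eq_mul]
  rw [setLIntegral_congr_fun (measurableSet_Ioo.prod measurableSet_Ioo) hval]
  rw [setLIntegral_prod]
  · have step : ∀ ρ ∈ Ioo (0:ℝ) r, ENNReal.ofReal ρ * (ENNReal.ofReal (2 * π) * ‖G c‖ₑ ^ 2) ≤
        ∫⁻ θ in Ioo (-π) π,
          ENNReal.ofReal ρ * ‖G (c + ρ * (Real.cos θ + Real.sin θ * I))‖ₑ ^ 2 := by
      intro ρ hρ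
      rw [lintegral_const_mul']
      · exact mul_le_mul_right (circle_sq_le hρ.1 hρ.2 hG) _
      · exact ENNReal.ofReal_ne_top
    refine le_trans ?_ (setLIntegral_mono' measurableSet_Ioo step)
    rw [lintegral_mul_const' _ _ (by simp [ENNReal.mul_eq_top])]
    have : ∫⁻ ρ in Ioo (0:ℝ) r, ENNReal.ofReal ρ = ENNReal.ofReal (r ^ 2 / 2) := by
      rw [← ofReal_integral_eq_lintegral_ofReal]
      · congr 1
        rw [← integral_Ioc_eq_integral_Ioo, ← intervalIntegral.integral_of_le hr.le]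
        simp
      · exact (continuous_id.integrableOn_Icc (a := 0) (b := r)).mono_set Ioo_subset_Icc_self
      · exact (ae_restrict_mem measurableSet_Ioo).mono (fun x hx => hx.1.le)
    rw [this, ← mul_assoc, ← ENNReal.ofReal_mul (by positivity)]
    apply le_of_eq
    congr 2
    ring
  · -- measurability
    have hc : ContinuousOn (fun p : ℝ × ℝ => G (c + p.1 * (Real.cos p.2 + Real.sin p.2 * I)))
        (Ioo (0:ℝ) r ×ˢ Ioo (-π) π) := by
      apply ContinuousOn.comp (t := ball c r) hG.continuousOn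
      · apply Continuous.continuousOn
        fun_prop
      · rintro ⟨ρ, θ⟩ ⟨h1, h2⟩
        have := norm_polarCoord_symm (ρ, θ)
        rw [Complex.polarCoord_symm_apply] at this
        simp only [mem_ball, dist_eq_norm, add_sub_cancel_left]
        rw [this, abs_of_pos h1.1]
        exact h1.2
    have hm := hc.aemeasurable (μ := (volume : Measure ℝ).prod (volume : Measure ℝ))
      (measurableSet_Ioo.prod measurableSet_Ioo)
    exact (ENNReal.measurable_ofReal.comp measurable_fst).aemeasurable.mul (hm.enorm.pow_const 2)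


/-- derivative estimate for injective holomorphic functions in terms of the area of the image -/
theorem norm_deriv_le_of_volume_le {g : ℂ → ℂ} {c : ℂ} {r e : ℝ} (hr : 0 < r) (he : 0 ≤ e)
    (hg : DifferentiableOn ℂ g (ball c r)) (hinj : InjOn g (ball c r))
    (hvol : volume (g '' ball c r) ≤ ENNReal.ofReal e) :
    ‖deriv g c‖ ≤ √e / r := by
  have h1 : DifferentiableOn ℂ (deriv g) (ball c r) := hg.deriv isOpen_ball
  have h2 := sq_le_lintegral_ball hr h1
  rw [lintegral_deriv_sq_eq measurableSet_ball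
    (fun x hx => hg.differentiableAt (isOpen_ball.mem_nhds hx)) hinj] at h2
  have h3 := h2.trans hvol
  rw [← ofReal_norm, ← ENNReal.ofReal_pow (norm_nonneg _), ← ENNReal.ofReal_mul (by positivity),
    ENNReal.ofReal_le_ofReal_iff he] at h3
  rw [le_div_iff₀ hr]
  apply Real.le_sqrt_of_sq_le
  have hpi := Real.pi_gt_three
  have : 0 ≤ (r * ‖deriv g c‖) ^ 2 := sq_nonneg _
  nlinarith

end Pool.Agent.Hhelper32
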