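import Mathlib

/-! Assembly of infinitely many pieces. -/

set_option autoImplicit false

namespace Pool.Agent.Hhelper32

open Set Metric Complex
open scoped Real

structure Asm where
  ι : ℕ → Type
  fin : ∀ k, Fintype (ι k)
  dec : ∀ k, DecidableEq (ι k)
  loc : ∀ k, ι k → ℝ
  ρ : ℕ → ℝ
  gap : ℕ → ℝ
  η : ℕ → ℝ
  η' : ℕ → ℝ
  tol : ℕ → ℝ
  Pc : ∀ k, ι k → ℂ → ℂ → ℂ
  hρ : ∀ k, 0 < ρ k
  hgap : ∀ k, 0 < gap k
  hρ_gap : ∀ k, ρ k ≤ tol k * gap k
  hρ_lim : ∀ t : ℝ, 0 < t → ∃ K : ℕ, ∀ k ≥ K, ρ k ≤ t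
  hη'0 : ∀ k, 0 ≤ η' k
  hη' : ∀ k, @Fintype.card (ι k) (fin k) * η' k ≤ η k
  hη : ∀ k, η k ≤ tol k * (1 / 2) ^ (k + 2)
  htol : ∀ k, 0 < tol k
  htol0 : tol 0 ≤ 1 / 1000
  htol_anti : Antitone tol
  hdiff : ∀ k i (h s : ℂ), ‖h‖ ≤ 1 / 1000 → (0 < s.im ∨ ρ k ≤ ‖s - loc k i‖) →
    DifferentiableAt ℂ (Pc k i h) s
  hsmall : ∀ k i (h s : ℂ), ‖h‖ ≤ 1 / 1000 → ρ k ≤ ‖s - loc k i‖ → ‖Pc k i h s‖ ≤ η' k
  hsep : ∀ k i i', i ≠ i' → 2 * ρ k ≤ |loc k i - loc k i'|
  hsep' : ∀ j k, j < k → ∀ i i', gap k + ρ j ≤ |loc k i - loc j i'|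

namespace Asm

variable (D : Asm)

instance (k : ℕ) : Fintype (D.ι k) := D.fin k
instance (k : ℕ) : DecidableEq (D.ι k) := D.dec k

/-- partial sums -/
noncomputable def E : ℕ → ℂ → ℂ
  | 0 => fun _ => 0
  | k + 1 => fun s => E k s + ∑ i, D.Pc k i (E k (D.loc k i)) s

/-- the constant seen by the piece -/
noncomputable def hh (k : ℕ) (i : D.ι k) : ℂ := D.E k (D.loc k i)

noncomputable def H (k : ℕ) (s : ℂ) : ℂ := ∑ i, D.Pc k i (D.hh k i) s

theorem E_succ (k : ℕ) (s : ℂ) : D.E (k + 1) s = D.E k s + D.H k s := rfl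

theorem η_nonneg (k : ℕ) : 0 ≤ D.η k := by
  refine le_trans ?_ (D.hη' k)
  have := D.hη'0 k
  positivity

theorem η_le (k : ℕ) : D.η k ≤ 1 / 1000 * (1 / 2) ^ (k + 2) := by
  refine (D.hη k).trans ?_
  have := (D.htol_anti (Nat.zero_le k)).trans D.htol0
  gcongr

theorem sum_η_le (k : ℕ) : ∑ j ∈ Finset.range k, D.η j ≤ 1 / 1000 * (1 / 2 - (1 / 2) ^ (k + 1)) := by
  induction k with
  | zero => simp
  | succ n ih =>
    rw [Finset.sum_range_succ]
    have := D.η_le n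
    have e : (1 / 2 : ℝ) ^ (n + 1 + 1) = (1 / 2) ^ (n + 1) / 2 := by ring
    have e2 : (1 / 2 : ℝ) ^ (n + 2) = (1 / 2) ^ (n + 1) / 2 := by ring
    rw [e2] at this
    rw [e]
    linarith

theorem sum_η_le' (k : ℕ) : ∑ j ∈ Finset.range k, D.η j ≤ 1 / 1000 := by
  refine (D.sum_η_le k).trans ?_
  have : (0 : ℝ) < (1 / 2) ^ (k + 1) := by positivity
  linarith

theorem summable_η : Summable D.η := by
  have h1 : Summable (fun k : ℕ => 1 / 1000 * (1 / 2 : ℝ) ^ (k + 2)) := by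
    apply Summable.mul_left
    exact (summable_nat_add_iff 2).mpr (summable_geometric_of_lt_one (by norm_num) (by norm_num))
  exact Summable.of_nonneg_of_le D.η_nonneg D.η_le h1

/-- tails of `η` -/
theorem tsum_η_le (k : ℕ) : ∑' j, D.η (j + k) ≤ D.tol k / 2 := by
  have h1 : ∀ j, D.η (j + k) ≤ D.tol k * (1 / 4) * (1 / 2) ^ j := by
    intro j
    refine (D.hη (j + k)).trans ?_
    have h2 := D.htol_anti (Nat.le_add_left k j)
    have h3 := D.htol k
    have h4 : (1 / 2 : ℝ) ^ (j + k + 2) ≤ 1 / 4 * (1 / 2) ^ j := by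
      have : (1 / 2 : ℝ) ^ (j + k + 2) = (1 / 2) ^ k * (1 / 4 * (1 / 2) ^ j) := by ring
      rw [this]
      apply mul_le_of_le_one_left (by positivity)
      exact pow_le_one₀ (by norm_num) (by norm_num)
    calc D.tol (j + k) * (1 / 2) ^ (j + k + 2) ≤ D.tol k * (1 / 4 * (1 / 2) ^ j) := by gcongr
      _ = D.tol k * (1 / 4) * (1 / 2) ^ j := by ring
  have hg : Summable (fun j : ℕ => (1 / 2 : ℝ) ^ j) :=
    summable_geometric_of_lt_one (by norm_num) (by norm_num)
  have h2 : Summable (fun j => D.tol k * (1 / 4) * (1 / 2 : ℝ) ^ j) := hg.mul_left _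
  have h3 := Summable.tsum_le_tsum h1 ((summable_nat_add_iff k).mpr D.summable_η) h2
  refine h3.trans ?_
  rw [tsum_mul_left, tsum_geometric_of_lt_one (by norm_num) (by norm_num)]
  norm_num
  linarith

/-- points allowed for level `< k` -/
def Off (k : ℕ) (s : ℂ) : Prop := ∀ i, D.ρ k ≤ ‖s - D.loc k i‖

theorem tol_le_one (k : ℕ) : D.tol k ≤ 1 := by
  have := (D.htol_anti (Nat.zero_le k)).trans D.htol0
  linarith

theorem ρ_le_gap (k : ℕ) : D.ρ k ≤ D.gap k := by
  refine (D.hρ_gap k).trans ?_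
  have := D.hgap k
  have := D.tol_le_one k
  nlinarith

theorem off_of_lt {j k : ℕ} (hjk : j < k) {i : D.ι k} {s : ℂ}
    (hs : s ∈ ball (D.loc k i : ℂ) (D.gap k)) : D.Off j s := by
  intro i'
  have h1 := D.hsep' j k hjk i i'
  rw [mem_ball, dist_eq_norm] at hs
  have h2 : |D.loc k i - D.loc j i'| = ‖(D.loc k i : ℂ) - D.loc j i'‖ := by
    rw [← ofReal_sub, norm_real, Real.norm_eq_abs]
  rw [h2] at h1
  have h3 : ‖(D.loc k i : ℂ) - D.loc j i'‖ ≤ ‖s - D.loc j i'‖ + ‖s - D.loc k i‖ := by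
    have : (D.loc k i : ℂ) - D.loc j i' = (s - D.loc j i') - (s - D.loc k i) := by ring
    rw [this]
    exact norm_sub_le _ _
  linarith

theorem off_of_gt {j k : ℕ} (hjk : j < k) {i : D.ι j} {s : ℂ}
    (hs : s ∈ ball (D.loc j i : ℂ) (D.ρ j)) : D.Off k s := by
  intro i'
  have h1 := D.hsep' j k hjk i' i
  rw [mem_ball, dist_eq_norm] at hs
  have h2 : |D.loc k i' - D.loc j i| = ‖(D.loc k i' : ℂ) - D.loc j i‖ := by
    rw [← ofReal_sub, norm_real, Real.norm_eq_abs]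
  rw [h2] at h1
  have h3 : ‖(D.loc k i' : ℂ) - D.loc j i‖ ≤ ‖s - D.loc j i‖ + ‖s - D.loc k i'‖ := by
    have : (D.loc k i' : ℂ) - D.loc j i = (s - D.loc j i) - (s - D.loc k i') := by ring
    rw [this]
    exact norm_sub_le _ _
  have := D.ρ_le_gap k
  linarith

theorem off_same {k : ℕ} {i i' : D.ι k} (hne : i' ≠ i) {s : ℂ}
    (hs : s ∈ ball (D.loc k i : ℂ) (D.ρ k)) : D.ρ k ≤ ‖s - D.loc k i'‖ := by
  have h1 := D.hsep k i' i hne
  rw [mem_ball, dist_eq_norm] at hs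
  have h2 : |D.loc k i' - D.loc k i| = ‖(D.loc k i' : ℂ) - D.loc k i‖ := by
    rw [← ofReal_sub, norm_real, Real.norm_eq_abs]
  rw [h2] at h1
  have h3 : ‖(D.loc k i' : ℂ) - D.loc k i‖ ≤ ‖s - D.loc k i‖ + ‖s - D.loc k i'‖ := by
    have : (D.loc k i' : ℂ) - D.loc k i = (s - D.loc k i) - (s - D.loc k i') := by ring
    rw [this]
    exact norm_sub_le _ _
  linarith

theorem loc_mem_ball (k : ℕ) (i : D.ι k) : (D.loc k i : ℂ) ∈ ball (D.loc k i : ℂ) (D.gap k) :=
  mem_ball_self (D.hgap k)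

theorem norm_H_le_of {k : ℕ} (hk : ∀ i, ‖D.hh k i‖ ≤ 1 / 1000) {s : ℂ} (hs : D.Off k s) :
    ‖D.H k s‖ ≤ D.η k := by
  unfold H
  refine (norm_sum_le _ _).trans ?_
  refine (Finset.sum_le_sum (fun i _ => D.hsmall k i _ s (hk i) (hs i))).trans ?_
  rw [Finset.sum_const, Finset.card_univ, nsmul_eq_mul]
  exact D.hη' k

theorem norm_E_le (k : ℕ) : ∀ s : ℂ, (∀ j < k, D.Off j s) →
    ‖D.E k s‖ ≤ ∑ j ∈ Finset.range k, D.η j := by
  induction k with
  | zero => intro s _; simp [E]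
  | succ n ih =>
    intro s hs
    rw [D.E_succ, Finset.sum_range_succ]
    refine (norm_add_le _ _).trans (add_le_add (ih s (fun j hj => hs j (by omega))) ?_)
    apply D.norm_H_le_of _ (hs n (by omega))
    intro i
    exact (ih _ (fun j hj => D.off_of_lt hj (D.loc_mem_ball n i))).trans (D.sum_η_le' n)

theorem norm_E_le' (k : ℕ) {s : ℂ} (hs : ∀ j < k, D.Off j s) : ‖D.E k s‖ ≤ 1 / 1000 :=
  (D.norm_E_le k s hs).trans (D.sum_η_le' k)

theorem norm_hh_le (k : ℕ) (i : D.ι k) : ‖D.hh k i‖ ≤ 1 / 1000 :=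
  D.norm_E_le' k (fun _ hj => D.off_of_lt hj (D.loc_mem_ball k i))

theorem norm_H_le {k : ℕ} {s : ℂ} (hs : D.Off k s) : ‖D.H k s‖ ≤ D.η k :=
  D.norm_H_le_of (D.norm_hh_le k) hs

theorem diff_H {k : ℕ} {s : ℂ} (hs : 0 < s.im ∨ D.Off k s) : DifferentiableAt ℂ (D.H k) s := by
  have : D.H k = ∑ i, D.Pc k i (D.hh k i) := by
    ext s; simp [H]
  rw [this]
  apply DifferentiableAt.sum
  intro i _
  apply D.hdiff k i _ s (D.norm_hh_le k i)
  rcases hs with hs | hs
  · exact Or.inl hs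
  · exact Or.inr (hs i)

theorem diff_E (k : ℕ) {s : ℂ} (hs : 0 < s.im ∨ ∀ j < k, D.Off j s) :
    DifferentiableAt ℂ (D.E k) s := by
  induction k with
  | zero => exact differentiableAt_const _
  | succ n ih =>
    have h1 : DifferentiableAt ℂ (D.E n) s := by
      apply ih
      rcases hs with hs | hs
      · exact Or.inl hs
      · exact Or.inr (fun j hj => hs j (by omega))
    have h2 : DifferentiableAt ℂ (D.H n) s := by
      apply D.diff_H
      rcases hs with hs | hs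
      · exact Or.inl hs
      · exact Or.inr (hs n (by omega))
    exact h1.add h2

theorem E_eq_sum (k : ℕ) (s : ℂ) : D.E k s = ∑ j ∈ Finset.range k, D.H j s := by
  induction k with
  | zero => simp [E]
  | succ n ih => rw [D.E_succ, Finset.sum_range_succ, ih]

/-- the function -/
noncomputable def f (s : ℂ) : ℂ := ∑' k, D.H k s

noncomputable def T (K : ℕ) (s : ℂ) : ℂ := ∑' k, D.H (k + K) s

theorem summable_tail {K : ℕ} {s : ℂ} (hs : ∀ k ≥ K, D.Off k s) :
    Summable (fun k => D.H (k + K) s) := by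
  apply Summable.of_norm_bounded ((summable_nat_add_iff K).mpr D.summable_η)
  intro k
  exact D.norm_H_le (hs _ (by omega))

theorem norm_T_le {K : ℕ} {s : ℂ} (hs : ∀ k ≥ K, D.Off k s) : ‖D.T K s‖ ≤ D.tol K / 2 := by
  refine le_trans ?_ (D.tsum_η_le K)
  exact tsum_of_norm_bounded ((summable_nat_add_iff K).mpr D.summable_η).hasSum
    (fun k => D.norm_H_le (hs _ (by omega)))

theorem f_eq {K : ℕ} {s : ℂ} (hs : ∀ k ≥ K, D.Off k s) : D.f s = D.E K s + D.T K s := by
  have h1 := D.summable_tail hs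
  have h2 : Summable (fun k => D.H k s) := (summable_nat_add_iff K).mp h1
  rw [D.E_eq_sum, T, f, h2.sum_add_tsum_nat_add]

theorem diff_T {K : ℕ} {W : Set ℂ} (hW : IsOpen W) (hs : ∀ s ∈ W, ∀ k ≥ K, D.Off k s) :
    DifferentiableOn ℂ (D.T K) W := by
  apply Complex.differentiableOn_tsum_of_summable_norm
    ((summable_nat_add_iff K).mpr D.summable_η) _ hW
  · intro k s hsW
    exact D.norm_H_le (hs s hsW _ (by omega))
  · intro k s hsW
    exact (D.diff_H (Or.inr (hs s hsW _ (by omega)))).differentiableWithinAt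

theorem off_of_im {k : ℕ} {s : ℂ} (hs : D.ρ k ≤ s.im) : D.Off k s := by
  intro i
  refine hs.trans ?_
  have h1 := (le_abs_self _).trans (abs_im_le_norm (s - D.loc k i))
  rwa [sub_im, ofReal_im, sub_zero] at h1

theorem differentiableAt_f {s : ℂ} (hs : 0 < s.im) : DifferentiableAt ℂ D.f s := by
  obtain ⟨K, hK⟩ := D.hρ_lim (s.im / 2) (by positivity)
  set W : Set ℂ := {z | s.im / 2 < z.im} with hW
  have hWo : IsOpen W := isOpen_lt continuous_const Complex.continuous_im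
  have hsW : s ∈ W := by
    change s.im / 2 < s.im
    linarith
  have hoff : ∀ z ∈ W, ∀ k ≥ K, D.Off k z := by
    intro z hz k hk
    have hz' : s.im / 2 < z.im := hz
    exact D.off_of_im ((hK k hk).trans hz'.le)
  have h1 : DifferentiableAt ℂ (fun z => D.E K z + D.T K z) s :=
    (D.diff_E K (Or.inl hs)).add ((D.diff_T hWo hoff).differentiableAt (hWo.mem_nhds hsW))
  apply h1.congr_of_eventuallyEq
  filter_upwards [hWo.mem_nhds hsW] with z hz
  exact D.f_eq (hoff z hz)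

theorem in_ball_or_small (s : ℂ) :
    (∃ k, ∃ i : D.ι k, s ∈ ball (D.loc k i : ℂ) (D.ρ k)) ∨ ‖D.f s‖ ≤ 1 := by
  by_cases h : ∃ k, ∃ i : D.ι k, s ∈ ball (D.loc k i : ℂ) (D.ρ k)
  · exact Or.inl h
  · right
    push Not at h
    have hoff : ∀ k ≥ 0, D.Off k s := by
      intro k _ i
      have := h k i
      rw [mem_ball, dist_eq_norm, not_lt] at this
      exact this
    rw [D.f_eq hoff]
    have h1 := D.norm_T_le hoff
    have h2 : D.E 0 s = 0 := rfl
    rw [h2, zero_add]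
    have := D.tol_le_one 0
    linarith

/-- the local structure -/
theorem local_structure (k : ℕ) (i : D.ι k) : ∃ e : ℂ → ℂ,
    DifferentiableOn ℂ e (ball (D.loc k i : ℂ) (D.ρ k)) ∧
    (∀ s ∈ ball (D.loc k i : ℂ) (D.ρ k), ‖e s‖ ≤ D.tol k) ∧
    (∀ s ∈ ball (D.loc k i : ℂ) (D.ρ k), D.f s = D.Pc k i (D.hh k i) s + D.hh k i + e s) := by
  set B := ball (D.loc k i : ℂ) (D.ρ k) with hB
  have hlow : ∀ s ∈ B, ∀ j < k, D.Off j s := fun s hs j hj =>
    D.off_of_lt hj (ball_subset_ball (D.ρ_le_gap k) hs)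
  have hhigh : ∀ s ∈ B, ∀ j ≥ k + 1, D.Off j s := fun s hs j hj =>
    D.off_of_gt (by omega) hs
  set R : ℂ → ℂ := fun s => ∑ i' ∈ Finset.univ.erase i, D.Pc k i' (D.hh k i') s with hR
  have hf : ∀ s ∈ B, D.f s = D.Pc k i (D.hh k i) s + D.hh k i +
      ((D.E k s - D.hh k i) + R s + D.T (k + 1) s) := by
    intro s hs
    rw [D.f_eq (hhigh s hs), D.E_succ]
    have : D.H k s = D.Pc k i (D.hh k i) s + R s := by
      rw [hR]
      exact (Finset.add_sum_erase Finset.univ (fun i' => D.Pc k i' (D.hh k i') s)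
        (Finset.mem_univ i)).symm
    rw [this]
    ring
  refine ⟨fun s => (D.E k s - D.hh k i) + R s + D.T (k + 1) s, ?_, ?_, hf⟩
  · intro s hs
    apply DifferentiableAt.differentiableWithinAt
    have h1 : DifferentiableAt ℂ (D.E k) s := D.diff_E k (Or.inr (hlow s hs))
    have h2 : DifferentiableAt ℂ R s := by
      have e : R = ∑ i' ∈ Finset.univ.erase i, D.Pc k i' (D.hh k i') := by
        ext s; simp [hR]
      rw [e]
      apply DifferentiableAt.sum
      intro i' hi'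
      exact D.hdiff k i' _ s (D.norm_hh_le k i') (Or.inr (D.off_same (Finset.ne_of_mem_erase hi') hs))
    have h3 : DifferentiableAt ℂ (D.T (k + 1)) s :=
      (D.diff_T isOpen_ball (hhigh)).differentiableAt (isOpen_ball.mem_nhds hs)
    exact ((h1.sub_const _).add h2).add h3
  · intro s hs
    have h1 : ‖D.E k s - D.hh k i‖ ≤ 3 / 1000 * D.tol k := by
      have hd : DifferentiableOn ℂ (D.E k) (ball (D.loc k i : ℂ) (D.gap k)) := fun z hz =>
        (D.diff_E k (Or.inr (fun j hj => D.off_of_lt hj hz))).differentiableWithinAt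
      have hm : MapsTo (D.E k) (ball (D.loc k i : ℂ) (D.gap k))
          (closedBall (D.E k (D.loc k i)) (3 / 1000)) := by
        intro z hz
        rw [mem_closedBall, dist_eq_norm]
        refine (norm_sub_le _ _).trans ?_
        have h2 := D.norm_E_le' k (fun j hj => D.off_of_lt hj hz)
        have h3 := D.norm_hh_le k i
        unfold hh at h3
        linarith
      have h4 := Complex.dist_le_div_mul_dist_of_mapsTo_ball hd hm
        (ball_subset_ball (D.ρ_le_gap k) hs)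
      rw [dist_eq_norm] at h4
      refine h4.trans ?_
      have h5 := D.hgap k
      have h6 : dist s (D.loc k i : ℂ) ≤ D.tol k * D.gap k :=
        (mem_ball.mp hs).le.trans (D.hρ_gap k)
      calc 3 / 1000 / D.gap k * dist s (D.loc k i : ℂ) ≤ 3 / 1000 / D.gap k * (D.tol k * D.gap k) := by
            gcongr
        _ = 3 / 1000 * D.tol k := by field_simp
    have h2 : ‖R s‖ ≤ D.η k := by
      rw [hR]
      refine (norm_sum_le _ _).trans ?_
      refine (Finset.sum_le_sum (fun i' hi' => D.hsmall k i' _ s (D.norm_hh_le k i')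
        (D.off_same (Finset.ne_of_mem_erase hi') hs))).trans ?_
      rw [Finset.sum_const, nsmul_eq_mul]
      refine le_trans ?_ (D.hη' k)
      apply mul_le_mul_of_nonneg_right _ (D.hη'0 k)
      have : (Finset.univ.erase i).card ≤ Finset.univ.card := Finset.card_erase_le
      exact_mod_cast this
    have h3 := D.norm_T_le (hhigh s hs)
    have h4 : D.η k ≤ D.tol k / 4 := by
      refine (D.hη k).trans ?_
      have : (1 / 2 : ℝ) ^ (k + 2) ≤ 1 / 4 := by
        have : (1 / 2 : ℝ) ^ (k + 2) = (1 / 2) ^ k * (1 / 4) := by ring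
        rw [this]
        apply mul_le_of_le_one_left (by norm_num)
        exact pow_le_one₀ (by norm_num) (by norm_num)
      have := D.htol k
      nlinarith
    have h5 : D.tol (k + 1) ≤ D.tol k := D.htol_anti (Nat.le_succ k)
    have h6 := D.htol k
    calc ‖(D.E k s - D.hh k i) + R s + D.T (k + 1) s‖
        ≤ ‖D.E k s - D.hh k i‖ + ‖R s‖ + ‖D.T (k + 1) s‖ := norm_add₃_le
      _ ≤ D.tol k := by linarith

end Asm

end Pool.Agent.Hhelper32
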