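import Mathlib
import Pool.Agent.Hhelper32.Area

/-! Comparing the values of an injective holomorphic function at two points of a cell. -/

set_option autoImplicit false

namespace Pool.Agent.Hhelper32

open MeasureTheory Set Metric Complex
open scoped ENNReal NNReal Real

/-- upper half-plane as a subset of `ℂ` -/
def UH : Set ℂ := {s | 0 < s.im}

theorem isOpen_UH : IsOpen UH := isOpen_lt continuous_const Complex.continuous_im

/-- the cell of size `w` at the real point `x` -/
def cell (x w : ℝ) : Set ℂ := UH ∩ ball (x : ℂ) (w / 2)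

theorem isOpen_cell (x w : ℝ) : IsOpen (cell x w) := isOpen_UH.inter isOpen_ball

theorem norm_deriv_le_of_cell {g : ℂ → ℂ} {x w e r : ℝ} (hr : 0 < r) (he : 0 ≤ e)
    (hg : DifferentiableOn ℂ g UH) (hinj : InjOn g UH)
    (hvol : volume (g '' cell x w) ≤ ENNReal.ofReal e) {s : ℂ} (hs : r ≤ s.im)
    (hs' : ‖s - x‖ + r ≤ w / 2) : ‖deriv g s‖ ≤ √e / r := by
  have hsub : ball s r ⊆ cell x w := by
    intro z hz
    rw [mem_ball, dist_eq_norm] at hz
    refine ⟨?_, ?_⟩
    · change 0 < z.im
      have h1 : |(z - s).im| ≤ ‖z - s‖ := abs_im_le_norm _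
      rw [sub_im] at h1
      have := (abs_le.mp h1).1
      linarith
    · rw [mem_ball, dist_eq_norm]
      have : ‖z - x‖ ≤ ‖z - s‖ + ‖s - x‖ := by
        have := norm_add_le (z - s) (s - x)
        simpa using this
      linarith
  have hsub' : ball s r ⊆ UH := hsub.trans inter_subset_left
  exact norm_deriv_le_of_volume_le hr he (hg.mono hsub') (hinj.mono hsub')
    ((measure_mono (image_mono hsub)).trans hvol)

/-- vertical comparison -/
theorem vertical_le {g : ℂ → ℂ} {x w e : ℝ} (he : 0 ≤ e)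
    (hg : DifferentiableOn ℂ g UH) (hinj : InjOn g UH)
    (hvol : volume (g '' cell x w) ≤ ENNReal.ofReal e) {a y : ℝ} (hy : 0 < y) (hyw : y ≤ w / 8)
    (ha : |a - x| ≤ w / 6) :
    ‖g (a + (w / 8 : ℝ) * I) - g (a + y * I)‖ ≤ √e * Real.log (w / (8 * y)) := by
  have hw : 0 < w := by linarith
  set L := Real.log (w / (8 * y)) with hL
  have hq : 1 ≤ w / (8 * y) := by
    rw [le_div_iff₀ (by positivity)]; linarith
  have hL0 : 0 ≤ L := Real.log_nonneg hq
  -- path
  let γ : ℝ → ℂ := fun t => a + (y * Real.exp t : ℝ) * I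
  have hγim : ∀ t, (γ t).im = y * Real.exp t := by
    intro t; simp only [γ, add_im, ofReal_im, mul_im, ofReal_re, I_im, I_re]; ring
  have hγre : ∀ t, (γ t).re = a := by
    intro t; simp only [γ, add_re, ofReal_im, mul_re, ofReal_re, I_im, I_re]; ring
  have hγd : ∀ t, HasDerivAt γ ((y * Real.exp t : ℝ) * I) t := by
    intro t
    have h1 : HasDerivAt (fun t : ℝ => y * Real.exp t) (y * Real.exp t) t :=
      (Real.hasDerivAt_exp t).const_mul y
    exact ((h1.ofReal_comp).mul_const I).const_add (a : ℂ)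
  have hexpL : y * Real.exp L = w / 8 := by
    rw [hL, Real.exp_log (by positivity)]
    field_simp
  have hkey : ∀ t ∈ Icc (0:ℝ) L, ‖deriv g (γ t) * ((y * Real.exp t : ℝ) * I)‖ ≤ √e := by
    intro t ht
    have hpos : 0 < y * Real.exp t := by positivity
    have hle : y * Real.exp t ≤ w / 8 := by
      rw [← hexpL]
      exact mul_le_mul_of_nonneg_left (Real.exp_le_exp.mpr ht.2) hy.le
    have hnorm : ‖γ t - x‖ ≤ w / 6 + w / 8 := by
      have : γ t - x = ((a - x : ℝ) : ℂ) + (y * Real.exp t : ℝ) * I := by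
        simp only [γ]; push_cast; ring
      rw [this]
      refine (norm_add_le _ _).trans ?_
      rw [norm_mul, norm_I, mul_one, norm_real, norm_real, Real.norm_eq_abs, Real.norm_eq_abs,
        abs_of_pos hpos]
      linarith
    have h1 := norm_deriv_le_of_cell (s := γ t) (r := y * Real.exp t) hpos he hg hinj hvol
      (by rw [hγim]) (by linarith)
    rw [norm_mul, norm_mul, norm_I, mul_one, norm_real, Real.norm_eq_abs, abs_of_pos hpos]
    calc ‖deriv g (γ t)‖ * (y * Real.exp t) ≤ √e / (y * Real.exp t) * (y * Real.exp t) :=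
          mul_le_mul_of_nonneg_right h1 hpos.le
      _ = √e := by field_simp
  have hφd : ∀ t ∈ Icc (0:ℝ) L, HasDerivWithinAt (fun t => g (γ t))
      (deriv g (γ t) * ((y * Real.exp t : ℝ) * I)) (Icc 0 L) t := by
    intro t _
    have hmem : γ t ∈ UH := by
      change 0 < (γ t).im
      rw [hγim]; positivity
    have h1 : HasDerivAt g (deriv g (γ t)) (γ t) :=
      (hg.differentiableAt (isOpen_UH.mem_nhds hmem)).hasDerivAt
    exact (h1.comp t (hγd t)).hasDerivWithinAt
  have h2 := (convex_Icc (0:ℝ) L).norm_image_sub_le_of_norm_hasDerivWithin_le (f := fun t => g (γ t))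
    hφd hkey (left_mem_Icc.mpr hL0) (right_mem_Icc.mpr hL0)
  have e1 : γ L = a + (w / 8 : ℝ) * I := by
    simp only [γ]; rw [hexpL]
  have e2 : γ 0 = a + y * I := by
    simp [γ]
  rw [e1, e2] at h2
  rwa [sub_zero, Real.norm_of_nonneg hL0] at h2

/-- comparison of the value near the real axis with the value in the middle of the cell -/
theorem chain_le {g : ℂ → ℂ} {x w e : ℝ} (he : 0 ≤ e)
    (hg : DifferentiableOn ℂ g UH) (hinj : InjOn g UH)
    (hvol : volume (g '' cell x w) ≤ ENNReal.ofReal e) {p s : ℂ} (hp : 0 < p.im)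
    (hpw : p.im ≤ w / 8) (hpx : |p.re - x| ≤ w / 6) (hs : ‖s - x‖ ≤ w / 4) (hs' : w / 64 ≤ s.im) :
    ‖g s - g p‖ ≤ √e * (38 + Real.log (w / (8 * p.im))) := by
  have hw : 0 < w := by linarith
  have h1 := vertical_le he hg hinj hvol hp hpw hpx
  rw [re_add_im] at h1
  set q : ℂ := p.re + (w / 8 : ℝ) * I with hq
  -- convex set
  let K : Set ℂ := {z | w / 64 ≤ z.im} ∩ closedBall (x : ℂ) (7 * w / 24)
  have hKc : Convex ℝ K := by
    refine Convex.inter ?_ (convex_closedBall _ _)
    exact convex_halfSpace_ge imCLM.isLinear _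
  have hqK : q ∈ K := by
    refine ⟨?_, ?_⟩
    · simp only [hq, mem_ofPred_eq]
      simp
      linarith
    · rw [mem_closedBall, dist_eq_norm]
      have : q - x = ((p.re - x : ℝ) : ℂ) + (w / 8 : ℝ) * I := by
        simp only [hq]; push_cast; ring
      rw [this]
      refine (norm_add_le _ _).trans ?_
      rw [norm_mul, norm_I, mul_one, norm_real, norm_real, Real.norm_eq_abs, Real.norm_eq_abs,
        abs_of_pos (by positivity : (0:ℝ) < w / 8)]
      linarith
  have hsK : s ∈ K := by
    refine ⟨hs', ?_⟩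
    rw [mem_closedBall, dist_eq_norm]
    linarith
  have hdiff : ∀ z ∈ K, DifferentiableAt ℂ g z := by
    intro z hz
    apply hg.differentiableAt (isOpen_UH.mem_nhds _)
    have : w / 64 ≤ z.im := hz.1
    change 0 < z.im
    linarith
  have hbd : ∀ z ∈ K, ‖deriv g z‖ ≤ √e / (w / 64) := by
    intro z hz
    have h3 := hz.2
    rw [mem_closedBall, dist_eq_norm] at h3
    exact norm_deriv_le_of_cell (by positivity) he hg hinj hvol hz.1 (by linarith)
  have h2 := hKc.norm_image_sub_le_of_norm_deriv_le hdiff hbd hqK hsK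
  have h3 : ‖s - q‖ ≤ 13 * w / 24 := by
    have e1 := hqK.2
    rw [mem_closedBall, dist_eq_norm] at e1
    have : s - q = (s - x) - (q - x) := by ring
    rw [this]
    refine (norm_sub_le _ _).trans ?_
    linarith
  have h4 : ‖g s - g q‖ ≤ √e * 38 := by
    refine h2.trans ?_
    calc √e / (w / 64) * ‖s - q‖ ≤ √e / (w / 64) * (13 * w / 24) :=
          mul_le_mul_of_nonneg_left h3 (by positivity)
      _ = √e * (64 * 13 / 24) := by field_simp
      _ ≤ √e * 38 := mul_le_mul_of_nonneg_left (by norm_num) (Real.sqrt_nonneg _)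
  have h5 : g s - g p = (g s - g q) + (g q - g p) := by ring
  rw [h5]
  refine (norm_add_le _ _).trans ?_
  rw [mul_add]
  exact add_le_add h4 h1

end Pool.Agent.Hhelper32
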