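import Mathlib

/-! A quantitative open mapping statement. -/

set_option autoImplicit false

namespace Pool.Agent.Hhelper32

open Set Metric Complex
open scoped Real

theorem cover_of_close {F : ℂ → ℂ} {v₀ q A : ℂ} {r θ a : ℝ} (hr : 0 < r) {Ω : Set ℂ}
    (hΩ : IsOpen Ω) (hsub : closedBall v₀ r ⊆ Ω) (hF : DifferentiableOn ℂ F Ω) (hA : ‖A‖ = a)
    (hclose : ∀ z ∈ closedBall v₀ r, ‖F z - (A * (z - v₀) + q)‖ ≤ θ) :
    ball q (a * r / 2 - 2 * θ) ⊆ F '' closedBall v₀ r := by
  rcases le_or_gt (a * r / 2 - 2 * θ) 0 with hneg | hpos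
  · rw [ball_eq_empty.mpr hneg]
    exact empty_subset _
  have hv₀ : v₀ ∈ closedBall v₀ r := mem_closedBall_self hr.le
  have h0 := hclose v₀ hv₀
  have hθ : 0 ≤ θ := (norm_nonneg _).trans h0
  rw [sub_self, mul_zero, zero_add] at h0
  have hsph : ∀ z ∈ sphere v₀ r, a * r - 2 * θ ≤ ‖F z - F v₀‖ := by
    intro z hz
    have h1 := hclose z (sphere_subset_closedBall hz)
    rw [mem_sphere, dist_eq_norm] at hz
    have h2 : ‖A * (z - v₀)‖ = a * r := by rw [norm_mul, hA, hz]
    have h3 : A * (z - v₀) = (F z - F v₀) - (F z - (A * (z - v₀) + q)) + (F v₀ - q) := by ring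
    have h4 : ‖A * (z - v₀)‖ ≤ ‖F z - F v₀‖ + ‖F z - (A * (z - v₀) + q)‖ + ‖F v₀ - q‖ := by
      calc ‖A * (z - v₀)‖ = ‖(F z - F v₀) - (F z - (A * (z - v₀) + q)) + (F v₀ - q)‖ := by
            rw [← h3]
        _ ≤ ‖(F z - F v₀) - (F z - (A * (z - v₀) + q))‖ + ‖F v₀ - q‖ := norm_add_le _ _
        _ ≤ ‖F z - F v₀‖ + ‖F z - (A * (z - v₀) + q)‖ + ‖F v₀ - q‖ := by
            gcongr
            exact norm_sub_le _ _
    linarith
  have hfreq : ∃ᶠ z in nhds v₀, F z ≠ F v₀ := by
    by_contra hcon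
    rw [Filter.not_frequently] at hcon
    have hev : F =ᶠ[nhds v₀] fun _ => F v₀ := by
      filter_upwards [hcon] with z hz
      by_contra hne
      exact hz hne
    have han : AnalyticOnNhd ℂ F (closedBall v₀ r) :=
      (hF.analyticOnNhd hΩ).mono hsub
    have heq := han.eqOn_of_preconnected_of_eventuallyEq analyticOnNhd_const
      (convex_closedBall v₀ r).isPreconnected hv₀ hev
    have hz : v₀ + r ∈ sphere v₀ r := by
      rw [mem_sphere, dist_eq_norm, add_sub_cancel_left, norm_real, Real.norm_of_nonneg hr.le]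
    have h1 := hsph _ hz
    rw [heq (sphere_subset_closedBall hz), sub_self, norm_zero] at h1
    linarith
  have hcov := (hF.diffContOnCl_ball hsub).ball_subset_image_closedBall hr hsph hfreq
  refine Subset.trans ?_ hcov
  apply ball_subset_ball'
  rw [dist_comm, dist_eq_norm]
  linarith

end Pool.Agent.Hhelper32
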