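import Mathlib
import Pool.Agent.Hhelper32.Area

set_option autoImplicit false

namespace Pool.Agent.Hhelper32

open MeasureTheory Set Metric Complex
open scoped ENNReal NNReal Real

theorem sq_lintegral_le {α : Type*} [MeasurableSpace α] (μ : Measure α) {f : α → ℝ≥0∞}
    (hf : AEMeasurable f μ) : (∫⁻ x, f x ∂μ) ^ 2 ≤ μ univ * ∫⁻ x, f x ^ 2 ∂μ := by
  have h := ENNReal.lintegral_mul_le_Lp_mul_Lq μ Real.HolderConjugate.two_two hf
    (aemeasurable_const (b := (1 : ℝ≥0∞)))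
  simp only [Pi.mul_apply, mul_one, ENNReal.one_rpow, lintegral_const, one_mul] at h
  have h2 := pow_le_pow_left₀ (zero_le) h 2
  refine h2.trans ?_
  rw [mul_pow, ← ENNReal.rpow_natCast, ← ENNReal.rpow_mul, ← ENNReal.rpow_natCast,
    ← ENNReal.rpow_mul]
  norm_num
  rw [mul_comm]

/-- comparison of the values of a holomorphic function along a segment in direction `μ` -/
theorem enorm_sub_sq_le {G : ℂ → ℂ} {V : Set ℂ} (hV : IsOpen V) (hG : DifferentiableOn ℂ G V)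
    {u μ : ℂ} (hμ : ‖μ‖ = 1) {T : ℝ} (hT : 0 < T) (hseg : ∀ t ∈ Icc (0:ℝ) T, u + t * μ ∈ V) :
    ‖G (u + T * μ) - G u‖ₑ ^ 2 ≤
      ENNReal.ofReal T * ∫⁻ t in Ioc (0:ℝ) T, ‖deriv G (u + t * μ)‖ₑ ^ 2 := by
  have hcont : ContinuousOn (fun t : ℝ => deriv G (u + t * μ) * μ) (Icc 0 T) := by
    apply ContinuousOn.mul _ continuousOn_const
    exact ContinuousOn.comp (t := V) ((hG.deriv hV).continuousOn) (by fun_prop) hseg
  have hint : IntervalIntegrable (fun t : ℝ => deriv G (u + t * μ) * μ) volume 0 T := by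
    apply ContinuousOn.intervalIntegrable
    rwa [uIcc_of_le hT.le]
  have hd : ∀ t ∈ uIcc (0:ℝ) T, HasDerivAt (fun t : ℝ => G (u + t * μ))
      (deriv G (u + t * μ) * μ) t := by
    intro t ht
    rw [uIcc_of_le hT.le] at ht
    have h1 : HasDerivAt G (deriv G (u + t * μ)) (u + t * μ) :=
      (hG.differentiableAt (hV.mem_nhds (hseg t ht))).hasDerivAt
    have h2 : HasDerivAt (fun t : ℝ => u + (t : ℂ) * μ) μ t := by
      have := ((hasDerivAt_id t).ofReal_comp.mul_const μ).const_add u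
      exact this.congr_deriv (by simp)
    exact h1.comp t h2
  have h3 := intervalIntegral.integral_eq_sub_of_hasDerivAt hd hint
  have h3' : ∫ t in (0:ℝ)..T, deriv G (u + t * μ) * μ = G (u + T * μ) - G u := by
    rw [h3]; simp
  rw [← h3', intervalIntegral.integral_of_le hT.le]
  have h4 : ‖∫ t in Ioc (0:ℝ) T, deriv G (u + t * μ) * μ‖ₑ ≤
      ∫⁻ t in Ioc (0:ℝ) T, ‖deriv G (u + t * μ)‖ₑ := by
    refine (enorm_integral_le_lintegral_enorm _).trans (le_of_eq ?_)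
    apply lintegral_congr
    intro t
    rw [enorm_mul, ← ofReal_norm μ, hμ]
    simp
  refine (pow_le_pow_left₀ (zero_le) h4 2).trans ?_
  have h5 := sq_lintegral_le (volume.restrict (Ioc (0:ℝ) T))
    (f := fun t => ‖deriv G (u + t * μ)‖ₑ) ?_
  · rw [Measure.restrict_apply_univ, Real.volume_Ioc, sub_zero] at h5
    exact h5
  · have : ContinuousOn (fun t : ℝ => deriv G (u + t * μ)) (Ioc 0 T) :=
      ContinuousOn.comp (t := V) ((hG.deriv hV).continuousOn) (by fun_prop)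
        (fun t ht => hseg t ⟨ht.1.le, ht.2⟩)
    exact (this.aemeasurable measurableSet_Ioc).enorm


theorem lintegral_translate_le {V S : Set ℂ} (hV : MeasurableSet V) (hS : MeasurableSet S)
    (φ : ℂ → ℝ≥0∞) (a : ℂ) (h : ∀ u ∈ S, u + a ∈ V) :
    ∫⁻ u in S, φ (u + a) ≤ ∫⁻ z in V, φ z := by
  rw [← lintegral_indicator hS, ← lintegral_indicator hV,
    ← lintegral_add_right_eq_self (μ := volume) (fun z => V.indicator φ z) a]
  apply lintegral_mono
  intro u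
  by_cases hu : u ∈ S
  · simp only
    rw [indicator_of_mem hu, indicator_of_mem (h u hu)]
  · simp only
    rw [indicator_of_notMem hu]
    exact zero_le

theorem lintegral_sub_sq_le {G : ℂ → ℂ} {V : Set ℂ} (hV : IsOpen V)
    (hG : DifferentiableOn ℂ G V) {μ : ℂ} (hμ : ‖μ‖ = 1) {T : ℝ} (hT : 0 < T) {S : Set ℂ}
    (hS : MeasurableSet S) (hseg : ∀ u ∈ S, ∀ t ∈ Icc (0:ℝ) T, u + t * μ ∈ V) :
    ∫⁻ u in S, ‖G (u + T * μ) - G u‖ₑ ^ 2 ≤
      ENNReal.ofReal (T ^ 2) * ∫⁻ z in V, ‖deriv G z‖ₑ ^ 2 := by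
  have h1 : ∫⁻ u in S, ‖G (u + T * μ) - G u‖ₑ ^ 2 ≤
      ∫⁻ u in S, ENNReal.ofReal T * ∫⁻ t in Ioc (0:ℝ) T, ‖deriv G (u + t * μ)‖ₑ ^ 2 :=
    setLIntegral_mono' hS (fun u hu => enorm_sub_sq_le hV hG hμ hT (hseg u hu))
  refine h1.trans ?_
  rw [lintegral_const_mul' _ _ ENNReal.ofReal_ne_top]
  have hmeas : AEMeasurable (Function.uncurry fun (u : ℂ) (t : ℝ) => ‖deriv G (u + t * μ)‖ₑ ^ 2)
      ((volume.restrict S).prod (volume.restrict (Ioc (0:ℝ) T))) := by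
    rw [Measure.prod_restrict]
    have hc : ContinuousOn (fun p : ℂ × ℝ => deriv G (p.1 + p.2 * μ)) (S ×ˢ Ioc (0:ℝ) T) := by
      apply ContinuousOn.comp (t := V) ((hG.deriv hV).continuousOn)
      · apply Continuous.continuousOn; fun_prop
      · rintro ⟨u, t⟩ ⟨h1, h2⟩
        exact hseg u h1 t ⟨h2.1.le, h2.2⟩
    exact (hc.aemeasurable (hS.prod measurableSet_Ioc)).enorm.pow_const 2
  rw [lintegral_lintegral_swap hmeas]
  have h2 : ∫⁻ t in Ioc (0:ℝ) T, ∫⁻ u in S, ‖deriv G (u + t * μ)‖ₑ ^ 2 ≤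
      ∫⁻ _ in Ioc (0:ℝ) T, ∫⁻ z in V, ‖deriv G z‖ₑ ^ 2 := by
    apply setLIntegral_mono' measurableSet_Ioc
    intro t ht
    exact lintegral_translate_le hV.measurableSet hS (fun z => ‖deriv G z‖ₑ ^ 2) (t * μ)
      (fun u hu => hseg u hu t ⟨ht.1.le, ht.2⟩)
  refine (mul_le_mul_right h2 _).trans (le_of_eq ?_)
  rw [lintegral_const, Measure.restrict_apply_univ, Real.volume_Ioc, sub_zero]
  rw [mul_comm (∫⁻ z in V, ‖deriv G z‖ₑ ^ 2), ← mul_assoc, ← ENNReal.ofReal_mul hT.le]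
  congr 2
  ring

end Pool.Agent.Hhelper32
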