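import Mathlib
import Pool.Agent.Hhelper32.Segment

/-! The one-sided area estimate. -/

set_option autoImplicit false

namespace Pool.Agent.Hhelper32

open MeasureTheory Set Metric Complex
open scoped ENNReal NNReal Real ComplexConjugate

theorem norm_sq_add_mul (q : ℂ) {μ : ℂ} (hμ : ‖μ‖ = 1) (t : ℝ) :
    ‖q + t * μ‖ ^ 2 = ‖q‖ ^ 2 + 2 * t * (conj μ * q).re + t ^ 2 := by
  have h1 : μ.re * μ.re + μ.im * μ.im = 1 := by
    have := Complex.sq_norm μ
    rw [hμ, Complex.normSq_apply] at this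
    linarith
  rw [Complex.sq_norm, Complex.sq_norm, Complex.normSq_apply, Complex.normSq_apply]
  simp only [add_re, add_im, mul_re, mul_im, ofReal_re, ofReal_im, conj_re, conj_im]
  linear_combination (t ^ 2) * h1

theorem abs_re_conj_mul_le (q : ℂ) {μ : ℂ} (hμ : ‖μ‖ = 1) : |(conj μ * q).re| ≤ ‖q‖ := by
  refine (abs_re_le_norm _).trans ?_
  rw [norm_mul, RCLike.norm_conj, hμ, one_mul]

/-- the sheet -/
def sheet (w μ : ℂ) (R ε : ℝ) : Set ℂ := ball (w + ((R - ε : ℝ) : ℂ) * μ) R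

theorem seg_mem {w μ : ℂ} (hμ : ‖μ‖ = 1) {R ε ρ₁ : ℝ} (_hε : 0 < ε) (hε1 : ε ≤ 1) (hρ₁ : 1 ≤ ρ₁)
    (hR : 1000 * (ρ₁ + 1) ≤ R) {u : ℂ} (hu : u ∈ sheet w μ R ε ∩ ball w ρ₁) {t : ℝ}
    (ht : t ∈ Icc (0:ℝ) (R / 100)) : u + t * μ ∈ sheet w μ R ε ∩ ball w (R / 50) := by
  obtain ⟨hu1, hu2⟩ := hu
  unfold sheet at *
  rw [mem_ball, dist_eq_norm] at hu1 hu2
  have hR0 : 0 < R := by linarith
  refine ⟨?_, ?_⟩
  · rw [mem_ball, dist_eq_norm]
    have e1 : u + t * μ - (w + ((R - ε : ℝ) : ℂ) * μ) =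
        (u - w) + ((t - (R - ε) : ℝ) : ℂ) * μ := by push_cast; ring
    have e2 : u - (w + ((R - ε : ℝ) : ℂ) * μ) = (u - w) + ((-(R - ε) : ℝ) : ℂ) * μ := by
      push_cast; ring
    rw [e2] at hu1
    rw [e1]
    have h1 := norm_sq_add_mul (u - w) hμ (t - (R - ε))
    have h2 := norm_sq_add_mul (u - w) hμ (-(R - ε))
    have h3 := abs_re_conj_mul_le (u - w) hμ
    have h4 := (abs_le.mp h3).2
    have h5 : ‖(u - w) + ((t - (R - ε) : ℝ) : ℂ) * μ‖ ^ 2 ≤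
        ‖(u - w) + ((-(R - ε) : ℝ) : ℂ) * μ‖ ^ 2 := by
      rw [h1, h2]
      have h6 : t * (2 * (conj μ * (u - w)).re + t - 2 * (R - ε)) ≤ 0 := by
        apply mul_nonpos_of_nonneg_of_nonpos ht.1
        have := ht.2
        linarith
      nlinarith
    have h7 := abs_le_of_sq_le_sq' h5 (norm_nonneg _)
    linarith [h7.2]
  · rw [mem_ball, dist_eq_norm]
    have e1 : u + t * μ - w = (u - w) + t * μ := by ring
    rw [e1]
    refine (norm_add_le _ _).trans_lt ?_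
    rw [norm_mul, hμ, mul_one, norm_real, Real.norm_of_nonneg ht.1]
    have := ht.2
    linarith

/-- points around `w + (R/100) μ` are well inside the sheet -/
theorem ball_sub_sheet {w μ : ℂ} (hμ : ‖μ‖ = 1) {R ε : ℝ} (hε : 0 < ε) (hε1 : ε ≤ 1)
    (hR : 1000 ≤ R) : ball (w + ((R / 100 : ℝ) : ℂ) * μ) (R / 200) ⊆
      sheet w μ R ε ∩ ball w (R / 50) := by
  intro z hz
  rw [mem_ball, dist_eq_norm] at hz
  unfold sheet
  refine ⟨?_, ?_⟩
  · rw [mem_ball, dist_eq_norm]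
    have e1 : z - (w + ((R - ε : ℝ) : ℂ) * μ) =
        (z - (w + ((R / 100 : ℝ) : ℂ) * μ)) + ((R / 100 - (R - ε) : ℝ) : ℂ) * μ := by
      push_cast; ring
    rw [e1]
    refine (norm_add_le _ _).trans_lt ?_
    rw [norm_mul, hμ, mul_one, norm_real, Real.norm_eq_abs,
      abs_of_nonpos (by linarith : R / 100 - (R - ε) ≤ 0)]
    linarith
  · rw [mem_ball, dist_eq_norm]
    have e1 : z - w = (z - (w + ((R / 100 : ℝ) : ℂ) * μ)) + ((R / 100 : ℝ) : ℂ) * μ := by ring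
    rw [e1]
    refine (norm_add_le _ _).trans_lt ?_
    rw [norm_mul, hμ, mul_one, norm_real, Real.norm_of_nonneg (by linarith)]
    linarith

theorem isOpen_sheet (w μ : ℂ) (R ε : ℝ) : IsOpen (sheet w μ R ε) := isOpen_ball

/-- points of the sheet satisfy `Re (conj μ (u - w)) > - ε` -/
theorem re_gt_of_mem_sheet {w μ : ℂ} (hμ : ‖μ‖ = 1) {R ε : ℝ} {u : ℂ} (hu : u ∈ sheet w μ R ε) :
    -ε < (conj μ * (u - w)).re := by
  unfold sheet at hu
  rw [mem_ball, dist_eq_norm] at hu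
  have h1 := abs_re_conj_mul_le (u - (w + ((R - ε : ℝ) : ℂ) * μ)) hμ
  have h2 : conj μ * (u - (w + ((R - ε : ℝ) : ℂ) * μ)) =
      conj μ * (u - w) - ((R - ε : ℝ) : ℂ) := by
    have h3 : conj μ * μ = 1 := by
      rw [mul_comm, Complex.mul_conj, Complex.normSq_eq_norm_sq, hμ]
      simp
    linear_combination (-((R - ε : ℝ) : ℂ)) * h3
  rw [h2, sub_re, ofReal_re] at h1
  have := (abs_le.mp h1).1
  linarith


theorem enorm_sq_le_two (a b : ℂ) : ‖a + b‖ₑ ^ 2 ≤ 2 * ‖a‖ₑ ^ 2 + 2 * ‖b‖ₑ ^ 2 := by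
  have h : ‖a + b‖ ^ 2 ≤ 2 * ‖a‖ ^ 2 + 2 * ‖b‖ ^ 2 := by
    have h1 := norm_add_le a b
    have h2 := norm_nonneg (a + b)
    nlinarith [sq_nonneg (‖a‖ - ‖b‖), norm_nonneg a, norm_nonneg b]
  rw [← ofReal_norm, ← ofReal_norm, ← ofReal_norm, ← ENNReal.ofReal_pow (norm_nonneg _),
    ← ENNReal.ofReal_pow (norm_nonneg _), ← ENNReal.ofReal_pow (norm_nonneg _)]
  have e2 : (2 : ℝ≥0∞) = ENNReal.ofReal 2 := by simp
  rw [e2, ← ENNReal.ofReal_mul (by norm_num), ← ENNReal.ofReal_mul (by norm_num),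
    ← ENNReal.ofReal_add (by positivity) (by positivity)]
  exact ENNReal.ofReal_le_ofReal h

section main

variable {w μ : ℂ} {R ε ρ₁ δ : ℝ} {G Err : ℂ → ℂ}

theorem sup_bound (hμ : ‖μ‖ = 1) (hε : 0 < ε) (hε1 : ε ≤ 1) (hρ₁ : 1 ≤ ρ₁)
    (hR : 1000 * (ρ₁ + 1) ≤ R) (hδ0 : 0 ≤ δ)
    (hG : DifferentiableOn ℂ G (sheet w μ R ε ∩ ball w (R / 50)))
    (hGi : InjOn G (sheet w μ R ε ∩ ball w (R / 50)))
    (hvol : volume (G '' (sheet w μ R ε ∩ ball w (R / 50))) ≤ ENNReal.ofReal δ)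
    {u : ℂ} (hu : u ∈ ball w ρ₁) :
    ‖G (u + ((R / 100 : ℝ) : ℂ) * μ) - G (w + ((R / 100 - ε : ℝ) : ℂ) * μ)‖ ≤ √δ := by
  have hR1 : 1000 ≤ R := by linarith
  have hR0 : 0 < R := by linarith
  set c : ℂ := w + ((R / 100 : ℝ) : ℂ) * μ with hc
  have hsub := ball_sub_sheet hμ hε hε1 hR1 (w := w)
  rw [← hc] at hsub
  have hbd : ∀ z ∈ ball c (R / 400), ‖deriv G z‖ ≤ √δ / (R / 400) := by
    intro z hz
    have h1 : ball z (R / 400) ⊆ sheet w μ R ε ∩ ball w (R / 50) := by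
      refine Subset.trans ?_ hsub
      apply ball_subset_ball'
      rw [mem_ball] at hz
      linarith
    exact norm_deriv_le_of_volume_le (by positivity) hδ0 (hG.mono h1) (hGi.mono h1)
      ((measure_mono (image_mono h1)).trans hvol)
  have hdiff : ∀ z ∈ ball c (R / 400), DifferentiableAt ℂ G z := by
    intro z hz
    apply hG.differentiableAt
    apply ((isOpen_sheet _ _ _ _).inter isOpen_ball).mem_nhds
    apply hsub
    exact ball_subset_ball (by linarith) hz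
  rw [mem_ball, dist_eq_norm] at hu
  have hu' : u + ((R / 100 : ℝ) : ℂ) * μ ∈ ball c (R / 400) := by
    rw [mem_ball, dist_eq_norm]
    have : u + ((R / 100 : ℝ) : ℂ) * μ - c = u - w := by rw [hc]; ring
    rw [this]
    linarith
  have hp' : w + ((R / 100 - ε : ℝ) : ℂ) * μ ∈ ball c (R / 400) := by
    rw [mem_ball, dist_eq_norm]
    have : w + ((R / 100 - ε : ℝ) : ℂ) * μ - c = ((-ε : ℝ) : ℂ) * μ := by
      rw [hc]; push_cast; ring
    rw [this, norm_mul, hμ, mul_one, norm_real, Real.norm_eq_abs, abs_neg, abs_of_pos hε]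
    linarith
  have h2 := (convex_ball c (R / 400)).norm_image_sub_le_of_norm_deriv_le hdiff hbd hp' hu'
  refine h2.trans ?_
  have h3 : ‖u + ((R / 100 : ℝ) : ℂ) * μ - (w + ((R / 100 - ε : ℝ) : ℂ) * μ)‖ ≤ ρ₁ + 1 := by
    have : u + ((R / 100 : ℝ) : ℂ) * μ - (w + ((R / 100 - ε : ℝ) : ℂ) * μ) =
        (u - w) + (ε : ℂ) * μ := by push_cast; ring
    rw [this]
    refine (norm_add_le _ _).trans ?_
    rw [norm_mul, hμ, mul_one, norm_real, Real.norm_eq_abs, abs_of_pos hε]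
    linarith
  calc √δ / (R / 400) * ‖u + ((R / 100 : ℝ) : ℂ) * μ - (w + ((R / 100 - ε : ℝ) : ℂ) * μ)‖
      ≤ √δ / (R / 400) * (ρ₁ + 1) := mul_le_mul_of_nonneg_left h3 (by positivity)
    _ = √δ * (400 * (ρ₁ + 1) / R) := by field_simp
    _ ≤ √δ * 1 := by
        apply mul_le_mul_of_nonneg_left _ (Real.sqrt_nonneg _)
        rw [div_le_one hR0]
        linarith
    _ = √δ := mul_one _

theorem integral_bound (hμ : ‖μ‖ = 1) (hε : 0 < ε) (hε1 : ε ≤ 1) (hρ₁ : 1 ≤ ρ₁)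
    (hR : 1000 * (ρ₁ + 1) ≤ R) (hδ0 : 0 ≤ δ)
    (hG : DifferentiableOn ℂ G (sheet w μ R ε ∩ ball w (R / 50)))
    (hGi : InjOn G (sheet w μ R ε ∩ ball w (R / 50)))
    (hvol : volume (G '' (sheet w μ R ε ∩ ball w (R / 50))) ≤ ENNReal.ofReal δ) :
    ∫⁻ u in sheet w μ R ε ∩ ball w ρ₁, ‖G u - G (w + ((R / 100 - ε : ℝ) : ℂ) * μ)‖ₑ ^ 2 ≤
      ENNReal.ofReal (4 * (R / 100) ^ 2 * δ) := by
  have hR0 : 0 < R := by linarith
  set V := sheet w μ R ε ∩ ball w (R / 50) with hV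
  set S := sheet w μ R ε ∩ ball w ρ₁ with hS
  set p := w + ((R / 100 - ε : ℝ) : ℂ) * μ with hp
  have hVo : IsOpen V := (isOpen_sheet _ _ _ _).inter isOpen_ball
  have hSm : MeasurableSet S := ((isOpen_sheet _ _ _ _).inter isOpen_ball).measurableSet
  have h1 := lintegral_sub_sq_le hVo hG hμ (T := R / 100) (by positivity) hSm
    (fun u hu t ht => seg_mem hμ hε hε1 hρ₁ hR hu ht)
  rw [lintegral_deriv_sq_eq hVo.measurableSet
    (fun x hx => hG.differentiableAt (hVo.mem_nhds hx)) hGi] at h1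
  have h2 : ∫⁻ u in S, ‖G u - G p‖ₑ ^ 2 ≤
      ∫⁻ u in S, (2 * ‖G (u + ((R / 100 : ℝ) : ℂ) * μ) - G u‖ₑ ^ 2 + 2 * ENNReal.ofReal δ) := by
    apply setLIntegral_mono' hSm
    intro u hu
    have e1 : G u - G p = (-(G (u + ((R / 100 : ℝ) : ℂ) * μ) - G u)) +
        (G (u + ((R / 100 : ℝ) : ℂ) * μ) - G p) := by ring
    rw [e1]
    refine (enorm_sq_le_two _ _).trans ?_
    rw [enorm_neg]
    gcongr
    have h3 := sup_bound hμ hε hε1 hρ₁ hR hδ0 hG hGi hvol hu.2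
    rw [← hp] at h3
    rw [← ofReal_norm, ← ENNReal.ofReal_pow (norm_nonneg _)]
    apply ENNReal.ofReal_le_ofReal
    calc ‖G (u + ((R / 100 : ℝ) : ℂ) * μ) - G p‖ ^ 2 ≤ (√δ) ^ 2 :=
          pow_le_pow_left₀ (norm_nonneg _) h3 2
      _ = δ := Real.sq_sqrt hδ0
  refine h2.trans ?_
  rw [lintegral_add_right _ measurable_const, lintegral_const_mul' _ _ (by simp),
    lintegral_const, Measure.restrict_apply_univ]
  have h4 : volume S ≤ ENNReal.ofReal (4 * ρ₁ ^ 2) := by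
    refine (measure_mono inter_subset_right).trans ?_
    rw [Complex.volume_ball, ← ENNReal.ofReal_pow (by linarith)]
    have : (NNReal.pi : ℝ≥0∞) = ENNReal.ofReal π := by
      rw [← NNReal.coe_real_pi, ENNReal.ofReal_coe_nnreal]
    rw [this, ← ENNReal.ofReal_mul (by positivity)]
    apply ENNReal.ofReal_le_ofReal
    nlinarith [Real.pi_lt_four, sq_nonneg ρ₁]
  have h5 : 2 * ∫⁻ u in S, ‖G (u + ((R / 100 : ℝ) : ℂ) * μ) - G u‖ₑ ^ 2 ≤
      ENNReal.ofReal (2 * (R / 100) ^ 2 * δ) := by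
    have e2 : (2 : ℝ≥0∞) = ENNReal.ofReal 2 := by simp
    calc 2 * ∫⁻ u in S, ‖G (u + ((R / 100 : ℝ) : ℂ) * μ) - G u‖ₑ ^ 2
        ≤ 2 * (ENNReal.ofReal ((R / 100) ^ 2) * ENNReal.ofReal δ) := by
          gcongr
          refine h1.trans ?_
          gcongr
      _ = ENNReal.ofReal (2 * (R / 100) ^ 2 * δ) := by
          rw [e2, ← ENNReal.ofReal_mul (by positivity), ← ENNReal.ofReal_mul (by norm_num)]
          congr 1
          ring
  have h6 : 2 * ENNReal.ofReal δ * volume S ≤ ENNReal.ofReal (2 * (R / 100) ^ 2 * δ) := by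
    have e2 : (2 : ℝ≥0∞) = ENNReal.ofReal 2 := by simp
    calc 2 * ENNReal.ofReal δ * volume S ≤ 2 * ENNReal.ofReal δ * ENNReal.ofReal (4 * ρ₁ ^ 2) := by
          gcongr
      _ = ENNReal.ofReal (2 * δ * (4 * ρ₁ ^ 2)) := by
          rw [e2, ← ENNReal.ofReal_mul (by norm_num), ← ENNReal.ofReal_mul (by positivity)]
      _ ≤ ENNReal.ofReal (2 * (R / 100) ^ 2 * δ) := by
          apply ENNReal.ofReal_le_ofReal
          have : 4 * ρ₁ ^ 2 ≤ (R / 100) ^ 2 := by nlinarith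
          nlinarith
  refine (add_le_add h5 h6).trans ?_
  rw [← ENNReal.ofReal_add (by positivity) (by positivity)]
  apply ENNReal.ofReal_le_ofReal
  linarith


/-- the bad set -/
def badSet (w μ : ℂ) (R ε ρ₁ : ℝ) (G : ℂ → ℂ) : Set ℂ :=
  {u ∈ sheet w μ R ε ∩ ball w ρ₁ | ε / 4 ≤ ‖G u - G (w + ((R / 100 - ε : ℝ) : ℂ) * μ)‖}

theorem measurableSet_badSet (hρ : ρ₁ ≤ R / 50)
    (hG : DifferentiableOn ℂ G (sheet w μ R ε ∩ ball w (R / 50))) :
    MeasurableSet (badSet w μ R ε ρ₁ G) := by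
  have hSo : IsOpen (sheet w μ R ε ∩ ball w ρ₁) := (isOpen_sheet _ _ _ _).inter isOpen_ball
  have hc : ContinuousOn (fun u => ‖G u - G (w + ((R / 100 - ε : ℝ) : ℂ) * μ)‖)
      (sheet w μ R ε ∩ ball w ρ₁) := by
    apply ContinuousOn.norm
    apply ContinuousOn.sub _ continuousOn_const
    exact hG.continuousOn.mono (inter_subset_inter_right _ (ball_subset_ball hρ))
  have h1 : IsOpen ((sheet w μ R ε ∩ ball w ρ₁) ∩
      (fun u => ‖G u - G (w + ((R / 100 - ε : ℝ) : ℂ) * μ)‖) ⁻¹' (Iio (ε / 4))) :=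
    hc.isOpen_inter_preimage hSo isOpen_Iio
  have h2 : badSet w μ R ε ρ₁ G = (sheet w μ R ε ∩ ball w ρ₁) \
      ((sheet w μ R ε ∩ ball w ρ₁) ∩
      (fun u => ‖G u - G (w + ((R / 100 - ε : ℝ) : ℂ) * μ)‖) ⁻¹' (Iio (ε / 4))) := by
    ext u
    constructor
    · rintro ⟨hu, hu'⟩
      exact ⟨hu, fun h => absurd h.2 (not_lt.mpr hu')⟩
    · rintro ⟨hu, hu'⟩
      refine ⟨hu, ?_⟩
      by_contra hlt
      exact hu' ⟨hu, not_le.mp hlt⟩
  rw [h2]
  exact hSo.measurableSet.diff h1.measurableSet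

theorem volume_badSet_le (hμ : ‖μ‖ = 1) (hε : 0 < ε) (hε1 : ε ≤ 1) (hρ₁ : 1 ≤ ρ₁)
    (hR : 1000 * (ρ₁ + 1) ≤ R) (hδ0 : 0 ≤ δ)
    (hG : DifferentiableOn ℂ G (sheet w μ R ε ∩ ball w (R / 50)))
    (hGi : InjOn G (sheet w μ R ε ∩ ball w (R / 50)))
    (hvol : volume (G '' (sheet w μ R ε ∩ ball w (R / 50))) ≤ ENNReal.ofReal δ) :
    volume (badSet w μ R ε ρ₁ G) ≤ ENNReal.ofReal (64 * (R / 100) ^ 2 * δ / ε ^ 2) := by
  have hR0 : 0 < R := by linarith
  set S := sheet w μ R ε ∩ ball w ρ₁ with hS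
  have hSo : IsOpen S := (isOpen_sheet _ _ _ _).inter isOpen_ball
  set p := w + ((R / 100 - ε : ℝ) : ℂ) * μ with hp
  have hc : ContinuousOn (fun u => G u - G p) S :=
    (hG.continuousOn.mono (inter_subset_inter_right _
      (ball_subset_ball (by linarith)))).sub continuousOn_const
  have hm : AEMeasurable (fun u => ‖G u - G p‖ₑ ^ 2) (volume.restrict S) :=
    (hc.aemeasurable hSo.measurableSet).enorm.pow_const 2
  have h1 := mul_meas_ge_le_lintegral₀ hm (ENNReal.ofReal ((ε / 4) ^ 2))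
  have h2 := integral_bound hμ hε hε1 hρ₁ hR hδ0 hG hGi hvol
  rw [← hS, ← hp] at h2
  have h3 : volume (badSet w μ R ε ρ₁ G) ≤
      (volume.restrict S) {u | ENNReal.ofReal ((ε / 4) ^ 2) ≤ ‖G u - G p‖ₑ ^ 2} := by
    rw [Measure.restrict_apply' hSo.measurableSet]
    apply measure_mono
    rintro u ⟨hu, hu'⟩
    refine ⟨?_, hu⟩
    change ENNReal.ofReal ((ε / 4) ^ 2) ≤ ‖G u - G p‖ₑ ^ 2
    rw [← ofReal_norm, ← ENNReal.ofReal_pow (norm_nonneg _)]
    exact ENNReal.ofReal_le_ofReal (pow_le_pow_left₀ (by positivity) hu' 2)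
  have h4 : ENNReal.ofReal ((ε / 4) ^ 2) * volume (badSet w μ R ε ρ₁ G) ≤
      ENNReal.ofReal (4 * (R / 100) ^ 2 * δ) :=
    ((mul_le_mul_right h3 _).trans h1).trans h2
  have h5 : volume (badSet w μ R ε ρ₁ G) ≤
      ENNReal.ofReal (4 * (R / 100) ^ 2 * δ) / ENNReal.ofReal ((ε / 4) ^ 2) := by
    rw [ENNReal.le_div_iff_mul_le, mul_comm]
    · exact h4
    · left
      simp only [ne_eq, ENNReal.ofReal_eq_zero, not_le]
      positivity
    · left; exact ENNReal.ofReal_ne_top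
  refine h5.trans (le_of_eq ?_)
  rw [← ENNReal.ofReal_div_of_pos (by positivity)]
  congr 1
  field_simp
  ring

/-- **One-sided estimate.** -/
theorem one_sided (hμ : ‖μ‖ = 1) (hε : 0 < ε) (hε1 : ε ≤ 1) (hρ₁ : 1 ≤ ρ₁)
    (hR : 1000 * (ρ₁ + 1) ≤ R) (hδ0 : 0 ≤ δ) (hδ : δ ≤ ε ^ 4 / R ^ 2)
    (hG : DifferentiableOn ℂ G (sheet w μ R ε ∩ ball w (R / 50)))
    (hGi : InjOn G (sheet w μ R ε ∩ ball w (R / 50)))
    (hvol : volume (G '' (sheet w μ R ε ∩ ball w (R / 50))) ≤ ENNReal.ofReal δ)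
    (hE : DifferentiableOn ℂ Err (sheet w μ R ε ∩ ball w (R / 50)))
    (hEb : ∀ u ∈ sheet w μ R ε ∩ ball w (R / 50), ‖Err u‖ ≤ ε / 500)
    (hE' : ∀ u ∈ sheet w μ R ε ∩ ball w (R / 50), ‖deriv Err u‖ ≤ 1) :
    volume ({v | ∃ u ∈ sheet w μ R ε ∩ ball w ρ₁, v = u + G u + Err u} ∩
      {v | (conj μ * (v - w)).re ≤
        (conj μ * G (w + ((R / 100 - ε : ℝ) : ℂ) * μ)).re - 13 / 10 * ε}) ≤
      ENNReal.ofReal (ε ^ 2 / 10) := by
  have hR0 : 0 < R := by linarith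
  set p := w + ((R / 100 - ε : ℝ) : ℂ) * μ with hp
  have hSV : sheet w μ R ε ∩ ball w ρ₁ ⊆ sheet w μ R ε ∩ ball w (R / 50) :=
    inter_subset_inter_right _ (ball_subset_ball (by linarith))
  have hVo : IsOpen (sheet w μ R ε ∩ ball w (R / 50)) :=
    (isOpen_sheet _ _ _ _).inter isOpen_ball
  have hbadV : badSet w μ R ε ρ₁ G ⊆ sheet w μ R ε ∩ ball w (R / 50) :=
    (fun u hu => hSV hu.1)
  -- inclusion in the image of the bad set
  have hincl : ({v | ∃ u ∈ sheet w μ R ε ∩ ball w ρ₁, v = u + G u + Err u} ∩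
      {v | (conj μ * (v - w)).re ≤ (conj μ * G p).re - 13 / 10 * ε}) ⊆
      (fun u => u + G u + Err u) '' (badSet w μ R ε ρ₁ G) := by
    rintro v ⟨⟨u, hu, rfl⟩, hv⟩
    refine ⟨u, ⟨hu, ?_⟩, rfl⟩
    by_contra hlt
    rw [not_le] at hlt
    change (conj μ * (u + G u + Err u - w)).re ≤ (conj μ * G p).re - 13 / 10 * ε at hv
    have e1 : conj μ * (u + G u + Err u - w) = conj μ * (u - w) + conj μ * (G u - G p) +
        conj μ * Err u + conj μ * G p := by ring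
    rw [e1, add_re, add_re, add_re] at hv
    have h1 := re_gt_of_mem_sheet hμ hu.1
    have h2 := (abs_le.mp (abs_re_conj_mul_le (G u - G p) hμ)).1
    have h3 := (abs_le.mp (abs_re_conj_mul_le (Err u) hμ)).1
    have h4 := hEb u (hSV hu)
    rw [← hp] at hlt
    linarith
  refine (measure_mono hincl).trans ?_
  have hbm := measurableSet_badSet (w := w) (μ := μ) (ε := ε) (by linarith : ρ₁ ≤ R / 50) hG
  have hdG : ∀ x ∈ sheet w μ R ε ∩ ball w (R / 50), DifferentiableAt ℂ G x :=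
    fun x hx => hG.differentiableAt (hVo.mem_nhds hx)
  have hdE : ∀ x ∈ sheet w μ R ε ∩ ball w (R / 50), DifferentiableAt ℂ Err x :=
    fun x hx => hE.differentiableAt (hVo.mem_nhds hx)
  refine (volume_image_le hbm (fun x hx => ((differentiableAt_id.add (hdG x (hbadV hx))).add
    (hdE x (hbadV hx))))).trans ?_
  have h1 : ∫⁻ x in badSet w μ R ε ρ₁ G, ‖deriv (fun u => u + G u + Err u) x‖ₑ ^ 2 ≤
      ∫⁻ x in badSet w μ R ε ρ₁ G, (8 + 2 * ‖deriv G x‖ₑ ^ 2) := by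
    apply setLIntegral_mono' hbm
    intro x hx
    have hx' := hbadV hx
    have hd : deriv (fun u => u + G u + Err u) x = (1 + deriv Err x) + deriv G x := by
      have := ((hasDerivAt_id x).add (hdG x hx').hasDerivAt).add (hdE x hx').hasDerivAt
      have h2 : HasDerivAt (fun u => u + G u + Err u) (1 + deriv G x + deriv Err x) x := this
      rw [h2.deriv]; ring
    rw [hd]
    refine (enorm_sq_le_two _ _).trans ?_
    gcongr
    have h3 : ‖1 + deriv Err x‖ ≤ 2 := by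
      refine (norm_add_le _ _).trans ?_
      rw [norm_one]
      linarith [hE' x hx']
    rw [← ofReal_norm, ← ENNReal.ofReal_pow (norm_nonneg _)]
    have e2 : (2 : ℝ≥0∞) = ENNReal.ofReal 2 := by simp
    have e8 : (8 : ℝ≥0∞) = ENNReal.ofReal 8 := by simp
    rw [e2, e8, ← ENNReal.ofReal_mul (by norm_num)]
    apply ENNReal.ofReal_le_ofReal
    nlinarith [norm_nonneg (1 + deriv Err x)]
  refine h1.trans ?_
  rw [lintegral_add_left measurable_const, lintegral_const, Measure.restrict_apply_univ,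
    lintegral_const_mul' _ _ (by simp)]
  have h2 : ∫⁻ x in badSet w μ R ε ρ₁ G, ‖deriv G x‖ₑ ^ 2 ≤ ENNReal.ofReal δ := by
    refine (lintegral_mono_set hbadV).trans ?_
    rw [lintegral_deriv_sq_eq hVo.measurableSet hdG hGi]
    exact hvol
  have h3 := volume_badSet_le hμ hε hε1 hρ₁ hR hδ0 hG hGi hvol
  have e2 : (2 : ℝ≥0∞) = ENNReal.ofReal 2 := by simp
  have e8 : (8 : ℝ≥0∞) = ENNReal.ofReal 8 := by simp
  calc 8 * volume (badSet w μ R ε ρ₁ G) + 2 * ∫⁻ x in badSet w μ R ε ρ₁ G, ‖deriv G x‖ₑ ^ 2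
      ≤ 8 * ENNReal.ofReal (64 * (R / 100) ^ 2 * δ / ε ^ 2) + 2 * ENNReal.ofReal δ := by gcongr
    _ = ENNReal.ofReal (8 * (64 * (R / 100) ^ 2 * δ / ε ^ 2) + 2 * δ) := by
        rw [e2, e8, ← ENNReal.ofReal_mul (by norm_num), ← ENNReal.ofReal_mul (by norm_num),
          ← ENNReal.ofReal_add (by positivity) (by positivity)]
    _ ≤ ENNReal.ofReal (ε ^ 2 / 10) := by
        apply ENNReal.ofReal_le_ofReal
        have h5 : 64 * (R / 100) ^ 2 * δ / ε ^ 2 ≤ 64 * (R / 100) ^ 2 * (ε ^ 4 / R ^ 2) / ε ^ 2 := by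
          gcongr
        have h6 : 64 * (R / 100) ^ 2 * (ε ^ 4 / R ^ 2) / ε ^ 2 = 64 / 10000 * ε ^ 2 := by
          field_simp
          ring
        have h7 : ε ^ 4 / R ^ 2 ≤ ε ^ 2 / 1000 := by
          rw [div_le_div_iff₀ (by positivity) (by norm_num)]
          have h8 : (1000:ℝ) ≤ R ^ 2 := by nlinarith
          have h9 : ε ^ 2 ≤ 1 := by nlinarith
          have h10 : ε ^ 4 * 1000 ≤ ε ^ 2 * 1000 := by
            have : ε ^ 4 = ε ^ 2 * ε ^ 2 := by ring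
            rw [this]
            nlinarith [sq_nonneg ε]
          have h11 : ε ^ 2 * 1000 ≤ ε ^ 2 * R ^ 2 := mul_le_mul_of_nonneg_left h8 (sq_nonneg ε)
          linarith
        linarith

end main

end Pool.Agent.Hhelper32
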