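import Mathlib
import Pool.Agent.Hhelper32.OneSided
import Pool.Agent.Hhelper32.Cover
import Pool.Agent.Hhelper32.Chain

/-! The test piece. -/

set_option autoImplicit false

namespace Pool.Agent.Hhelper32

open MeasureTheory Set Metric Complex
open scoped ENNReal NNReal Real ComplexConjugate

/-- parameters of a test piece -/
structure PP where
  ξ : ℝ
  ρ : ℝ
  η : ℝ
  ε : ℝ
  R : ℝ
  A : ℝ
  w : ℂ
  μ : ℂ
  h : ℂ
  hρ : 0 < ρ
  hρ1 : ρ ≤ 1
  hη : 0 < η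
  hη1 : η ≤ 1
  hε : 0 < ε
  hε1 : ε ≤ 1
  hR : 1000 ≤ R
  hμ : ‖μ‖ = 1
  hμi : |μ.im| ≤ 4 / 5
  hwi : w.im = R / 10
  hwr : 10 * R ≤ w.re
  hwA : w.re + 2 * R ≤ A
  hh : ‖h‖ ≤ 1 / 4

namespace PP

variable (D : PP)

noncomputable def b : ℝ := D.η * D.ρ / 2
noncomputable def d : ℝ := D.ε * D.b ^ 2 / (1000000 * D.R * D.A ^ 2)
noncomputable def c : ℂ := D.w + ((D.R - D.ε : ℝ) : ℂ) * D.μ
noncomputable def a : ℝ := (D.c - D.h).re - √(D.R ^ 2 - (D.c - D.h).im ^ 2)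
noncomputable def u₀ : ℂ := D.h + (D.a : ℂ)
noncomputable def κ : ℂ := 2 * I * (D.d : ℂ) * (D.c - D.u₀)
noncomputable def x' : ℝ := D.ξ + D.b / D.a
noncomputable def P (s : ℂ) : ℂ := (D.b : ℂ) / (s - D.ξ) + D.κ / (s - D.x' + I * D.d)
noncomputable def τ (s : ℂ) : ℂ := D.u₀ + D.κ / (s - D.x' + I * D.d)
noncomputable def σ (u : ℂ) : ℂ := D.x' - I * D.d + D.κ / (u - D.u₀)

def V : Set ℂ := sheet D.w D.μ D.R D.ε ∩ ball D.w (D.R / 50)

theorem R_pos : 0 < D.R := by linarith [D.hR]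
theorem b_pos : 0 < D.b := by
  have := D.hη; have := D.hρ; unfold b; positivity
theorem b_le : D.b ≤ D.ρ / 2 := by
  unfold b
  have := D.hρ
  nlinarith [D.hη1]
theorem A_ge : 12 * D.R ≤ D.A := by linarith [D.hwr, D.hwA]
theorem A_pos : 0 < D.A := by linarith [D.A_ge, D.R_pos]
theorem d_pos : 0 < D.d := by
  have := D.b_pos; have := D.hε; have := D.R_pos; have := D.A_pos
  unfold d; positivity

theorem re_μ_le : |D.μ.re| ≤ 1 := by
  have := abs_re_le_norm D.μ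
  rwa [D.hμ] at this

theorem cim : |(D.c - D.h).im| ≤ 19 / 20 * D.R := by
  have h1 : (D.c - D.h).im = D.R / 10 + (D.R - D.ε) * D.μ.im - D.h.im := by
    unfold c
    simp [D.hwi]
  rw [h1]
  have h2 := (abs_im_le_norm D.h).trans D.hh
  have h3 : |(D.R - D.ε) * D.μ.im| ≤ D.R * (4 / 5) := by
    rw [abs_mul, abs_of_nonneg (by linarith [D.hR, D.hε1])]
    have := D.hε
    have := D.hR
    gcongr
    · linarith
    · exact D.hμi
  rw [abs_le] at h2 h3 ⊢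
  have := D.hR
  constructor <;> linarith [h2.1, h2.2, h3.1, h3.2]

theorem cre : 9 * D.R - 1 ≤ (D.c - D.h).re ∧ (D.c - D.h).re ≤ D.w.re + D.R + 1 := by
  have h1 : (D.c - D.h).re = D.w.re + (D.R - D.ε) * D.μ.re - D.h.re := by
    unfold c
    simp
  rw [h1]
  have h2 := (abs_re_le_norm D.h).trans D.hh
  have h3 : |(D.R - D.ε) * D.μ.re| ≤ D.R * 1 := by
    rw [abs_mul, abs_of_nonneg (by linarith [D.hR, D.hε1])]
    have := D.hε
    have := D.hR
    gcongr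
    · linarith
    · exact D.re_μ_le
  rw [abs_le] at h2 h3
  have := D.hR
  have := D.hwr
  constructor <;> linarith [h2.1, h2.2, h3.1, h3.2]

theorem sqrt_nonneg' : 0 ≤ D.R ^ 2 - (D.c - D.h).im ^ 2 := by
  have h1 := D.cim
  have h2 : (D.c - D.h).im ^ 2 ≤ (19 / 20 * D.R) ^ 2 := by
    rw [← sq_abs]
    exact pow_le_pow_left₀ (abs_nonneg _) h1 2
  nlinarith [sq_nonneg D.R]

theorem sqrt_le' : √(D.R ^ 2 - (D.c - D.h).im ^ 2) ≤ D.R := by
  rw [Real.sqrt_le_left D.R_pos.le]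
  nlinarith [sq_nonneg ((D.c - D.h).im)]

theorem a_ge : 1 ≤ D.a := by
  unfold a
  linarith [D.sqrt_le', D.cre.1, D.hR]

theorem a_pos : 0 < D.a := by linarith [D.a_ge]

theorem a_le : D.a ≤ D.A := by
  unfold a
  linarith [Real.sqrt_nonneg (D.R ^ 2 - (D.c - D.h).im ^ 2), D.cre.2, D.hR, D.hwA]

theorem c_sub_u₀ : D.c - D.u₀ = ⟨√(D.R ^ 2 - (D.c - D.h).im ^ 2), (D.c - D.h).im⟩ := by
  have e : D.c - D.u₀ = (D.c - D.h) - (D.a : ℂ) := by unfold u₀; ring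
  rw [e]
  apply Complex.ext
  · rw [sub_re, ofReal_re]
    simp only [a]
    ring
  · rw [sub_im, ofReal_im]
    simp

theorem norm_c_sub_u₀ : ‖D.c - D.u₀‖ = D.R := by
  have h1 : ‖D.c - D.u₀‖ ^ 2 = D.R ^ 2 := by
    rw [D.c_sub_u₀, Complex.sq_norm, Complex.normSq_mk, Real.mul_self_sqrt D.sqrt_nonneg']
    ring
  exact (sq_eq_sq₀ (norm_nonneg _) D.R_pos.le).mp h1

theorem c_sub_u₀_ne : D.c - D.u₀ ≠ 0 := by
  intro h
  have := D.norm_c_sub_u₀
  rw [h, norm_zero] at this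
  linarith [D.R_pos]

theorem norm_κ : ‖D.κ‖ = 2 * D.d * D.R := by
  unfold κ
  rw [norm_mul, norm_mul, norm_mul, D.norm_c_sub_u₀, norm_I, norm_real,
    Real.norm_of_nonneg D.d_pos.le]
  norm_num

theorem κ_ne : D.κ ≠ 0 := by
  have := D.norm_κ
  intro h
  rw [h, norm_zero] at this
  have h1 := D.d_pos; have h2 := D.R_pos
  have : 0 < 2 * D.d * D.R := by positivity
  linarith

/-- the basic relation for `d` -/
theorem d_rel : D.d * D.R * D.A ^ 2 * 1000000 = D.ε * D.b ^ 2 := by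
  unfold d
  have := D.R_pos; have := D.A_pos
  field_simp

theorem dRA_le : D.d * D.R * D.a ^ 2 / D.b ≤ D.ε / 1000000 := by
  have h1 := D.d_rel
  have hb := D.b_pos
  have hb1 : D.b ≤ 1 := by linarith [D.b_le, D.hρ1]
  rw [div_le_iff₀ hb]
  have h2 : D.a ^ 2 ≤ D.A ^ 2 := pow_le_pow_left₀ D.a_pos.le D.a_le 2
  have h3 : D.d * D.R * D.a ^ 2 ≤ D.d * D.R * D.A ^ 2 :=
    mul_le_mul_of_nonneg_left h2 (mul_pos D.d_pos D.R_pos).le
  have h4 : D.ε * D.b ^ 2 ≤ D.ε * D.b := by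
    apply mul_le_mul_of_nonneg_left _ D.hε.le
    nlinarith
  nlinarith

theorem dR_le : 3 * D.d * D.R ≤ D.b / (2 * D.a) := by
  have h1 := D.dRA_le
  have hb := D.b_pos
  have ha := D.a_pos
  have ha1 := D.a_ge
  rw [div_le_iff₀ hb] at h1
  rw [le_div_iff₀ (by positivity)]
  have h2 : D.a ≤ D.a ^ 2 := by nlinarith
  have h3 : D.d * D.R * D.a ≤ D.d * D.R * D.a ^ 2 :=
    mul_le_mul_of_nonneg_left h2 (mul_pos D.d_pos D.R_pos).le
  have h4 : D.ε / 1000000 * D.b ≤ 1 / 1000000 * D.b := by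
    have := D.hε1
    gcongr
  nlinarith

theorem b_div_a_le : D.b / D.a ≤ D.b := div_le_self D.b_pos.le D.a_ge

theorem dR_le' : 3 * D.d * D.R ≤ D.ρ / 4 := by
  refine D.dR_le.trans ?_
  have h1 : D.b / (2 * D.a) ≤ D.b / 2 := by
    have := D.a_ge
    have := D.b_pos
    gcongr
    linarith
  linarith [D.b_le]

theorem d_le_ρ : 1000 * D.d ≤ D.ρ / 4 := by
  have h1 := D.dR_le'
  have h2 : D.d * 1000 ≤ D.d * D.R := mul_le_mul_of_nonneg_left D.hR D.d_pos.le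
  have := D.d_pos
  nlinarith

theorem pole_close {s : ℂ} (hs : ‖s - D.x'‖ ≤ 3 * D.d * D.R) :
    D.b / (2 * D.a) ≤ ‖s - D.ξ‖ ∧ ‖(D.b : ℂ) / (s - D.ξ) - D.a‖ ≤ D.ε / 100000 := by
  have hb := D.b_pos
  have ha := D.a_pos
  have e1 : s - D.ξ = ((D.b / D.a : ℝ) : ℂ) + (s - D.x') := by
    unfold x'; push_cast; ring
  have h1 : D.b / (2 * D.a) ≤ ‖s - D.ξ‖ := by
    rw [e1]
    have h2 : ‖((D.b / D.a : ℝ) : ℂ)‖ - ‖s - D.x'‖ ≤ ‖((D.b / D.a : ℝ) : ℂ) + (s - D.x')‖ := by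
      have := norm_sub_norm_le ((D.b / D.a : ℝ) : ℂ) (-(s - D.x'))
      rwa [norm_neg, sub_neg_eq_add] at this
    rw [norm_real, Real.norm_of_nonneg (by positivity)] at h2
    have h3 := D.dR_le
    have h4 : D.b / (2 * D.a) = D.b / D.a / 2 := by field_simp
    linarith
  refine ⟨h1, ?_⟩
  have hpos : 0 < D.b / (2 * D.a) := by positivity
  have hne : s - D.ξ ≠ 0 := by
    intro h
    rw [h, norm_zero] at h1
    linarith
  have hac : (D.a : ℂ) ≠ 0 := by exact_mod_cast ha.ne'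
  have e2 : (D.b : ℂ) / (s - D.ξ) - D.a = -(D.a * (s - D.x')) / (s - D.ξ) := by
    rw [div_sub' hne, div_left_inj' hne]
    have e3 : (s : ℂ) - D.x' = (s - D.ξ) - (D.b : ℂ) / D.a := by
      unfold x'; push_cast; ring
    rw [e3]
    field_simp
    ring
  rw [e2, norm_div, norm_neg, norm_mul, norm_real, Real.norm_of_nonneg ha.le]
  rw [div_le_iff₀ (lt_of_lt_of_le hpos h1)]
  have h5 : D.a * ‖s - D.x'‖ ≤ D.a * (3 * D.d * D.R) := mul_le_mul_of_nonneg_left hs ha.le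
  have h6 : D.ε / 100000 * (D.b / (2 * D.a)) ≤ D.ε / 100000 * ‖s - D.ξ‖ :=
    mul_le_mul_of_nonneg_left h1 (by have := D.hε; positivity)
  have h7 : D.a * (3 * D.d * D.R) ≤ D.ε / 100000 * (D.b / (2 * D.a)) := by
    have h8 := D.dRA_le
    rw [div_le_iff₀ hb] at h8
    have : D.ε / 100000 * (D.b / (2 * D.a)) = D.ε * D.b / 200000 / D.a := by field_simp; ring
    rw [this, le_div_iff₀ ha]
    have h9 : D.ε * D.b / 1000000 * 3 ≤ D.ε * D.b / 200000 := by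
      have : 0 < D.ε * D.b := mul_pos D.hε hb
      linarith
    nlinarith
  linarith

theorem q_ne {s : ℂ} (hs : 0 < s.im) : s - D.x' + I * D.d ≠ 0 := by
  intro h
  have := congrArg Complex.im h
  simp at this
  linarith [D.d_pos]

theorem norm_τ_sub {s : ℂ} (hs : 0 < s.im) : ‖D.τ s - D.c‖ < D.R := by
  have hq := D.q_ne hs
  have e : D.τ s - D.c = (D.c - D.u₀) * ((2 * I * D.d - (s - D.x' + I * D.d)) /
      (s - D.x' + I * D.d)) := by
    unfold τ κ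
    field_simp
    ring
  rw [e, norm_mul, D.norm_c_sub_u₀, norm_div]
  have h1 : ‖2 * I * D.d - (s - D.x' + I * D.d)‖ < ‖s - D.x' + I * D.d‖ := by
    apply lt_of_pow_lt_pow_left₀ 2 (norm_nonneg _)
    rw [Complex.sq_norm, Complex.sq_norm, normSq_apply, normSq_apply]
    simp
    nlinarith [mul_pos hs D.d_pos]
  have h2 : 0 < ‖s - D.x' + I * D.d‖ := norm_pos_iff.mpr hq
  calc D.R * (‖2 * I * D.d - (s - D.x' + I * D.d)‖ / ‖s - D.x' + I * D.d‖) < D.R * 1 := by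
        apply mul_lt_mul_of_pos_left _ D.R_pos
        rwa [div_lt_one h2]
    _ = D.R := mul_one _

theorem σ_τ {s : ℂ} (hs : 0 < s.im) : D.σ (D.τ s) = s := by
  have hq := D.q_ne hs
  have hk := D.κ_ne
  unfold σ τ
  rw [add_sub_cancel_left, div_div_cancel₀ hk]
  ring

theorem sheet_eq : sheet D.w D.μ D.R D.ε = ball D.c D.R := rfl

theorem isOpen_V : IsOpen D.V := (isOpen_sheet _ _ _ _).inter isOpen_ball

theorem V1 {u : ℂ} (hu : u ∈ D.V) : 3 * D.R / 100 ≤ ‖u - D.u₀‖ := by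
  have h1 : D.R / 20 ≤ ‖D.w - D.u₀‖ := by
    refine le_trans ?_ (abs_im_le_norm _)
    have e : (D.w - D.u₀).im = D.R / 10 - D.h.im := by
      unfold u₀
      simp [D.hwi]
    rw [e]
    have h2 := (abs_le.mp ((abs_im_le_norm D.h).trans D.hh)).2
    refine le_trans ?_ (le_abs_self _)
    linarith [D.hR]
  have h2 := hu.2
  rw [mem_ball, dist_eq_norm] at h2
  have h3 : ‖D.w - D.u₀‖ ≤ ‖u - D.u₀‖ + ‖u - D.w‖ := by
    have : D.w - D.u₀ = (u - D.u₀) - (u - D.w) := by ring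
    rw [this]
    exact norm_sub_le _ _
  linarith

theorem sub_ne {u : ℂ} (hu : u ∈ D.V) : u - D.u₀ ≠ 0 := by
  have h1 := D.V1 hu
  have h2 := D.R_pos
  intro h
  rw [h, norm_zero] at h1
  linarith

theorem σ_q (u : ℂ) : D.σ u - D.x' + I * D.d = D.κ / (u - D.u₀) := by
  unfold σ; ring

theorem V2 {u : ℂ} (hu : u ∈ D.V) : ‖D.σ u - D.x' + I * D.d‖ ≤ 67 * D.d := by
  have h1 := D.V1 hu
  have hR := D.R_pos
  rw [D.σ_q, norm_div, D.norm_κ, div_le_iff₀ (by linarith)]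
  have hd := D.d_pos
  have := mul_le_mul_of_nonneg_left h1 hd.le
  nlinarith [mul_pos hd hR]

theorem V2' {u : ℂ} (hu : u ∈ D.V) : ‖D.σ u - D.x'‖ ≤ 3 * D.d * D.R := by
  have h1 := D.V2 hu
  have e : D.σ u - D.x' = (D.σ u - D.x' + I * D.d) - I * D.d := by ring
  rw [e]
  refine (norm_sub_le _ _).trans ?_
  rw [norm_mul, norm_I, one_mul, norm_real, Real.norm_of_nonneg D.d_pos.le]
  have := mul_le_mul_of_nonneg_left D.hR D.d_pos.le
  have := D.d_pos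
  nlinarith

theorem τ_σ {u : ℂ} (hu : u ∈ D.V) : D.τ (D.σ u) = u := by
  have hne := D.sub_ne hu
  have hk := D.κ_ne
  unfold τ
  rw [D.σ_q, div_div_cancel₀ hk]
  ring

/-- formula for the imaginary part of `σ` -/
theorem σ_im {u : ℂ} (hu : u - D.u₀ ≠ 0) :
    (D.σ u).im * ‖u - D.u₀‖ ^ 2 = D.d * (D.R ^ 2 - ‖u - D.c‖ ^ 2) := by
  have hn : normSq (u - D.u₀) ≠ 0 := by rwa [Ne, normSq_eq_zero]
  have h1 : (D.σ u).im = -D.d + (D.κ / (u - D.u₀)).im := by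
    unfold σ
    simp
  have h2 : (D.κ / (u - D.u₀)).im * normSq (u - D.u₀) = (D.κ * conj (u - D.u₀)).im := by
    rw [Complex.div_im, mul_im]
    simp only [conj_re, conj_im]
    field_simp
    ring
  have h3 : D.R ^ 2 = normSq (D.c - D.u₀) := by
    rw [← D.norm_c_sub_u₀, Complex.sq_norm]
  rw [h1, Complex.sq_norm, Complex.sq_norm, add_mul, h2, h3]
  unfold κ
  simp only [normSq_apply, mul_im, mul_re, sub_re, sub_im, conj_re, conj_im, I_re, I_im,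
    ofReal_re, ofReal_im, re_ofNat, im_ofNat]
  ring

theorem σ_im_pos {u : ℂ} (hu : u ∈ D.V) : 0 < (D.σ u).im := by
  have hne := D.sub_ne hu
  have h1 := D.σ_im hne
  have h2 : 0 < ‖u - D.u₀‖ ^ 2 := by positivity
  have h3 : ‖u - D.c‖ < D.R := by
    have := hu.1
    rwa [D.sheet_eq, mem_ball, dist_eq_norm] at this
  have h4 : 0 < D.R ^ 2 - ‖u - D.c‖ ^ 2 := by
    have := pow_lt_pow_left₀ h3 (norm_nonneg _) two_ne_zero
    linarith
  have h5 : 0 < (D.σ u).im * ‖u - D.u₀‖ ^ 2 := by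
    rw [h1]; exact mul_pos D.d_pos h4
  exact (mul_pos_iff_of_pos_right h2).mp h5

theorem norm_sub_ξ {s : ℂ} (hs : ‖s - D.x'‖ ≤ 3 * D.d * D.R) : ‖s - D.ξ‖ ≤ 3 / 4 * D.ρ := by
  have e : s - D.ξ = (s - D.x') + ((D.b / D.a : ℝ) : ℂ) := by
    unfold x'; push_cast; ring
  rw [e]
  refine (norm_add_le _ _).trans ?_
  rw [norm_real, Real.norm_of_nonneg (div_nonneg D.b_pos.le D.a_pos.le)]
  linarith [D.b_div_a_le, D.b_le, D.dR_le']

theorem σ_mem {u : ℂ} (hu : u ∈ D.V) : ‖D.σ u - D.ξ‖ ≤ 3 / 4 * D.ρ := D.norm_sub_ξ (D.V2' hu)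

theorem P_σ {u : ℂ} (hu : u ∈ D.V) :
    D.P (D.σ u) + D.h = u + ((D.b : ℂ) / (D.σ u - D.ξ) - D.a) := by
  have h1 := D.τ_σ hu
  unfold τ at h1
  unfold P
  have e : D.κ / (D.σ u - D.x' + I * D.d) = u - D.u₀ := by
    linear_combination h1
  rw [e]
  unfold u₀
  ring


/-- P1 -/
theorem differentiableAt_P {s : ℂ} (hs : 0 < s.im ∨ D.ρ ≤ ‖s - D.ξ‖) :
    DifferentiableAt ℂ D.P s := by
  have h1 : s - D.ξ ≠ 0 := by
    intro h
    rcases hs with hs | hs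
    · have := congrArg Complex.im h
      simp at this
      linarith
    · rw [h, norm_zero] at hs
      linarith [D.hρ]
  have h2 : s - D.x' + I * D.d ≠ 0 := by
    rcases hs with hs | hs
    · exact D.q_ne hs
    · intro h
      have h3 : s - D.x' = -(I * D.d) := by linear_combination h
      have h4 : ‖s - D.x'‖ ≤ 3 * D.d * D.R := by
        rw [h3, norm_neg, norm_mul, norm_I, one_mul, norm_real, Real.norm_of_nonneg D.d_pos.le]
        have := mul_le_mul_of_nonneg_left D.hR D.d_pos.le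
        have := D.d_pos
        nlinarith
      have h5 := D.norm_sub_ξ h4
      linarith [D.hρ]
  unfold P
  apply DifferentiableAt.add
  · exact (differentiableAt_const _).div (differentiableAt_id.sub_const _) h1
  · exact (differentiableAt_const _).div ((differentiableAt_id.sub_const _).add_const _) h2

/-- P2 -/
theorem norm_P_le {s : ℂ} (hs : D.ρ ≤ ‖s - D.ξ‖) : ‖D.P s‖ ≤ D.η := by
  have hρ := D.hρ
  have h1 : ‖(D.b : ℂ) / (s - D.ξ)‖ ≤ D.η / 2 := by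
    rw [norm_div, norm_real, Real.norm_of_nonneg D.b_pos.le, div_le_iff₀ (by linarith)]
    have : D.b = D.η / 2 * D.ρ := by unfold b; ring
    rw [this]
    exact mul_le_mul_of_nonneg_left hs (by linarith [D.hη])
  have h2 : D.ρ / 4 ≤ ‖s - D.x' + I * D.d‖ := by
    have e : s - D.ξ = (s - D.x' + I * D.d) + (((D.b / D.a : ℝ) : ℂ) - I * D.d) := by
      unfold x'; push_cast; ring
    have h3 : ‖s - D.ξ‖ ≤ ‖s - D.x' + I * D.d‖ + (D.b / D.a + D.d) := by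
      rw [e]
      refine (norm_add_le _ _).trans ?_
      gcongr
      refine (norm_sub_le _ _).trans ?_
      rw [norm_real, Real.norm_of_nonneg (div_nonneg D.b_pos.le D.a_pos.le), norm_mul, norm_I,
        one_mul, norm_real, Real.norm_of_nonneg D.d_pos.le]
    linarith [D.b_div_a_le, D.b_le, D.d_le_ρ, D.d_pos]
  have h4 : ‖D.κ / (s - D.x' + I * D.d)‖ ≤ D.η / 2 := by
    rw [norm_div, D.norm_κ, div_le_iff₀ (by linarith)]
    have h5 : D.η / 2 * (D.ρ / 4) ≤ D.η / 2 * ‖s - D.x' + I * D.d‖ :=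
      mul_le_mul_of_nonneg_left h2 (by linarith [D.hη])
    have h6 : D.η / 2 * (D.ρ / 4) = D.b / 4 := by unfold b; ring
    have h7 := D.dR_le
    have h8 : D.b / (2 * D.a) ≤ D.b / 2 := by
      have := D.a_ge
      have := D.b_pos
      gcongr
      linarith
    have h9 : 2 * D.d * D.R ≤ D.b / 4 := by
      have h10 := D.dRA_le
      have hb := D.b_pos
      rw [div_le_iff₀ hb] at h10
      have h11 : D.d * D.R ≤ D.d * D.R * D.a ^ 2 := by
        have : 1 ≤ D.a ^ 2 := by nlinarith [D.a_ge]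
        exact le_mul_of_one_le_right (mul_pos D.d_pos D.R_pos).le this
      have h12 : D.ε / 1000000 * D.b ≤ 1 / 1000000 * D.b := by
        have := D.hε1
        gcongr
      nlinarith
    linarith
  unfold P
  refine (norm_add_le _ _).trans ?_
  linarith

/-- the perturbed function -/
theorem close_τ {e : ℂ → ℂ} (he : ∀ s ∈ ball (D.ξ : ℂ) D.ρ, ‖e s‖ ≤ D.ε / 1000) {s : ℂ}
    (hs : s ∈ ball (D.ξ : ℂ) D.ρ) (hs' : ‖s - D.x' + I * D.d‖ ≤ 2 * D.d * D.R) :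
    ‖D.P s + D.h + e s - D.τ s‖ ≤ D.ε / 500 := by
  have h1 : ‖s - D.x'‖ ≤ 3 * D.d * D.R := by
    have e : s - D.x' = (s - D.x' + I * D.d) - I * D.d := by ring
    rw [e]
    refine (norm_sub_le _ _).trans ?_
    rw [norm_mul, norm_I, one_mul, norm_real, Real.norm_of_nonneg D.d_pos.le]
    have := mul_le_mul_of_nonneg_left D.hR D.d_pos.le
    have := D.d_pos
    nlinarith
  have h2 := (D.pole_close h1).2
  have e1 : D.P s + D.h + e s - D.τ s = ((D.b : ℂ) / (s - D.ξ) - D.a) + e s := by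
    unfold P τ u₀; ring
  rw [e1]
  refine (norm_add_le _ _).trans ?_
  have := he s hs
  have := D.hε
  linarith

/-- (a) -/
theorem high_values {e : ℂ → ℂ} (he : ∀ s ∈ ball (D.ξ : ℂ) D.ρ, ‖e s‖ ≤ D.ε / 1000) {s : ℂ}
    (hs : s ∈ ball (D.ξ : ℂ) D.ρ) (hs0 : 0 < s.im) (hv : 2 ≤ (D.P s + D.h + e s).im) :
    ‖D.τ s - D.c‖ < D.R ∧ ‖D.P s + D.h + e s - D.τ s‖ ≤ D.ε / 500 := by
  refine ⟨D.norm_τ_sub hs0, D.close_τ he hs ?_⟩
  have hq := D.q_ne hs0
  have h1 : ((D.b : ℂ) / (s - D.ξ)).im ≤ 0 := by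
    rw [Complex.div_im]
    simp only [ofReal_im, zero_mul, zero_div, ofReal_re, sub_im, sub_zero, zero_sub]
    rw [neg_nonpos]
    exact div_nonneg (mul_nonneg D.b_pos.le hs0.le) (normSq_nonneg _)
  have h2 := (abs_le.mp ((abs_im_le_norm (e s)).trans (he s hs))).2
  have h3 := (abs_le.mp ((abs_im_le_norm D.h).trans D.hh)).2
  have h4 : 1 ≤ (D.κ / (s - D.x' + I * D.d)).im := by
    unfold P at hv
    simp only [add_im (_ + _), add_im (_ / _)] at hv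
    linarith [D.hε1]
  have h5 := h4.trans ((le_abs_self _).trans (abs_im_le_norm _))
  have hpos : 0 < ‖s - D.x' + I * D.d‖ := norm_pos_iff.mpr hq
  rw [norm_div, D.norm_κ, le_div_iff₀ hpos] at h5
  linarith


theorem closedBall_sub_V {v : ℂ} {L : ℝ} (hL : 0 ≤ L) (hL1 : L ^ 2 ≤ D.ε * D.R / 4)
    (hL2 : 50 * (L + 1) ≤ D.R) (hv : ‖v - D.w‖ ≤ L) (hv' : 0 ≤ (conj D.μ * (v - D.w)).re) :
    closedBall v (D.ε / 4) ⊆ D.V := by
  intro z hz
  rw [mem_closedBall, dist_eq_norm] at hz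
  have hε := D.hε
  have hε1 := D.hε1
  have hR := D.hR
  have hzw : ‖z - D.w‖ ≤ L + D.ε / 4 := by
    have e : z - D.w = (v - D.w) + (z - v) := by ring
    rw [e]
    exact (norm_add_le _ _).trans (add_le_add hv hz)
  refine ⟨?_, ?_⟩
  · rw [D.sheet_eq, mem_ball, dist_eq_norm]
    have e1 : z - D.c = (z - D.w) + ((-(D.R - D.ε) : ℝ) : ℂ) * D.μ := by
      unfold c; push_cast; ring
    have h1 := norm_sq_add_mul (z - D.w) D.hμ (-(D.R - D.ε))
    rw [← e1] at h1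
    have e2 : conj D.μ * (z - D.w) = conj D.μ * (v - D.w) + conj D.μ * (z - v) := by ring
    have h2 := (abs_le.mp (abs_re_conj_mul_le (z - v) D.hμ)).1
    have h3 : -(D.ε / 4) ≤ (conj D.μ * (z - D.w)).re := by
      rw [e2, add_re]; linarith
    have h4 : ‖z - D.w‖ ^ 2 ≤ (L + D.ε / 4) ^ 2 := pow_le_pow_left₀ (norm_nonneg _) hzw 2
    have h5 : (D.R - D.ε) * -(D.ε / 4) ≤ (D.R - D.ε) * (conj D.μ * (z - D.w)).re :=
      mul_le_mul_of_nonneg_left h3 (by linarith)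
    have h6 : ‖z - D.c‖ ^ 2 < D.R ^ 2 := by
      rw [h1]
      have h7 : L * D.ε ≤ D.R / 50 * D.ε := mul_le_mul_of_nonneg_right (by linarith) hε.le
      have h8 : D.ε * D.ε ≤ D.R / 1000 * D.ε := mul_le_mul_of_nonneg_right (by linarith) hε.le
      have h9 : 0 < D.R * D.ε := by positivity
      nlinarith
    exact lt_of_pow_lt_pow_left₀ 2 D.R_pos.le h6
  · rw [mem_ball, dist_eq_norm]
    linarith

/-- the error function in the `u` coordinate -/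
noncomputable def err (e : ℂ → ℂ) (u : ℂ) : ℂ := ((D.b : ℂ) / (D.σ u - D.ξ) - D.a) + e (D.σ u)

theorem full_σ (e : ℂ → ℂ) {u : ℂ} (hu : u ∈ D.V) :
    D.P (D.σ u) + D.h + e (D.σ u) = u + D.err e u := by
  rw [D.P_σ hu]; unfold err; ring

theorem σ_mem_ball {u : ℂ} (hu : u ∈ D.V) : D.σ u ∈ ball (D.ξ : ℂ) D.ρ := by
  rw [mem_ball, dist_eq_norm]
  linarith [D.σ_mem hu, D.hρ]

theorem norm_err_le {e : ℂ → ℂ} (he : ∀ s ∈ ball (D.ξ : ℂ) D.ρ, ‖e s‖ ≤ D.ε / 1000) {u : ℂ}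
    (hu : u ∈ D.V) : ‖D.err e u‖ ≤ D.ε / 500 := by
  have h1 := (D.pole_close (D.V2' hu)).2
  have h2 := he _ (D.σ_mem_ball hu)
  unfold err
  refine (norm_add_le _ _).trans ?_
  have := D.hε
  linarith

theorem hasDerivAt_σ {u : ℂ} (hu : u ∈ D.V) :
    HasDerivAt D.σ (-D.κ / (u - D.u₀) ^ 2) u := by
  have hne := D.sub_ne hu
  have h1 : HasDerivAt (fun u : ℂ => u - D.u₀) 1 u := (hasDerivAt_id u).sub_const _
  have h2 := ((h1.inv hne).const_mul D.κ).const_add (D.x' - I * D.d : ℂ)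
  have h3 : HasDerivAt D.σ (D.κ * (-1 / (u - D.u₀) ^ 2)) u := by
    refine h2.congr_of_eventuallyEq ?_
    filter_upwards with z
    simp only [σ, Pi.inv_apply, div_eq_mul_inv]
  refine h3.congr_deriv ?_
  ring

theorem hasDerivAt_err {e : ℂ → ℂ} (he : DifferentiableOn ℂ e (ball (D.ξ : ℂ) D.ρ)) {u : ℂ}
    (hu : u ∈ D.V) : HasDerivAt (D.err e)
      ((-(D.b : ℂ) / (D.σ u - D.ξ) ^ 2 + deriv e (D.σ u)) * (-D.κ / (u - D.u₀) ^ 2)) u := by
  have h1 := D.hasDerivAt_σ hu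
  have hne : D.σ u - D.ξ ≠ 0 := by
    intro h
    have h2 := (D.pole_close (D.V2' hu)).1
    rw [h, norm_zero] at h2
    have := D.b_pos; have := D.a_pos
    have : 0 < D.b / (2 * D.a) := by positivity
    linarith
  have h2 : HasDerivAt (fun u => D.σ u - D.ξ) (-D.κ / (u - D.u₀) ^ 2) u := h1.sub_const _
  have h3 := ((h2.inv hne).const_mul (D.b : ℂ)).sub_const (D.a : ℂ)
  have h4 : HasDerivAt e (deriv e (D.σ u)) (D.σ u) :=
    (he.differentiableAt (isOpen_ball.mem_nhds (D.σ_mem_ball hu))).hasDerivAt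
  have h5 := h4.comp u h1
  have h6 := h3.add h5
  have h7 : HasDerivAt (D.err e) ((D.b : ℂ) * (-(-D.κ / (u - D.u₀) ^ 2) / (D.σ u - D.ξ) ^ 2) +
      deriv e (D.σ u) * (-D.κ / (u - D.u₀) ^ 2)) u := by
    refine h6.congr_of_eventuallyEq ?_
    filter_upwards with z
    simp only [err, Pi.add_apply, Pi.inv_apply, div_eq_mul_inv, Function.comp]
  refine h7.congr_deriv ?_
  ring

theorem norm_deriv_err_le {e : ℂ → ℂ} (he : DifferentiableOn ℂ e (ball (D.ξ : ℂ) D.ρ))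
    (heb : ∀ s ∈ ball (D.ξ : ℂ) D.ρ, ‖e s‖ ≤ D.ε / 1000) {u : ℂ}
    (hu : u ∈ D.V) : ‖deriv (D.err e) u‖ ≤ 1 := by
  rw [(D.hasDerivAt_err he hu).deriv]
  have hb := D.b_pos
  have ha := D.a_pos
  have hd := D.d_pos
  have hR := D.R_pos
  have hρ := D.hρ
  have hε := D.hε
  have h1 := (D.pole_close (D.V2' hu)).1
  have hpos : 0 < D.b / (2 * D.a) := by positivity
  have h2 : ‖-(D.b : ℂ) / (D.σ u - D.ξ) ^ 2‖ ≤ 4 * D.a ^ 2 / D.b := by
    rw [norm_div, norm_neg, norm_real, Real.norm_of_nonneg hb.le, norm_pow]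
    calc D.b / ‖D.σ u - D.ξ‖ ^ 2 ≤ D.b / (D.b / (2 * D.a)) ^ 2 := by gcongr
      _ = 4 * D.a ^ 2 / D.b := by field_simp; ring
  have h3 : ‖deriv e (D.σ u)‖ ≤ D.ε / 1000 / (D.ρ / 8) := by
    have hsub : closedBall (D.σ u) (D.ρ / 8) ⊆ ball (D.ξ : ℂ) D.ρ := by
      apply closedBall_subset_ball'
      rw [dist_eq_norm]
      linarith [D.σ_mem hu]
    apply Complex.norm_deriv_le_of_forall_mem_sphere_norm_le (by positivity)
      (he.diffContOnCl_ball hsub)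
    intro z hz
    exact heb z (hsub (sphere_subset_closedBall hz))
  have h4 : ‖-D.κ / (u - D.u₀) ^ 2‖ ≤ 2300 * D.d / D.R := by
    rw [norm_div, norm_neg, D.norm_κ, norm_pow]
    calc 2 * D.d * D.R / ‖u - D.u₀‖ ^ 2 ≤ 2 * D.d * D.R / (3 * D.R / 100) ^ 2 := by
          have := D.V1 hu
          gcongr
      _ = 20000 / 9 * D.d / D.R := by field_simp; ring
      _ ≤ 2300 * D.d / D.R := by
          gcongr
          norm_num
  rw [norm_mul]
  have h5 : 4 * D.a ^ 2 / D.b * (2300 * D.d / D.R) ≤ 1 / 2 := by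
    have h6 := D.dRA_le
    have e : 4 * D.a ^ 2 / D.b * (2300 * D.d / D.R) = 9200 * (D.d * D.R * D.a ^ 2 / D.b) / D.R ^ 2 := by
      field_simp; ring
    rw [e, div_le_iff₀ (by positivity)]
    have h7 : (1:ℝ) ≤ D.R ^ 2 := by nlinarith [D.hR]
    linarith [D.hε1]
  have h8 : D.ε / 1000 / (D.ρ / 8) * (2300 * D.d / D.R) ≤ 1 / 2 := by
    have e : D.ε / 1000 / (D.ρ / 8) * (2300 * D.d / D.R) = 92 / 5 * D.ε * D.d / (D.ρ * D.R) := by
      field_simp; ring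
    rw [e, div_le_iff₀ (by positivity)]
    have h9 := D.d_le_ρ
    have h10 : D.ε * D.d ≤ 1 * D.d := mul_le_mul_of_nonneg_right D.hε1 hd.le
    have h11 : D.ρ * 1000 ≤ D.ρ * D.R := mul_le_mul_of_nonneg_left D.hR hρ.le
    nlinarith
  calc ‖-(D.b : ℂ) / (D.σ u - D.ξ) ^ 2 + deriv e (D.σ u)‖ * ‖-D.κ / (u - D.u₀) ^ 2‖
      ≤ (4 * D.a ^ 2 / D.b + D.ε / 1000 / (D.ρ / 8)) * (2300 * D.d / D.R) := by
        gcongr
        refine (norm_add_le _ _).trans ?_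
        gcongr
    _ ≤ 1 := by rw [add_mul]; linarith

/-- (b) covering -/
theorem covers {e : ℂ → ℂ} (he : DifferentiableOn ℂ e (ball (D.ξ : ℂ) D.ρ))
    (heb : ∀ s ∈ ball (D.ξ : ℂ) D.ρ, ‖e s‖ ≤ D.ε / 1000)
    {v : ℂ} {L : ℝ} (hL : 0 ≤ L) (hL1 : L ^ 2 ≤ D.ε * D.R / 4)
    (hL2 : 50 * (L + 1) ≤ D.R) (hv : ‖v - D.w‖ ≤ L) (hv' : 0 ≤ (conj D.μ * (v - D.w)).re) :
    ∃ s ∈ ball (D.ξ : ℂ) D.ρ, 0 < s.im ∧ D.P s + D.h + e s = v := by
  have hsub := D.closedBall_sub_V hL hL1 hL2 hv hv'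
  have hε := D.hε
  have hF : DifferentiableOn ℂ (fun u => u + D.err e u) D.V := fun u hu =>
    ((hasDerivAt_id u).add (D.hasDerivAt_err he hu)).differentiableAt.differentiableWithinAt
  have hcl : ∀ z ∈ closedBall v (D.ε / 4), ‖(z + D.err e z) - (1 * (z - v) + v)‖ ≤ D.ε / 500 := by
    intro z hz
    have e1 : (z + D.err e z) - (1 * (z - v) + v) = D.err e z := by ring
    rw [e1]
    exact D.norm_err_le heb (hsub hz)
  have hcov := cover_of_close (by positivity) D.isOpen_V hsub hF norm_one hcl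
  have hmem : v ∈ ball v (1 * (D.ε / 4) / 2 - 2 * (D.ε / 500)) :=
    mem_ball_self (by linarith)
  obtain ⟨u, hu, huv⟩ := hcov hmem
  have huV := hsub hu
  refine ⟨D.σ u, D.σ_mem_ball huV, D.σ_im_pos huV, ?_⟩
  rw [D.full_σ e huV]
  exact huv

/-- the special point -/
noncomputable def up : ℂ := D.w + ((D.R / 100 - D.ε : ℝ) : ℂ) * D.μ
noncomputable def sp : ℂ := D.σ D.up

theorem norm_up_sub_c : ‖D.up - D.c‖ = 99 / 100 * D.R := by
  have e : D.up - D.c = ((-(99 / 100 * D.R) : ℝ) : ℂ) * D.μ := by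
    unfold up c; push_cast; ring
  rw [e, norm_mul, D.hμ, mul_one, norm_real, norm_neg,
    Real.norm_of_nonneg (by linarith [D.R_pos])]

theorem up_mem : D.up ∈ D.V := by
  refine ⟨?_, ?_⟩
  · rw [D.sheet_eq, mem_ball, dist_eq_norm, D.norm_up_sub_c]
    linarith [D.R_pos]
  · rw [mem_ball, dist_eq_norm]
    have e : D.up - D.w = ((D.R / 100 - D.ε : ℝ) : ℂ) * D.μ := by
      unfold up; ring
    rw [e, norm_mul, D.hμ, mul_one, norm_real, Real.norm_of_nonneg (by linarith [D.hR, D.hε1])]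
    linarith [D.hR, D.hε]

theorem sp_mem : D.sp ∈ ball (D.ξ : ℂ) D.ρ := D.σ_mem_ball D.up_mem

theorem sp_im_pos : 0 < D.sp.im := D.σ_im_pos D.up_mem

theorem sp_im_ge : D.d / 400 ≤ D.sp.im := by
  have h1 := D.σ_im (D.sub_ne D.up_mem)
  rw [D.norm_up_sub_c] at h1
  have h2 : ‖D.up - D.u₀‖ ≤ 2 * D.R := by
    have e : D.up - D.u₀ = (D.up - D.c) + (D.c - D.u₀) := by ring
    rw [e]
    refine (norm_add_le _ _).trans ?_
    rw [D.norm_up_sub_c, D.norm_c_sub_u₀]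
    linarith [D.R_pos]
  have h3 : ‖D.up - D.u₀‖ ^ 2 ≤ 4 * D.R ^ 2 := by
    have := pow_le_pow_left₀ (norm_nonneg _) h2 2
    nlinarith
  have h4 := D.sp_im_pos
  have h5 : (D.σ D.up).im * ‖D.up - D.u₀‖ ^ 2 ≤ (D.σ D.up).im * (4 * D.R ^ 2) :=
    mul_le_mul_of_nonneg_left h3 h4.le
  have hR2 : 0 < D.R ^ 2 := by have := D.R_pos; positivity
  have hd := D.d_pos
  rw [h1] at h5
  change _ ≤ (D.σ D.up).im
  by_contra hcon
  rw [not_le] at hcon
  have h6 : (D.σ D.up).im * (4 * D.R ^ 2) < D.d / 400 * (4 * D.R ^ 2) :=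
    mul_lt_mul_of_pos_right hcon (by positivity)
  have h7 : D.d * (D.R ^ 2 - (99 / 100 * D.R) ^ 2) = D.d * D.R ^ 2 * (199 / 10000) := by ring
  have h8 : D.d / 400 * (4 * D.R ^ 2) = D.d * D.R ^ 2 * (1 / 100) := by ring
  have h9 : 0 < D.d * D.R ^ 2 := mul_pos hd hR2
  linarith

/-- (c) the one-sided estimate for the test piece -/
theorem one_sided {e : ℂ → ℂ} (he : DifferentiableOn ℂ e (ball (D.ξ : ℂ) D.ρ))
    (heb : ∀ s ∈ ball (D.ξ : ℂ) D.ρ, ‖e s‖ ≤ D.ε / 1000)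
    {ρ₀ δ : ℝ} (hρ₀ : 0 ≤ ρ₀) (hRρ : 1000 * (ρ₀ + 2) ≤ D.R) (hδ0 : 0 ≤ δ)
    (hδ : δ ≤ D.ε ^ 4 / D.R ^ 2) {g : ℂ → ℂ} (hg : DifferentiableOn ℂ g UH) (hgi : InjOn g UH)
    (hvol : volume (g '' (UH ∩ ball (D.ξ : ℂ) D.ρ)) ≤ ENNReal.ofReal δ) :
    volume ({v | ∃ s ∈ UH ∩ ball (D.ξ : ℂ) D.ρ, ‖D.P s + D.h + e s - D.w‖ ≤ ρ₀ ∧
        v = (D.P s + D.h + e s) + g s} ∩
      {v | (conj D.μ * (v - D.w)).re ≤ (conj D.μ * g D.sp).re - 13 / 10 * D.ε}) ≤
      ENNReal.ofReal (D.ε ^ 2 / 10) := by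
  have hR := D.R_pos
  have hmaps : MapsTo D.σ D.V (UH ∩ ball (D.ξ : ℂ) D.ρ) :=
    fun u hu => ⟨D.σ_im_pos hu, D.σ_mem_ball hu⟩
  have hσinj : InjOn D.σ D.V := by
    intro u hu u' hu' h
    rw [← D.τ_σ hu, ← D.τ_σ hu', h]
  have hG : DifferentiableOn ℂ (fun u => g (D.σ u)) D.V :=
    hg.comp (fun u hu => (D.hasDerivAt_σ hu).differentiableAt.differentiableWithinAt)
      (fun u hu => (hmaps hu).1)
  have hGi : InjOn (fun u => g (D.σ u)) D.V :=
    hgi.comp hσinj (fun u hu => (hmaps hu).1)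
  have hGvol : volume ((fun u => g (D.σ u)) '' D.V) ≤ ENNReal.ofReal δ := by
    refine (measure_mono ?_).trans hvol
    rintro _ ⟨u, hu, rfl⟩
    exact ⟨D.σ u, hmaps hu, rfl⟩
  have hE : DifferentiableOn ℂ (D.err e) D.V := fun u hu =>
    (D.hasDerivAt_err he hu).differentiableAt.differentiableWithinAt
  have key := Pool.Agent.Hhelper32.one_sided D.hμ D.hε D.hε1 (by linarith : 1 ≤ ρ₀ + 1)
    (by linarith : 1000 * (ρ₀ + 1 + 1) ≤ D.R) hδ0 hδ hG hGi hGvol hE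
    (fun u hu => D.norm_err_le heb hu) (fun u hu => D.norm_deriv_err_le he heb hu)
  refine (measure_mono ?_).trans key
  apply inter_subset_inter_left
  rintro v ⟨s, ⟨hs, hsb⟩, hsw, rfl⟩
  have hs0 : 0 < s.im := hs
  have him : 2 ≤ (D.P s + D.h + e s).im := by
    have h1 := (abs_le.mp ((abs_im_le_norm _).trans hsw)).1
    rw [sub_im, D.hwi] at h1
    linarith
  obtain ⟨h2, h3⟩ := D.high_values heb hsb hs0 him
  have h4 : D.τ s ∈ ball D.w (ρ₀ + 1) := by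
    rw [mem_ball, dist_eq_norm]
    have e1 : D.τ s - D.w = (D.P s + D.h + e s - D.w) - (D.P s + D.h + e s - D.τ s) := by ring
    rw [e1]
    refine (norm_sub_le _ _).trans_lt ?_
    linarith [D.hε1]
  have h5 : D.τ s ∈ sheet D.w D.μ D.R D.ε := by
    rw [D.sheet_eq, mem_ball, dist_eq_norm]
    exact h2
  have h6 : D.τ s ∈ D.V := ⟨h5, ball_subset_ball (by linarith) h4⟩
  refine ⟨D.τ s, ⟨h5, h4⟩, ?_⟩
  have h7 := D.full_σ e h6
  rw [D.σ_τ hs0] at h7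
  rw [h7, D.σ_τ hs0]
  ring

end PP

end Pool.Agent.Hhelper32
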