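import Mathlib
import Pool.Agent.Hhelper32.Piece

/-! One test forces an inequality. -/

set_option autoImplicit false

namespace Pool.Agent.Hhelper32

open MeasureTheory Set Metric Complex
open scoped ENNReal NNReal Real ComplexConjugate

theorem volume_ball_real (c : ℂ) {r : ℝ} (hr : 0 ≤ r) :
    volume (ball c r) = ENNReal.ofReal (π * r ^ 2) := by
  rw [Complex.volume_ball, ← ENNReal.ofReal_pow hr]
  have : (NNReal.pi : ℝ≥0∞) = ENNReal.ofReal π := by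
    rw [← NNReal.coe_real_pi, ENNReal.ofReal_coe_nnreal]
  rw [this, ← ENNReal.ofReal_mul (by positivity)]
  congr 1
  ring

theorem block_one {D₁ D₂ : PP} {ν w : ℂ} {ε R : ℝ} (h1ε : D₁.ε = ε) (h2ε : D₂.ε = ε)
    (h1R : D₁.R = R) (h2R : D₂.R = R) (h1w : D₁.w = w) (h2w : D₂.w = w)
    (h1μ : D₁.μ = ν) (h2μ : D₂.μ = -ν)
    {f g e₁ e₂ : ℂ → ℂ}
    (he₁ : DifferentiableOn ℂ e₁ (ball (D₁.ξ : ℂ) D₁.ρ))
    (he₂ : DifferentiableOn ℂ e₂ (ball (D₂.ξ : ℂ) D₂.ρ))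
    (heb₁ : ∀ s ∈ ball (D₁.ξ : ℂ) D₁.ρ, ‖e₁ s‖ ≤ ε / 1000)
    (heb₂ : ∀ s ∈ ball (D₂.ξ : ℂ) D₂.ρ, ‖e₂ s‖ ≤ ε / 1000)
    (hf₁ : ∀ s ∈ ball (D₁.ξ : ℂ) D₁.ρ, f s = D₁.P s + D₁.h + e₁ s)
    (hf₂ : ∀ s ∈ ball (D₂.ξ : ℂ) D₂.ρ, f s = D₂.P s + D₂.h + e₂ s)
    {ρ₀ M δ : ℝ}
    (hloc : ∀ s ∈ UH, ‖f s - w‖ ≤ ρ₀ → s ∈ ball (D₁.ξ : ℂ) D₁.ρ ∨ s ∈ ball (D₂.ξ : ℂ) D₂.ρ)
    (hgM : ∀ s ∈ UH, ‖g s‖ ≤ M) (hM : 2 * M + 3 ≤ ρ₀) (hRρ : 1000 * (ρ₀ + 2) ≤ R)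
    (hsurj : ∀ v : ℂ, ∃ s ∈ UH, f s + g s = v)
    (hg : DifferentiableOn ℂ g UH) (hgi : InjOn g UH) (hδ0 : 0 ≤ δ)
    (hδ : δ ≤ ε ^ 4 / R ^ 2)
    (hv₁ : volume (g '' (UH ∩ ball (D₁.ξ : ℂ) D₁.ρ)) ≤ ENNReal.ofReal δ)
    (hv₂ : volume (g '' (UH ∩ ball (D₂.ξ : ℂ) D₂.ρ)) ≤ ENNReal.ofReal δ) :
    (conj ν * (g D₁.sp - g D₂.sp)).re < 4 * ε := by
  have hε : 0 < ε := h1ε ▸ D₁.hε
  have hε1 : ε ≤ 1 := h1ε ▸ D₁.hε1
  have hν : ‖ν‖ = 1 := h1μ ▸ D₁.hμ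
  have hM0 : 0 ≤ M := (norm_nonneg _).trans (hgM D₁.sp D₁.sp_im_pos)
  by_contra hcon
  rw [not_lt] at hcon
  set B := ball (w + g D₂.sp + ((19 / 10 * ε : ℝ) : ℂ) * ν) (ε / 2) with hB
  have k1 := D₁.one_sided he₁ (h1ε ▸ heb₁) (by linarith : 0 ≤ ρ₀) (h1R ▸ hRρ) hδ0
    (by rw [h1ε, h1R]; exact hδ) hg hgi hv₁
  have k2 := D₂.one_sided he₂ (h2ε ▸ heb₂) (by linarith : 0 ≤ ρ₀) (h2R ▸ hRρ) hδ0
    (by rw [h2ε, h2R]; exact hδ) hg hgi hv₂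
  rw [h1w, h1μ, h1ε] at k1
  rw [h2w, h2μ, h2ε] at k2
  set S₁ := ({v | ∃ s ∈ UH ∩ ball (D₁.ξ : ℂ) D₁.ρ, ‖D₁.P s + D₁.h + e₁ s - w‖ ≤ ρ₀ ∧
        v = (D₁.P s + D₁.h + e₁ s) + g s} ∩
      {v | (conj ν * (v - w)).re ≤ (conj ν * g D₁.sp).re - 13 / 10 * ε}) with hS₁
  set S₂ := ({v | ∃ s ∈ UH ∩ ball (D₂.ξ : ℂ) D₂.ρ, ‖D₂.P s + D₂.h + e₂ s - w‖ ≤ ρ₀ ∧
        v = (D₂.P s + D₂.h + e₂ s) + g s} ∩
      {v | (conj (-ν) * (v - w)).re ≤ (conj (-ν) * g D₂.sp).re - 13 / 10 * ε}) with hS₂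
  have hsub : B ⊆ S₁ ∪ S₂ := by
    intro v hv
    rw [hB, mem_ball, dist_eq_norm] at hv
    set q := v - (w + g D₂.sp + ((19 / 10 * ε : ℝ) : ℂ) * ν) with hq
    have hvq : v - w = g D₂.sp + ((19 / 10 * ε : ℝ) : ℂ) * ν + q := by rw [hq]; ring
    have hvw : ‖v - w‖ ≤ M + 3 := by
      rw [hvq]
      have h1 : ‖((19 / 10 * ε : ℝ) : ℂ) * ν‖ = 19 / 10 * ε := by
        rw [norm_mul, hν, mul_one, norm_real, Real.norm_of_nonneg (by positivity)]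
      have h2 := hgM D₂.sp D₂.sp_im_pos
      calc ‖g D₂.sp + ((19 / 10 * ε : ℝ) : ℂ) * ν + q‖
          ≤ ‖g D₂.sp‖ + ‖((19 / 10 * ε : ℝ) : ℂ) * ν‖ + ‖q‖ := norm_add₃_le
        _ ≤ M + 3 := by rw [h1]; linarith
    have hre : (conj ν * (v - w)).re = (conj ν * g D₂.sp).re + 19 / 10 * ε + (conj ν * q).re := by
      rw [hvq]
      have h3 : conj ν * ν = 1 := by
        rw [mul_comm, Complex.mul_conj, Complex.normSq_eq_norm_sq, hν]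
        simp
      have : conj ν * (g D₂.sp + ((19 / 10 * ε : ℝ) : ℂ) * ν + q) =
          conj ν * g D₂.sp + ((19 / 10 * ε : ℝ) : ℂ) + conj ν * q := by
        linear_combination (((19 / 10 * ε : ℝ) : ℂ)) * h3
      rw [this, add_re, add_re, ofReal_re]
    have hqb := abs_le.mp ((abs_re_conj_mul_le q hν).trans hv.le)
    have hcon' : 4 * ε ≤ (conj ν * g D₁.sp).re - (conj ν * g D₂.sp).re := by
      rw [mul_sub, sub_re] at hcon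
      exact hcon
    obtain ⟨s, hs, hsv⟩ := hsurj v
    have hfw : ‖f s - w‖ ≤ ρ₀ := by
      have e : f s - w = (v - w) - g s := by rw [← hsv]; ring
      rw [e]
      refine (norm_sub_le _ _).trans ?_
      have := hgM s hs
      linarith
    rcases hloc s hs hfw with h | h
    · left
      refine ⟨⟨s, ⟨hs, h⟩, ?_, ?_⟩, ?_⟩
      · rw [← hf₁ s h]; exact hfw
      · rw [← hf₁ s h]; exact hsv.symm
      · change (conj ν * (v - w)).re ≤ (conj ν * g D₁.sp).re - 13 / 10 * ε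
        rw [hre]
        linarith [hqb.2]
    · right
      refine ⟨⟨s, ⟨hs, h⟩, ?_, ?_⟩, ?_⟩
      · rw [← hf₂ s h]; exact hfw
      · rw [← hf₂ s h]; exact hsv.symm
      · change (conj (-ν) * (v - w)).re ≤ (conj (-ν) * g D₂.sp).re - 13 / 10 * ε
        rw [map_neg, neg_mul, neg_mul, neg_re, neg_re, hre]
        linarith [hqb.1]
  have hvol : volume B ≤ ENNReal.ofReal (ε ^ 2 / 10) + ENNReal.ofReal (ε ^ 2 / 10) :=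
    (measure_mono hsub).trans ((measure_union_le _ _).trans (add_le_add k1 k2))
  rw [hB, volume_ball_real _ (by positivity), ← ENNReal.ofReal_add (by positivity) (by positivity),
    ENNReal.ofReal_le_ofReal_iff (by positivity)] at hvol
  have hpi := Real.pi_gt_three
  nlinarith [sq_nonneg ε, pow_pos hε 2]

end Pool.Agent.Hhelper32
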