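import Mathlib

/-! Parameters. -/

set_option autoImplicit false

namespace Pool.Agent.Hhelper32

open Set
open scoped Real

noncomputable def εk (k : ℕ) : ℝ := 1 / 20 * (1 / 2) ^ (k * (1232 * 2 ^ k))
noncomputable def Rk (k : ℕ) : ℝ := 1000 * (2 * k + 20) ^ 2 / εk k
noncomputable def tolk (k : ℕ) : ℝ := εk k / 1000
noncomputable def ηk (k : ℕ) : ℝ := tolk k * (1 / 2) ^ (k + 2)
noncomputable def αk (k : ℕ) : ℝ := (1 / 2) ^ (k + 3)
noncomputable def pk (k : ℕ) : ℝ := 1 + (1 / 2) ^ (k + 1)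
noncomputable def gapk (k : ℕ) : ℝ := (1 / 2) ^ (k + 4)
noncomputable def ωf (k N : ℕ) : ℝ := αk k / N
noncomputable def ρf (k N : ℕ) : ℝ := ωf k N / 64
noncomputable def η'f (k N : ℕ) : ℝ := ηk k / (7 * N)
noncomputable def bf (k N : ℕ) : ℝ := η'f k N * ρf k N / 2
noncomputable def Af (k : ℕ) (X : ℝ) (N : ℕ) : ℝ := X + 33 * Rk k * N
noncomputable def df (k : ℕ) (X : ℝ) (N : ℕ) : ℝ :=
  εk k * (bf k N) ^ 2 / (1000000 * Rk k * (Af k X N) ^ 2)
noncomputable def Λf (k : ℕ) (X : ℝ) (N : ℕ) : ℝ := 38 + Real.log (50 * ωf k N / df k X N)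
noncomputable def δf (k : ℕ) (X : ℝ) (N : ℕ) : ℝ :=
  min (εk k ^ 4 / Rk k ^ 2) (εk k ^ 2 / (100 * (Λf k X N) ^ 2))

def Good (k : ℕ) (X : ℝ) (N : ℕ) : Prop :=
  1 ≤ N ∧ 2 * π * ((k : ℝ) + 1) ^ 2 ≤ N * δf k X N ∧ ρf k N ≤ tolk k * gapk k

theorem εk_pos (k : ℕ) : 0 < εk k := by unfold εk; positivity

theorem εk_le (k : ℕ) : εk k ≤ 1 / 20 := by
  unfold εk
  apply mul_le_of_le_one_right (by norm_num)
  exact pow_le_one₀ (by norm_num) (by norm_num)

theorem εk_anti : Antitone εk := by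
  intro j k hjk
  unfold εk
  apply mul_le_mul_of_nonneg_left _ (by norm_num)
  apply pow_le_pow_of_le_one (by norm_num) (by norm_num)
  have : 2 ^ j ≤ 2 ^ k := Nat.pow_le_pow_right (by norm_num) hjk
  gcongr

theorem Rk_mul (k : ℕ) : Rk k * εk k = 1000 * (2 * k + 20) ^ 2 := by
  unfold Rk
  have := (εk_pos k).ne'
  field_simp

theorem Rk_ge (k : ℕ) : 20000 * (2 * k + 20) ^ 2 ≤ Rk k := by
  unfold Rk
  rw [le_div_iff₀ (εk_pos k)]
  have := εk_le k
  have h2 : 0 ≤ 20000 * (2 * (k:ℝ) + 20) ^ 2 := by positivity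
  nlinarith

theorem Rk_ge' (k : ℕ) : 8000000 ≤ Rk k := by
  refine le_trans ?_ (Rk_ge k)
  have : (0:ℝ) ≤ k := Nat.cast_nonneg k
  nlinarith

theorem Rk_ge_t (k : ℕ) : 20000 * (2 * (k:ℝ) + 20) ≤ Rk k := by
  refine le_trans ?_ (Rk_ge k)
  have : (0:ℝ) ≤ k := Nat.cast_nonneg k
  nlinarith

theorem Rk_pos (k : ℕ) : 0 < Rk k := by linarith [Rk_ge' k]

theorem Rk_mono : Monotone Rk := by
  intro j k hjk
  unfold Rk
  have h1 := εk_anti hjk
  have h2 := εk_pos k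
  have h3 : (j:ℝ) ≤ k := by exact_mod_cast hjk
  gcongr

theorem tolk_pos (k : ℕ) : 0 < tolk k := by unfold tolk; have := εk_pos k; positivity

theorem tolk_anti : Antitone tolk := by
  intro j k hjk
  unfold tolk
  have := εk_anti hjk
  gcongr

theorem tolk_le (k : ℕ) : tolk k ≤ 1 / 20000 := by
  unfold tolk; linarith [εk_le k]

theorem ηk_pos (k : ℕ) : 0 < ηk k := by unfold ηk; have := tolk_pos k; positivity

theorem ηk_le (k : ℕ) : ηk k ≤ 1 := by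
  unfold ηk
  have h1 := tolk_le k
  have h2 := tolk_pos k
  have h3 : (1 / 2 : ℝ) ^ (k + 2) ≤ 1 := pow_le_one₀ (by norm_num) (by norm_num)
  have h4 : (0:ℝ) ≤ (1 / 2 : ℝ) ^ (k + 2) := by positivity
  nlinarith

theorem αk_pos (k : ℕ) : 0 < αk k := by unfold αk; positivity

theorem αk_le (k : ℕ) : αk k ≤ 1 / 8 := by
  unfold αk
  have : (1 / 2 : ℝ) ^ (k + 3) = (1 / 2) ^ k * (1 / 8) := by ring
  rw [this]
  apply mul_le_of_le_one_left (by norm_num)
  exact pow_le_one₀ (by norm_num) (by norm_num)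

theorem gapk_pos (k : ℕ) : 0 < gapk k := by unfold gapk; positivity

section

variable {k N : ℕ} {X : ℝ}

theorem ωf_pos (hN : 1 ≤ N) : 0 < ωf k N := by
  unfold ωf
  have := αk_pos k
  have : (0:ℝ) < N := by exact_mod_cast hN
  positivity

theorem ωf_le (hN : 1 ≤ N) : ωf k N ≤ 1 / 8 := by
  unfold ωf
  have h1 : (1:ℝ) ≤ N := by exact_mod_cast hN
  exact (div_le_self (αk_pos k).le h1).trans (αk_le k)

theorem N_mul_ωf (hN : 1 ≤ N) : N * ωf k N = αk k := by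
  unfold ωf
  have : (0:ℝ) < N := by exact_mod_cast hN
  field_simp

theorem ρf_pos (hN : 1 ≤ N) : 0 < ρf k N := by
  unfold ρf; have := ωf_pos (k := k) hN; positivity

theorem η'f_pos (hN : 1 ≤ N) : 0 < η'f k N := by
  unfold η'f
  have := ηk_pos k
  have : (0:ℝ) < N := by exact_mod_cast hN
  positivity

theorem η'f_le (hN : 1 ≤ N) : η'f k N ≤ 1 := by
  unfold η'f
  have h1 : (1:ℝ) ≤ N := by exact_mod_cast hN
  exact (div_le_self (ηk_pos k).le (by linarith)).trans (ηk_le k)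

theorem bf_pos (hN : 1 ≤ N) : 0 < bf k N := by
  unfold bf; have := η'f_pos (k := k) hN; have := ρf_pos (k := k) hN; positivity

theorem Af_ge (hN : 1 ≤ N) (hX : 0 ≤ X) : 1 ≤ Af k X N := by
  unfold Af
  have h1 : (1:ℝ) ≤ N := by exact_mod_cast hN
  have h2 := Rk_ge' k
  nlinarith

theorem df_pos (hN : 1 ≤ N) (hX : 0 ≤ X) : 0 < df k X N := by
  unfold df
  have := Af_ge (k := k) hN hX
  have := bf_pos (k := k) hN
  have := εk_pos k
  have := Rk_pos k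
  positivity

theorem bf_le (hN : 1 ≤ N) : bf k N ≤ ωf k N := by
  unfold bf ρf
  have h1 := η'f_pos (k := k) hN
  have h2 := η'f_le (k := k) hN
  have h3 := ωf_pos (k := k) hN
  nlinarith

theorem df_le (hN : 1 ≤ N) (hX : 0 ≤ X) : df k X N ≤ 50 * ωf k N := by
  unfold df
  have h1 := Af_ge (k := k) hN hX
  have h2 := bf_pos (k := k) hN
  have h3 := bf_le (k := k) hN
  have h4 := ωf_le (k := k) hN
  have h5 := εk_pos k
  have h6 := εk_le k
  have h7 := Rk_ge' k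
  rw [div_le_iff₀ (by positivity)]
  have h8 : 1 ≤ 1000000 * Rk k * (Af k X N) ^ 2 := by
    have : 1 ≤ (Af k X N) ^ 2 := by nlinarith
    nlinarith
  have h9 : εk k * (bf k N) ^ 2 ≤ 50 * ωf k N := by
    have : (bf k N) ^ 2 ≤ ωf k N := by nlinarith
    nlinarith
  have h10 : 0 ≤ 50 * ωf k N := by linarith
  nlinarith

theorem Λf_ge (hN : 1 ≤ N) (hX : 0 ≤ X) : 38 ≤ Λf k X N := by
  unfold Λf
  have h1 := df_pos (k := k) hN hX
  have : 0 ≤ Real.log (50 * ωf k N / df k X N) := by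
    apply Real.log_nonneg
    rw [le_div_iff₀ h1, one_mul]
    exact df_le hN hX
  linarith

/-- the constant -/
noncomputable def C₂ (k : ℕ) (X : ℝ) : ℝ :=
  50 * 1000000 * 896 ^ 2 * Rk k * (X + 33 * Rk k) ^ 2 / (εk k * ηk k ^ 2 * αk k)

theorem C₂_pos (hX : 0 ≤ X) : 0 < C₂ k X := by
  unfold C₂
  have := Rk_pos k; have := εk_pos k; have := ηk_pos k; have := αk_pos k
  positivity

theorem ratio_le (hN : 1 ≤ N) (hX : 0 ≤ X) : 50 * ωf k N / df k X N ≤ C₂ k X * (N:ℝ) ^ 5 := by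
  have hN1 : (1:ℝ) ≤ N := by exact_mod_cast hN
  have hN0 : (0:ℝ) < N := by linarith
  have h1 := Rk_pos k; have h2 := εk_pos k; have h3 := ηk_pos k; have h4 := αk_pos k
  have hA : Af k X N ≤ (X + 33 * Rk k) * N := by
    unfold Af
    nlinarith
  have hA0 := Af_ge (k := k) hN hX
  have e : 50 * ωf k N / df k X N =
      50 * 1000000 * 896 ^ 2 * Rk k * (Af k X N) ^ 2 * N ^ 3 / (εk k * ηk k ^ 2 * αk k) := by
    unfold df bf ρf η'f ωf
    field_simp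
    ring
  rw [e]
  unfold C₂
  rw [div_mul_eq_mul_div]
  apply div_le_div_of_nonneg_right _ (by positivity)
  calc 50 * 1000000 * 896 ^ 2 * Rk k * (Af k X N) ^ 2 * N ^ 3
      ≤ 50 * 1000000 * 896 ^ 2 * Rk k * ((X + 33 * Rk k) * N) ^ 2 * N ^ 3 := by gcongr
    _ = 50 * 1000000 * 896 ^ 2 * Rk k * (X + 33 * Rk k) ^ 2 * N ^ 5 := by ring

theorem Λf_le {m : ℕ} (hm : 1 ≤ m) (hX : 0 ≤ X) :
    Λf k X (m ^ 4) ≤ (58 + C₂ k X) * m := by
  have hN : 1 ≤ m ^ 4 := Nat.one_le_pow _ _ hm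
  have hm1 : (1:ℝ) ≤ m := by exact_mod_cast hm
  have hC := C₂_pos (k := k) hX
  have hd := df_pos (k := k) hN hX
  have hω := ωf_pos (k := k) hN
  unfold Λf
  have h1 : Real.log (50 * ωf k (m ^ 4) / df k X (m ^ 4)) ≤ Real.log (C₂ k X * ((m:ℝ) ^ 20)) := by
    apply Real.log_le_log (by positivity)
    have := ratio_le (k := k) hN hX
    refine this.trans (le_of_eq ?_)
    push_cast
    ring
  have h2 : Real.log (C₂ k X * ((m:ℝ) ^ 20)) = Real.log (C₂ k X) + 20 * Real.log m := by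
    rw [Real.log_mul hC.ne' (by positivity), Real.log_pow]
    norm_num
  have h3 : Real.log (C₂ k X) ≤ C₂ k X := Real.log_le_self hC.le
  have h4 : Real.log m ≤ m := Real.log_le_self (by linarith)
  nlinarith

theorem exists_good (k : ℕ) {X : ℝ} (hX : 0 ≤ X) : ∃ N, Good k X N := by
  have h1 := Rk_pos k; have h2 := εk_pos k; have h3 := ηk_pos k; have h4 := αk_pos k
  have h5 := tolk_pos k; have h6 := gapk_pos k
  have hC := C₂_pos (k := k) hX
  have hpi := Real.pi_pos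
  set Q₁ : ℝ := 200 * π * ((k:ℝ) + 1) ^ 2 * (58 + C₂ k X) ^ 2 / εk k ^ 2 with hQ₁
  set Q₂ : ℝ := 2 * π * ((k:ℝ) + 1) ^ 2 * Rk k ^ 2 / εk k ^ 4 with hQ₂
  set Q₃ : ℝ := αk k / (tolk k * gapk k) with hQ₃
  have hQ₁0 : 0 ≤ Q₁ := by positivity
  have hQ₂0 : 0 ≤ Q₂ := by positivity
  have hQ₃0 : 0 ≤ Q₃ := by positivity
  obtain ⟨m, hm⟩ := exists_nat_ge (1 + Q₁ + Q₂ + Q₃)
  have hm1 : (1:ℝ) ≤ m := by linarith
  have hm1' : 1 ≤ m := by exact_mod_cast hm1
  have hN : 1 ≤ m ^ 4 := Nat.one_le_pow _ _ hm1'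
  have hm4 : (m:ℝ) ≤ (m:ℝ) ^ 4 := le_self_pow₀ hm1 (by norm_num)
  have hm2 : (m:ℝ) ≤ (m:ℝ) ^ 2 := le_self_pow₀ hm1 (by norm_num)
  refine ⟨m ^ 4, hN, ?_, ?_⟩
  · have hΛ := Λf_ge (k := k) hN hX
    have hΛ' := Λf_le (k := k) hm1' hX
    unfold δf
    rw [mul_min_of_nonneg _ _ (by positivity), le_min_iff]
    constructor
    · rw [mul_div_assoc', le_div_iff₀ (by positivity)]
      have : Q₂ * εk k ^ 4 = 2 * π * ((k:ℝ) + 1) ^ 2 * Rk k ^ 2 := by
        rw [hQ₂]; field_simp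
      rw [← this]
      apply mul_le_mul_of_nonneg_right _ (by positivity)
      push_cast
      linarith
    · rw [mul_div_assoc', le_div_iff₀ (by positivity)]
      have h7 : (Λf k X (m ^ 4)) ^ 2 ≤ ((58 + C₂ k X) * m) ^ 2 :=
        pow_le_pow_left₀ (by linarith) hΛ' 2
      have h8 : Q₁ * εk k ^ 2 = 200 * π * ((k:ℝ) + 1) ^ 2 * (58 + C₂ k X) ^ 2 := by
        rw [hQ₁]; field_simp
      calc 2 * π * ((k:ℝ) + 1) ^ 2 * (100 * Λf k X (m ^ 4) ^ 2)
          ≤ 2 * π * ((k:ℝ) + 1) ^ 2 * (100 * ((58 + C₂ k X) * m) ^ 2) := by gcongr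
        _ = 200 * π * ((k:ℝ) + 1) ^ 2 * (58 + C₂ k X) ^ 2 * m ^ 2 := by ring
        _ = Q₁ * εk k ^ 2 * m ^ 2 := by rw [h8]
        _ ≤ (m:ℝ) ^ 2 * εk k ^ 2 * m ^ 2 := by
            gcongr
            linarith
        _ = ((m ^ 4 : ℕ) : ℝ) * εk k ^ 2 := by push_cast; ring
  · unfold ρf ωf
    have h9 : αk k = Q₃ * (tolk k * gapk k) := by rw [hQ₃]; field_simp
    rw [div_div, div_le_iff₀ (by positivity), h9, mul_comm Q₃]
    apply mul_le_mul_of_nonneg_left _ (by positivity)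
    push_cast
    linarith

end

/-- chosen number of cells -/
noncomputable def Nf (k : ℕ) (X : ℝ) : ℕ := if h : 0 ≤ X then (exists_good k h).choose else 1

theorem Nf_good {k : ℕ} {X : ℝ} (hX : 0 ≤ X) : Good k X (Nf k X) := by
  unfold Nf
  rw [dif_pos hX]
  exact (exists_good k hX).choose_spec

/-- horizontal positions -/
noncomputable def Xs : ℕ → ℝ
  | 0 => 0
  | k + 1 => Xs k + 30 * Rk k * Nf k (Xs k)

noncomputable def Ns (k : ℕ) : ℕ := Nf k (Xs k)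

theorem Xs_succ (k : ℕ) : Xs (k + 1) = Xs k + 30 * Rk k * Ns k := rfl

theorem Xs_nonneg (k : ℕ) : 0 ≤ Xs k := by
  induction k with
  | zero => exact le_rfl
  | succ n ih =>
    rw [Xs_succ]
    have := Rk_pos n
    positivity

theorem Xs_mono : Monotone Xs := by
  apply monotone_nat_of_le_succ
  intro n
  rw [Xs_succ]
  have := Rk_pos n
  have : 0 ≤ 30 * Rk n * Ns n := by positivity
  linarith

theorem Ns_good (k : ℕ) : Good k (Xs k) (Ns k) := Nf_good (Xs_nonneg k)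

theorem Ns_ge (k : ℕ) : 1 ≤ Ns k := (Ns_good k).1

end Pool.Agent.Hhelper32
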