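import Mathlib
import Pool.Agent.Hhelper32.Cover

/-! The tube piece. -/

set_option autoImplicit false

namespace Pool.Agent.Hhelper32

open Set Metric Complex
open scoped Real

noncomputable def Lf (δ d : ℝ) (z : ℂ) : ℂ := Complex.log (1 + δ / (z + d))

theorem add_ne_zero_of_re {d : ℝ} (hd : 0 < d) {z : ℂ} (hz : 0 < z.re) : z + d ≠ 0 := by
  intro h
  have := congrArg Complex.re h
  simp at this
  linarith

theorem re_div_pos {δ d : ℝ} (hδ : 0 < δ) (hd : 0 < d) {z : ℂ} (hz : 0 < z.re) :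
    0 < ((δ : ℂ) / (z + d)).re := by
  have hne := add_ne_zero_of_re hd hz
  rw [Complex.div_re]
  simp only [ofReal_im, zero_mul, zero_div, ofReal_re, add_re, add_zero]
  have h1 : 0 < normSq (z + d) := normSq_pos.mpr hne
  have h2 : 0 < z.re + d := by linarith
  positivity

theorem Lf_slit {δ d : ℝ} (hδ : 0 < δ) (hd : 0 < d) {z : ℂ} (hz : 0 < z.re) :
    1 + (δ : ℂ) / (z + d) ∈ slitPlane := by
  rw [mem_slitPlane_iff]
  left
  rw [add_re, one_re]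
  linarith [re_div_pos hδ hd hz]

theorem norm_add_ge {d : ℝ} (_hd : 0 < d) {z : ℂ} (hz : 0 < z.re) : d ≤ ‖z + d‖ := by
  refine le_trans ?_ (abs_re_le_norm _)
  rw [add_re, ofReal_re]
  refine le_trans ?_ (le_abs_self _)
  linarith

theorem Lf_bounds {δ d : ℝ} (hδ : 0 < δ) (hd : 0 < d) {z : ℂ} (hz : 0 < z.re) :
    0 ≤ (Lf δ d z).re ∧ (Lf δ d z).re ≤ Real.log (1 + δ / d) ∧ |(Lf δ d z).im| ≤ π / 2 := by
  have h1 := re_div_pos hδ hd hz
  have h2 : 1 ≤ ‖1 + (δ : ℂ) / (z + d)‖ := by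
    refine le_trans ?_ (abs_re_le_norm _)
    rw [add_re, one_re]
    refine le_trans ?_ (le_abs_self _)
    linarith
  unfold Lf
  refine ⟨?_, ?_, ?_⟩
  · rw [Complex.log_re]
    exact Real.log_nonneg h2
  · rw [Complex.log_re]
    apply Real.log_le_log (by linarith)
    refine (norm_add_le _ _).trans ?_
    rw [norm_one, norm_div, norm_real, Real.norm_of_nonneg hδ.le]
    have := norm_add_ge hd hz
    gcongr
  · rw [Complex.log_im, abs_arg_le_pi_div_two_iff, add_re, one_re]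
    linarith

theorem Lf_small {δ d : ℝ} {z : ℂ} (h : ‖(δ : ℂ) / (z + d)‖ ≤ 1 / 2) :
    ‖Lf δ d z‖ ≤ 3 / 2 * ‖(δ : ℂ) / (z + d)‖ :=
  Complex.norm_log_one_add_half_le_self h

theorem Lf_near {δ d θ : ℝ} (hδ : 0 < δ) (hd : 0 < d) {z : ℂ} (hθ : θ ≤ 1 / 2) (hz : 0 < z.re)
    (hzθ : ‖z‖ ≤ θ * d) : ‖Lf δ d z - Real.log (1 + δ / d)‖ ≤ 3 * θ := by
  have hdc : (d : ℂ) ≠ 0 := by exact_mod_cast hd.ne'
  have hdδ : (d : ℂ) + δ ≠ 0 := by exact_mod_cast (by positivity : d + δ ≠ 0)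
  have hne := add_ne_zero_of_re hd hz
  have h1 : ‖z / (d + δ)‖ ≤ θ := by
    have e : (d : ℂ) + δ = ((d + δ : ℝ) : ℂ) := by push_cast; ring
    rw [e, norm_div, norm_real, Real.norm_of_nonneg (by positivity), div_le_iff₀ (by positivity)]
    have h0 : 0 ≤ θ := by
      by_contra hcon
      rw [not_le] at hcon
      have := norm_nonneg z
      nlinarith
    nlinarith
  have h2 : ‖z / d‖ ≤ θ := by
    rw [norm_div, norm_real, Real.norm_of_nonneg hd.le, div_le_iff₀ hd]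
    exact hzθ
  have h3 := Complex.norm_log_one_add_half_le_self (h1.trans hθ)
  have h4 := Complex.norm_log_one_add_half_le_self (h2.trans hθ)
  set A : ℂ := Real.log (1 + δ / d) + Complex.log (1 + z / (d + δ)) - Complex.log (1 + z / d)
    with hA
  have hne1 : (1 : ℂ) + z / (d + δ) ≠ 0 := by
    intro h
    have h5 : z / (d + δ) = -1 := by linear_combination h
    rw [h5, norm_neg, norm_one] at h1
    linarith
  have hne2 : (1 : ℂ) + z / d ≠ 0 := by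
    intro h
    have h5 : z / d = -1 := by linear_combination h
    rw [h5, norm_neg, norm_one] at h2
    linarith
  have hexp : Complex.exp A = 1 + δ / (z + d) := by
    rw [hA, Complex.exp_sub, Complex.exp_add, Complex.exp_log hne1, Complex.exp_log hne2,
      ← Complex.ofReal_exp, Real.exp_log (by positivity)]
    push_cast
    have : (1 + z / (d:ℂ)) = (z + d) / d := by field_simp; ring
    rw [this]
    field_simp
    ring
  have him : |A.im| ≤ 3 / 2 := by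
    have e : A.im = (Complex.log (1 + z / (d + δ)) - Complex.log (1 + z / d)).im := by
      rw [hA]
      simp only [add_im, sub_im, ofReal_im]
      ring
    rw [e]
    refine (abs_im_le_norm _).trans ((norm_sub_le _ _).trans ?_)
    linarith
  have hpi := Real.pi_gt_three
  have h5 : Lf δ d z = A := by
    unfold Lf
    rw [← hexp]
    rw [abs_le] at him
    exact Complex.log_exp (by linarith) (by linarith)
  rw [h5, hA]
  have e : (Real.log (1 + δ / d) : ℂ) + Complex.log (1 + z / (d + δ)) - Complex.log (1 + z / d) -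
      Real.log (1 + δ / d) = Complex.log (1 + z / (d + δ)) - Complex.log (1 + z / d) := by ring
  rw [e]
  refine (norm_sub_le _ _).trans ?_
  linarith

/-- tube data -/
structure TD where
  x : ℝ
  ρ : ℝ
  η : ℝ
  l₁ : ℝ
  l₂ : ℝ
  e₁ : ℂ
  e₂ : ℂ
  hρ : 0 < ρ
  hη : 0 < η
  hη1 : η ≤ 1
  hl₁ : 1 ≤ l₁
  hl₂ : 1 ≤ l₂
  he₁ : ‖e₁‖ = 1
  he₂ : ‖e₂‖ = 1

namespace TD

variable (D : TD)

noncomputable def δ₁ : ℝ := D.ρ * D.η / 10
noncomputable def d₁ : ℝ := D.δ₁ / (Real.exp (8 * D.l₁) - 1)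
noncomputable def δ₂ : ℝ := D.d₁ / 1000000
noncomputable def d₂ : ℝ := D.δ₂ / (Real.exp (8 * D.l₂ + 4) - 1)
noncomputable def zz (s : ℂ) : ℂ := -I * (s - D.x)
noncomputable def Φ (s : ℂ) : ℂ :=
  D.e₁ * (1 / 8 * Lf D.δ₁ D.d₁ (D.zz s)) + D.e₂ * (1 / 8 * Lf D.δ₂ D.d₂ (D.zz s))

theorem zz_re (s : ℂ) : (D.zz s).re = s.im := by
  unfold zz; simp

theorem norm_zz (s : ℂ) : ‖D.zz s‖ = ‖s - D.x‖ := by
  unfold zz; rw [norm_mul, norm_neg, norm_I, one_mul]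

theorem δ₁_pos : 0 < D.δ₁ := by
  unfold δ₁; have := D.hρ; have := D.hη; positivity

theorem exp_ge {l : ℝ} (hl : 1 ≤ l) : 256 ≤ Real.exp (8 * l) := by
  have h1 : Real.exp 8 ≤ Real.exp (8 * l) := Real.exp_le_exp.mpr (by linarith)
  have h2 : Real.exp 8 = Real.exp 1 ^ 8 := by
    rw [← Real.exp_nat_mul]; norm_num
  have h3 : (2 : ℝ) ^ 8 ≤ Real.exp 1 ^ 8 :=
    pow_le_pow_left₀ (by norm_num) (by linarith [Real.exp_one_gt_d9]) 8
  norm_num at h3
  linarith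

theorem exp4 : 16 ≤ Real.exp 4 := by
  have h2 : Real.exp 4 = Real.exp 1 ^ 4 := by
    rw [← Real.exp_nat_mul]; norm_num
  have h3 : (2 : ℝ) ^ 4 ≤ Real.exp 1 ^ 4 :=
    pow_le_pow_left₀ (by norm_num) (by linarith [Real.exp_one_gt_d9]) 4
  norm_num at h3
  linarith

theorem d₁_pos : 0 < D.d₁ := by
  unfold d₁
  have := exp_ge D.hl₁
  exact div_pos D.δ₁_pos (by linarith)

theorem δ₂_pos : 0 < D.δ₂ := by
  unfold δ₂; have := D.d₁_pos; positivity

theorem exp2_ge : 16 * Real.exp (8 * D.l₂) ≤ Real.exp (8 * D.l₂ + 4) := by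
  rw [Real.exp_add, mul_comm]
  exact mul_le_mul_of_nonneg_left exp4 (Real.exp_pos _).le

theorem d₂_pos : 0 < D.d₂ := by
  unfold d₂
  have := exp_ge D.hl₂
  have := D.exp2_ge
  exact div_pos D.δ₂_pos (by linarith)

theorem d₁_le : D.d₁ ≤ D.δ₁ := by
  unfold d₁
  have := exp_ge D.hl₁
  exact div_le_self D.δ₁_pos.le (by linarith)

theorem d₂_le : D.d₂ ≤ D.δ₂ := by
  unfold d₂
  have := exp_ge D.hl₂
  have := D.exp2_ge
  exact div_le_self D.δ₂_pos.le (by linarith)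

theorem δ₂_le : D.δ₂ ≤ D.δ₁ := by
  have h1 := D.d₁_le
  have h2 := D.d₁_pos
  unfold δ₂
  linarith

theorem δ₁_le : D.δ₁ ≤ D.ρ / 10 := by
  unfold δ₁
  have := D.hρ
  nlinarith [D.hη1]

theorem log₁ : Real.log (1 + D.δ₁ / D.d₁) = 8 * D.l₁ := by
  have h1 : D.δ₁ / D.d₁ = Real.exp (8 * D.l₁) - 1 := by
    unfold d₁
    rw [div_div_cancel₀ D.δ₁_pos.ne']
  rw [h1, add_sub_cancel, Real.log_exp]

theorem log₂ : Real.log (1 + D.δ₂ / D.d₂) = 8 * D.l₂ + 4 := by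
  have h1 : D.δ₂ / D.d₂ = Real.exp (8 * D.l₂ + 4) - 1 := by
    unfold d₂
    rw [div_div_cancel₀ D.δ₂_pos.ne']
  rw [h1, add_sub_cancel, Real.log_exp]

/-- far estimate -/
theorem ratio_far {δ d t : ℝ} (hδ : 0 < δ) (hd : 0 < d) (hdδ : d ≤ δ) {z : ℂ} (ht : 2 ≤ t)
    (hz : t * δ ≤ ‖z‖) : ‖(δ : ℂ) / (z + d)‖ ≤ 1 / (t - 1) := by
  have h1 : (t - 1) * δ ≤ ‖z + d‖ := by
    have h2 : ‖z‖ ≤ ‖z + d‖ + ‖(d : ℂ)‖ := by
      have : z = (z + d) - d := by ring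
      nth_rewrite 1 [this]
      exact norm_sub_le _ _
    rw [norm_real, Real.norm_of_nonneg hd.le] at h2
    linarith
  have h3 : 0 < (t - 1) * δ := by
    have : 0 < t - 1 := by linarith
    positivity
  rw [norm_div, norm_real, Real.norm_of_nonneg hδ.le, div_le_div_iff₀ (by linarith) (by linarith)]
  linarith

theorem diff_L {δ d : ℝ} (hδ : 0 < δ) (hd : 0 < d) (hdδ : d ≤ δ) (hδρ : δ ≤ D.ρ / 10) {s : ℂ}
    (hs : 0 < s.im ∨ D.ρ ≤ ‖s - D.x‖) : DifferentiableAt ℂ (fun s => Lf δ d (D.zz s)) s := by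
  have hne : D.zz s + d ≠ 0 ∧ 1 + (δ : ℂ) / (D.zz s + d) ∈ slitPlane := by
    rcases hs with hs | hs
    · have hz : 0 < (D.zz s).re := by rw [D.zz_re]; exact hs
      exact ⟨add_ne_zero_of_re hd hz, Lf_slit hδ hd hz⟩
    · have hz : 10 * δ ≤ ‖D.zz s‖ := by rw [D.norm_zz]; linarith
      have h1 := ratio_far hδ hd hdδ (by norm_num : (2:ℝ) ≤ 10) hz
      constructor
      · intro h
        have h2 : D.zz s = -d := by linear_combination h
        rw [h2, norm_neg, norm_real, Real.norm_of_nonneg hd.le] at hz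
        linarith
      · rw [mem_slitPlane_iff]
        left
        rw [add_re, one_re]
        have := (abs_le.mp ((abs_re_le_norm _).trans h1)).1
        norm_num at this ⊢
        linarith
  have hz : DifferentiableAt ℂ D.zz s := by
    unfold zz
    exact (differentiableAt_id.sub_const _).const_mul _
  unfold Lf
  exact (((differentiableAt_const _).div (hz.add_const _) hne.1).const_add _).clog hne.2

theorem differentiableAt_Φ {s : ℂ} (hs : 0 < s.im ∨ D.ρ ≤ ‖s - D.x‖) :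
    DifferentiableAt ℂ D.Φ s := by
  have h1 := D.diff_L D.δ₁_pos D.d₁_pos D.d₁_le D.δ₁_le hs
  have h2 := D.diff_L D.δ₂_pos D.d₂_pos D.d₂_le (D.δ₂_le.trans D.δ₁_le) hs
  unfold Φ
  exact ((h1.const_mul _).const_mul _).add ((h2.const_mul _).const_mul _)

theorem L_outer {δ d : ℝ} (hδ : 0 < δ) (hd : 0 < d) (hdδ : d ≤ δ) (hδρ : δ ≤ D.ρ * D.η / 10) {s : ℂ}
    (hs : D.ρ ≤ ‖s - D.x‖) : ‖Lf δ d (D.zz s)‖ ≤ D.η := by
  have hη := D.hη
  have hη1 := D.hη1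
  have hz : 10 / D.η * δ ≤ ‖D.zz s‖ := by
    rw [D.norm_zz]
    refine le_trans ?_ hs
    rw [div_mul_eq_mul_div, div_le_iff₀ hη]
    linarith
  have h10 : 10 ≤ 10 / D.η := by
    rw [le_div_iff₀ hη]; linarith
  have h1 := ratio_far hδ hd hdδ (by linarith : (2:ℝ) ≤ 10 / D.η) hz
  have h2 : 1 / (10 / D.η - 1) ≤ D.η / 9 := by
    rw [div_le_div_iff₀ (by linarith) (by norm_num)]
    have : D.η * (10 / D.η - 1) = 10 - D.η := by field_simp
    rw [this]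
    linarith
  have h3 := Lf_small (h1.trans (by linarith : 1 / (10 / D.η - 1) ≤ 1 / 2))
  linarith

theorem norm_Φ_le {s : ℂ} (hs : D.ρ ≤ ‖s - D.x‖) : ‖D.Φ s‖ ≤ D.η := by
  have h1 := D.L_outer D.δ₁_pos D.d₁_pos D.d₁_le le_rfl hs
  have h2 := D.L_outer D.δ₂_pos D.d₂_pos D.d₂_le D.δ₂_le hs
  unfold Φ
  refine (norm_add_le _ _).trans ?_
  rw [norm_mul, norm_mul, norm_mul, norm_mul, D.he₁, D.he₂]
  norm_num
  linarith [D.hη]

theorem L₂_small {s : ℂ} (hs : 1000 * D.δ₂ ≤ ‖s - D.x‖) : ‖Lf D.δ₂ D.d₂ (D.zz s)‖ ≤ 1 / 100 := by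
  rw [← D.norm_zz] at hs
  have h1 := ratio_far D.δ₂_pos D.d₂_pos D.d₂_le (by norm_num : (2:ℝ) ≤ 1000) hs
  have h3 := Lf_small (h1.trans (by norm_num))
  have h4 : (1 : ℝ) / (1000 - 1) ≤ 1 / 150 := by norm_num
  linarith

theorem L₁_near {s : ℂ} (hs0 : 0 < s.im) (hs : ‖s - D.x‖ ≤ 1000 * D.δ₂) :
    ‖Lf D.δ₁ D.d₁ (D.zz s) - (8 * D.l₁ : ℝ)‖ ≤ 3 / 1000 := by
  have h1 : ‖D.zz s‖ ≤ 1 / 1000 * D.d₁ := by
    rw [D.norm_zz]
    unfold δ₂ at hs
    linarith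
  have h2 := Lf_near D.δ₁_pos D.d₁_pos (by norm_num : (1 / 1000 : ℝ) ≤ 1 / 2)
    (by rw [D.zz_re]; exact hs0) h1
  rw [D.log₁] at h2
  linarith

theorem pi_le : π / 2 ≤ 8 / 5 := by linarith [Real.pi_lt_d2]

/-- the region -/
theorem region {s : ℂ} (hs0 : 0 < s.im) :
    (∃ l : ℂ, 0 ≤ l.re ∧ l.re ≤ D.l₁ ∧ |l.im| ≤ 1 / 5 ∧ ‖D.Φ s - D.e₁ * l‖ ≤ 1 / 100) ∨
    (∃ l : ℂ, 0 ≤ l.re ∧ l.re ≤ D.l₂ + 1 / 2 ∧ |l.im| ≤ 1 / 5 ∧
      ‖D.Φ s - (D.e₁ * D.l₁ + D.e₂ * l)‖ ≤ 1 / 100) := by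
  have hz : 0 < (D.zz s).re := by rw [D.zz_re]; exact hs0
  have hpi := pi_le
  rcases le_total (1000 * D.δ₂) ‖s - D.x‖ with h | h
  · left
    obtain ⟨h1, h2, h3⟩ := Lf_bounds D.δ₁_pos D.d₁_pos hz
    rw [D.log₁] at h2
    have e : (1 / 8 : ℂ) = ((1 / 8 : ℝ) : ℂ) := by push_cast; ring
    refine ⟨1 / 8 * Lf D.δ₁ D.d₁ (D.zz s), ?_, ?_, ?_, ?_⟩
    · rw [e, re_ofReal_mul]; linarith
    · rw [e, re_ofReal_mul]; linarith
    · rw [e, im_ofReal_mul, abs_mul, abs_of_pos (by norm_num : (0:ℝ) < 1 / 8)]; linarith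
    · have h4 := D.L₂_small h
      unfold Φ
      rw [add_sub_cancel_left, norm_mul, norm_mul, D.he₂]
      norm_num
      linarith
  · right
    obtain ⟨h1, h2, h3⟩ := Lf_bounds D.δ₂_pos D.d₂_pos hz
    rw [D.log₂] at h2
    have e : (1 / 8 : ℂ) = ((1 / 8 : ℝ) : ℂ) := by push_cast; ring
    refine ⟨1 / 8 * Lf D.δ₂ D.d₂ (D.zz s), ?_, ?_, ?_, ?_⟩
    · rw [e, re_ofReal_mul]; linarith
    · rw [e, re_ofReal_mul]; linarith
    · rw [e, im_ofReal_mul, abs_mul, abs_of_pos (by norm_num : (0:ℝ) < 1 / 8)]; linarith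
    · have h4 := D.L₁_near hs0 h
      unfold Φ
      have e2 : D.e₁ * (1 / 8 * Lf D.δ₁ D.d₁ (D.zz s)) + D.e₂ * (1 / 8 * Lf D.δ₂ D.d₂ (D.zz s)) -
          (D.e₁ * D.l₁ + D.e₂ * (1 / 8 * Lf D.δ₂ D.d₂ (D.zz s))) =
          D.e₁ * (1 / 8 * (Lf D.δ₁ D.d₁ (D.zz s) - (8 * D.l₁ : ℝ))) := by
        push_cast; ring
      rw [e2, norm_mul, norm_mul, D.he₁]
      norm_num
      push_cast at h4
      linarith

/-- inverse coordinate -/
noncomputable def zl (l : ℂ) : ℂ := D.δ₂ / (Complex.exp l - 1) - D.d₂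
noncomputable def sl (l : ℂ) : ℂ := D.x + I * D.zl l

theorem zz_sl (l : ℂ) : D.zz (D.sl l) = D.zl l := by
  unfold zz sl
  rw [add_sub_cancel_left]
  linear_combination (-D.zl l) * I_mul_I

theorem sl_props {l : ℂ} (hl : l ∈ ball ((8 * D.l₂ : ℝ) : ℂ) (3 / 4)) :
    Complex.exp l - 1 ≠ 0 ∧ 0 < (D.sl l).im ∧ ‖D.sl l - D.x‖ ≤ 2 * D.δ₂ ∧
      Lf D.δ₂ D.d₂ (D.zz (D.sl l)) = l := by
  rw [mem_ball, dist_eq_norm] at hl
  have hre := (abs_le.mp ((abs_re_le_norm _).trans hl.le))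
  have him := (abs_le.mp ((abs_im_le_norm _).trans hl.le))
  rw [sub_re, ofReal_re] at hre
  rw [sub_im, ofReal_im, sub_zero] at him
  set E₂ := Real.exp (8 * D.l₂) with hE₂
  have hE : 256 ≤ E₂ := exp_ge D.hl₂
  have hn : ‖Complex.exp l‖ = Real.exp l.re := Complex.norm_exp l
  set r := Real.exp l.re with hr
  have he1 : Real.exp 1 ≤ 3 := by linarith [Real.exp_one_lt_d9]
  have hr1 : r ≤ 3 * E₂ := by
    have h1 : r ≤ Real.exp (8 * D.l₂ + 1) := Real.exp_le_exp.mpr (by linarith)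
    rw [Real.exp_add] at h1
    nlinarith
  have hr2 : 80 ≤ r := by
    have h1 : E₂ ≤ Real.exp (l.re + 1) := Real.exp_le_exp.mpr (by linarith)
    rw [Real.exp_add, ← hr] at h1
    have h2 : r * Real.exp 1 ≤ r * 3 := mul_le_mul_of_nonneg_left he1 (Real.exp_pos _).le
    linarith
  have hre2 : 7 / 10 * r ≤ (Complex.exp l).re := by
    rw [Complex.exp_re]
    have h1 := Real.one_sub_sq_div_two_le_cos (x := l.im)
    have h2 : l.im ^ 2 ≤ (3 / 4) ^ 2 := by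
      rw [← sq_abs]
      exact pow_le_pow_left₀ (abs_nonneg _) (abs_le.mpr him) 2
    have h3 : 7 / 10 ≤ Real.cos l.im := by nlinarith
    rw [← hr, mul_comm]
    exact mul_le_mul_of_nonneg_left h3 (Real.exp_pos _).le
  have hne : Complex.exp l - 1 ≠ 0 := by
    intro h
    have := congrArg Complex.re h
    rw [sub_re, one_re, zero_re] at this
    linarith
  have hδ₂ := D.δ₂_pos
  have hd₂ := D.d₂_pos
  have hd₂δ := D.d₂_le
  have hnz : 0 < ‖Complex.exp l - 1‖ := norm_pos_iff.mpr hne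
  have hn1 : ‖Complex.exp l - 1‖ ≤ r + 1 := by
    refine (norm_sub_le _ _).trans ?_
    rw [hn, norm_one]
  have hn2 : 1 ≤ ‖Complex.exp l - 1‖ := by
    have h1 : ‖Complex.exp l‖ ≤ ‖Complex.exp l - 1‖ + ‖(1:ℂ)‖ := by
      have : Complex.exp l = (Complex.exp l - 1) + 1 := by ring
      nth_rewrite 1 [this]
      exact norm_add_le _ _
    rw [hn, norm_one] at h1
    linarith
  have hzre : 0 < (D.zl l).re := by
    unfold zl
    rw [sub_re, ofReal_re, Complex.div_re]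
    simp only [ofReal_im, zero_mul, zero_div, ofReal_re, sub_re, one_re, add_zero]
    rw [← Complex.sq_norm, sub_pos]
    rw [lt_div_iff₀ (by positivity)]
    have h1 : ‖Complex.exp l - 1‖ ^ 2 ≤ (r + 1) ^ 2 := pow_le_pow_left₀ (norm_nonneg _) hn1 2
    have h2 : (r + 1) ^ 2 ≤ 2 * r ^ 2 := by nlinarith
    have h3 : D.d₂ * (16 * E₂ - 1) ≤ D.δ₂ := by
      have h4 : D.d₂ * (Real.exp (8 * D.l₂ + 4) - 1) = D.δ₂ := by
        unfold d₂
        have := D.exp2_ge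
        rw [div_mul_cancel₀]
        have := exp_ge D.hl₂
        linarith
      rw [← h4]
      have := D.exp2_ge
      gcongr
    have h5 : D.d₂ * ‖Complex.exp l - 1‖ ^ 2 ≤ D.d₂ * (2 * r ^ 2) :=
      mul_le_mul_of_nonneg_left (h1.trans h2) hd₂.le
    have h6 : D.d₂ * (2 * r ^ 2) ≤ D.d₂ * (6 * E₂) * r := by
      have : D.d₂ * (2 * r ^ 2) = D.d₂ * (2 * r) * r := by ring
      rw [this]
      have h2r : 2 * r ≤ 6 * E₂ := by linarith
      gcongr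
    have h7 : D.d₂ * (6 * E₂) ≤ D.δ₂ / 2 := by
      have : D.d₂ * (12 * E₂) ≤ D.d₂ * (16 * E₂ - 1) := by gcongr; linarith
      linarith
    have h8 : D.d₂ * (6 * E₂) * r ≤ D.δ₂ / 2 * r := by gcongr
    have h9 : D.δ₂ / 2 * r < D.δ₂ * ((Complex.exp l).re - 1) := by
      have : D.δ₂ / 2 * r = D.δ₂ * (r / 2) := by ring
      rw [this]
      apply mul_lt_mul_of_pos_left _ hδ₂
      linarith
    linarith
  refine ⟨hne, ?_, ?_, ?_⟩
  · rw [← D.zz_re, D.zz_sl]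
    exact hzre
  · rw [← D.norm_zz, D.zz_sl]
    unfold zl
    refine (norm_sub_le _ _).trans ?_
    rw [norm_div, norm_real, norm_real, Real.norm_of_nonneg hδ₂.le, Real.norm_of_nonneg hd₂.le]
    have := div_le_self hδ₂.le hn2
    linarith
  · rw [D.zz_sl]
    unfold Lf zl
    have e : (1 : ℂ) + D.δ₂ / (D.δ₂ / (Complex.exp l - 1) - D.d₂ + D.d₂) = Complex.exp l := by
      have hδc : (D.δ₂ : ℂ) ≠ 0 := by exact_mod_cast hδ₂.ne'
      rw [sub_add_cancel, div_div_cancel₀ hδc]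
      ring
    rw [e]
    have hpi := Real.pi_gt_three
    exact Complex.log_exp (by linarith) (by linarith)

/-- robust covering -/
theorem covers {E : ℂ → ℂ} (hE : DifferentiableOn ℂ E (ball (D.x : ℂ) D.ρ))
    (hEb : ∀ s ∈ ball (D.x : ℂ) D.ρ, ‖E s‖ ≤ 1 / 200) {v : ℂ}
    (hv : ‖v - (D.e₁ * D.l₁ + D.e₂ * D.l₂)‖ < 1 / 100) :
    ∃ s ∈ ball (D.x : ℂ) D.ρ, 0 < s.im ∧ D.Φ s + E s = v := by
  have hδρ : 1000 * D.δ₂ < D.ρ := by
    have h1 := D.d₁_le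
    have h2 := D.δ₁_le
    have h3 := D.hρ
    unfold δ₂
    linarith [D.d₁_pos]
  have hδ₂ := D.δ₂_pos
  set Ω := ball ((8 * D.l₂ : ℝ) : ℂ) (3 / 4) with hΩ
  have hmem : ∀ l ∈ Ω, D.sl l ∈ ball (D.x : ℂ) D.ρ := by
    intro l hl
    rw [mem_ball, dist_eq_norm]
    have := (D.sl_props hl).2.2.1
    linarith
  have hF : DifferentiableOn ℂ (fun l => D.Φ (D.sl l) + E (D.sl l)) Ω := by
    intro l hl
    obtain ⟨h1, h2, h3, h4⟩ := D.sl_props hl
    have hs : DifferentiableAt ℂ D.sl l := by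
      unfold sl zl
      exact ((((differentiableAt_const _).div (Complex.differentiableAt_exp.sub_const _) h1).sub_const
        _).const_mul _).const_add _
    have h5 : DifferentiableAt ℂ D.Φ (D.sl l) := D.differentiableAt_Φ (Or.inl h2)
    have h6 : DifferentiableAt ℂ E (D.sl l) :=
      hE.differentiableAt (isOpen_ball.mem_nhds (hmem l hl))
    exact ((h5.comp l hs).add (h6.comp l hs)).differentiableWithinAt
  have hsub : closedBall ((8 * D.l₂ : ℝ) : ℂ) (1 / 2) ⊆ Ω :=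
    closedBall_subset_ball (by norm_num)
  have hA : ‖D.e₂ * (1 / 8)‖ = 1 / 8 := by
    rw [norm_mul, D.he₂]; norm_num
  have hcl : ∀ l ∈ closedBall ((8 * D.l₂ : ℝ) : ℂ) (1 / 2),
      ‖(D.Φ (D.sl l) + E (D.sl l)) - (D.e₂ * (1 / 8) * (l - ((8 * D.l₂ : ℝ) : ℂ)) +
        (D.e₁ * D.l₁ + D.e₂ * D.l₂))‖ ≤ 1 / 100 := by
    intro l hl
    obtain ⟨h1, h2, h3, h4⟩ := D.sl_props (hsub hl)
    have h5 := D.L₁_near h2 (h3.trans (by linarith))
    have h6 := hEb _ (hmem l (hsub hl))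
    have e : (D.Φ (D.sl l) + E (D.sl l)) - (D.e₂ * (1 / 8) * (l - ((8 * D.l₂ : ℝ) : ℂ)) +
        (D.e₁ * D.l₁ + D.e₂ * D.l₂)) =
        D.e₁ * (1 / 8 * (Lf D.δ₁ D.d₁ (D.zz (D.sl l)) - (8 * D.l₁ : ℝ))) + E (D.sl l) := by
      unfold Φ
      rw [h4]
      push_cast
      ring
    rw [e]
    refine (norm_add_le _ _).trans ?_
    rw [norm_mul, norm_mul, D.he₁]
    norm_num
    push_cast at h5
    linarith
  have hcov := cover_of_close (by norm_num) isOpen_ball hsub hF hA hcl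
  have hvm : v ∈ ball (D.e₁ * D.l₁ + D.e₂ * D.l₂) (1 / 8 * (1 / 2) / 2 - 2 * (1 / 100)) := by
    rw [mem_ball, dist_eq_norm]
    refine hv.trans_le ?_
    norm_num
  obtain ⟨l, hl, hlv⟩ := hcov hvm
  exact ⟨D.sl l, hmem l (hsub hl), (D.sl_props (hsub hl)).2.1, hlv⟩

end TD

end Pool.Agent.Hhelper32
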