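import Mathlib
import Pool.Agent.Hhelper32.Params
import Pool.Agent.Hhelper32.Assembly
import Pool.Agent.Hhelper32.Tube
import Pool.Agent.Hhelper32.Piece

/-! The concrete construction. -/

set_option autoImplicit false

namespace Pool.Agent.Hhelper32

open Set Metric Complex
open scoped Real

abbrev Idx (k : ℕ) : Type := Option (Fin (Ns k) × Fin 3 × Bool)

noncomputable def rr (k n j : ℕ) : ℝ := Xs k + 10 * Rk k * (3 * n + j + 1)
noncomputable def ww (k n j : ℕ) : ℂ := ⟨rr k n j, Rk k / 10⟩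
noncomputable def νν (j : Fin 3) : ℂ :=
  if j = 0 then 1 else if j = 1 then ⟨-3 / 5, 4 / 5⟩ else ⟨-3 / 5, -4 / 5⟩
noncomputable def xn (k n : ℕ) : ℝ := pk k + (n + 1 / 2) * ωf k (Ns k)
noncomputable def locs (k : ℕ) : Idx k → ℝ
  | none => -1 - (1 / 2) ^ (k + 1)
  | some (n, j, σ) => xn k n + (j : ℕ) * ωf k (Ns k) / 16 + (if σ then 0 else 2)
noncomputable def μμ (j : Fin 3) (σ : Bool) : ℂ := if σ then νν j else -νν j

theorem norm_νν (j : Fin 3) : ‖νν j‖ = 1 := by
  have h : ∀ a b : ℝ, a ^ 2 + b ^ 2 = 1 → ‖(⟨a, b⟩ : ℂ)‖ = 1 := by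
    intro a b hab
    have : ‖(⟨a, b⟩ : ℂ)‖ ^ 2 = 1 := by
      rw [Complex.sq_norm, normSq_mk]; nlinarith
    exact (pow_eq_one_iff_of_nonneg (norm_nonneg _) two_ne_zero).mp this
  unfold νν
  split_ifs
  · exact norm_one
  · exact h _ _ (by norm_num)
  · exact h _ _ (by norm_num)

theorem νν_im (j : Fin 3) : |(νν j).im| ≤ 4 / 5 := by
  unfold νν
  split_ifs
  · simp; norm_num
  · norm_num
  · simp only; rw [abs_le]; constructor <;> norm_num

theorem norm_μμ (j : Fin 3) (σ : Bool) : ‖μμ j σ‖ = 1 := by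
  unfold μμ
  split_ifs
  · exact norm_νν j
  · rw [norm_neg]; exact norm_νν j

theorem μμ_im (j : Fin 3) (σ : Bool) : |(μμ j σ).im| ≤ 4 / 5 := by
  unfold μμ
  split_ifs
  · exact νν_im j
  · rw [neg_im, abs_neg]; exact νν_im j

theorem rr_ge {k n j : ℕ} : 10 * Rk k ≤ rr k n j := by
  unfold rr
  have h1 := Xs_nonneg k
  have h2 := Rk_pos k
  have h3 : (0:ℝ) ≤ n := Nat.cast_nonneg n
  have h4 : (0:ℝ) ≤ j := Nat.cast_nonneg j
  nlinarith [mul_nonneg h2.le h3, mul_nonneg h2.le h4]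

theorem rr_le {k n j : ℕ} (hn : n < Ns k) (hj : j < 3) :
    rr k n j ≤ Xs k + 30 * Rk k * Ns k := by
  unfold rr
  have h2 := Rk_pos k
  have h3 : ((3 * n + j + 1 : ℕ) : ℝ) ≤ ((3 * Ns k : ℕ) : ℝ) := by
    exact_mod_cast (by omega : 3 * n + j + 1 ≤ 3 * Ns k)
  push_cast at h3
  have := mul_le_mul_of_nonneg_left h3 (by positivity : 0 ≤ 10 * Rk k)
  linarith

/-- parameters of the test pieces -/
noncomputable def mkPP (k : ℕ) (n : Fin (Ns k)) (j : Fin 3) (σ : Bool) (h : ℂ) (hh : ‖h‖ ≤ 1 / 4) :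
    PP where
  ξ := locs k (some (n, j, σ))
  ρ := ρf k (Ns k)
  η := η'f k (Ns k)
  ε := εk k
  R := Rk k
  A := Af k (Xs k) (Ns k)
  w := ww k n j
  μ := μμ j σ
  h := h
  hρ := ρf_pos (Ns_ge k)
  hρ1 := by
    unfold ρf
    linarith [ωf_le (k := k) (Ns_ge k)]
  hη := η'f_pos (Ns_ge k)
  hη1 := η'f_le (Ns_ge k)
  hε := εk_pos k
  hε1 := by linarith [εk_le k]
  hR := by linarith [Rk_ge' k]
  hμ := norm_μμ j σ
  hμi := μμ_im j σ
  hwi := rfl
  hwr := rr_ge
  hwA := by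
    have h1 := rr_le (k := k) n.2 j.2
    have h2 : (1:ℝ) ≤ Ns k := by exact_mod_cast Ns_ge k
    have h3 := Rk_pos k
    change rr k n j + 2 * Rk k ≤ Af k (Xs k) (Ns k)
    unfold Af
    nlinarith
  hh := hh

theorem mkPP_d (k : ℕ) (n : Fin (Ns k)) (j : Fin 3) (σ : Bool) (h : ℂ) (hh : ‖h‖ ≤ 1 / 4) :
    (mkPP k n j σ h hh).d = df k (Xs k) (Ns k) := rfl

/-- clear paths -/
def DownClear (u : ℂ) : Prop := ∀ k n j : ℕ, n < Ns k → j < 3 →
  (2 * (k:ℝ) + 9 < |u.re - rr k n j| ∨ u.im + 1 < Rk k / 10 - (2 * k + 8))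
def LeftClear (u : ℂ) : Prop := ∀ k n j : ℕ, n < Ns k → j < 3 →
  (2 * (k:ℝ) + 9 < |u.im - Rk k / 10| ∨ u.re + 1 < rr k n j - (2 * k + 8))

noncomputable def vD (u : ℂ) : ℂ := ⟨u.re, min u.im 0 - 2⟩
noncomputable def vL (u : ℂ) : ℂ := ⟨min u.re 0 - 2, u.im⟩

theorem norm_vD (u : ℂ) : 2 ≤ ‖vD u‖ := by
  have h := abs_im_le_norm (vD u)
  have h2 : (vD u).im ≤ -2 := by
    change min u.im 0 - 2 ≤ -2
    linarith [min_le_right u.im 0]
  have := neg_le_abs (vD u).im
  linarith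

theorem norm_vL (u : ℂ) : 2 ≤ ‖vL u‖ := by
  have h := abs_re_le_norm (vL u)
  have h2 : (vL u).re ≤ -2 := by
    change min u.re 0 - 2 ≤ -2
    linarith [min_le_right u.re 0]
  have := neg_le_abs (vL u).re
  linarith

theorem norm_unit {v : ℂ} (hv : 2 ≤ ‖v‖) : ‖v / ‖v‖‖ = 1 := by
  rw [norm_div, norm_real, norm_norm, div_self (by linarith)]

noncomputable def downTD (k : ℕ) (u : ℂ) : TD where
  x := locs k none
  ρ := ρf k (Ns k)
  η := η'f k (Ns k)
  l₁ := ‖vD u‖
  l₂ := u.im - (vD u).im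
  e₁ := vD u / ‖vD u‖
  e₂ := I
  hρ := ρf_pos (Ns_ge k)
  hη := η'f_pos (Ns_ge k)
  hη1 := η'f_le (Ns_ge k)
  hl₁ := by linarith [norm_vD u]
  hl₂ := by
    change 1 ≤ u.im - (min u.im 0 - 2)
    linarith [min_le_left u.im 0]
  he₁ := norm_unit (norm_vD u)
  he₂ := norm_I

noncomputable def leftTD (k : ℕ) (u : ℂ) : TD where
  x := locs k none
  ρ := ρf k (Ns k)
  η := η'f k (Ns k)
  l₁ := ‖vL u‖
  l₂ := u.re - (vL u).re
  e₁ := vL u / ‖vL u‖
  e₂ := 1
  hρ := ρf_pos (Ns_ge k)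
  hη := η'f_pos (Ns_ge k)
  hη1 := η'f_le (Ns_ge k)
  hl₁ := by linarith [norm_vL u]
  hl₂ := by
    change 1 ≤ u.re - (min u.re 0 - 2)
    linarith [min_le_left u.re 0]
  he₁ := norm_unit (norm_vL u)
  he₂ := norm_one

noncomputable def dsq (k : ℕ) : ℂ := TopologicalSpace.denseSeq ℂ k

open Classical in
noncomputable def Pcs (k : ℕ) : Idx k → ℂ → ℂ → ℂ
  | none => fun _ s => if DownClear (dsq k) then (downTD k (dsq k)).Φ s
      else if LeftClear (dsq k) then (leftTD k (dsq k)).Φ s else 0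
  | some (n, j, σ) => fun h s => if hh : ‖h‖ ≤ 1 / 4 then (mkPP k n j σ h hh).P s else 0

theorem Pcs_diff (k : ℕ) (i : Idx k) (h s : ℂ) (_hh : ‖h‖ ≤ 1 / 1000)
    (hs : 0 < s.im ∨ ρf k (Ns k) ≤ ‖s - locs k i‖) : DifferentiableAt ℂ (Pcs k i h) s := by
  rcases i with _ | ⟨n, j, σ⟩
  · unfold Pcs
    by_cases h1 : DownClear (dsq k)
    · simp only [if_pos h1]
      exact (downTD k (dsq k)).differentiableAt_Φ hs
    · simp only [if_neg h1]
      by_cases h2 : LeftClear (dsq k)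
      · simp only [if_pos h2]
        exact (leftTD k (dsq k)).differentiableAt_Φ hs
      · simp only [if_neg h2]
        exact differentiableAt_const _
  · unfold Pcs
    have h3 : ‖h‖ ≤ 1 / 4 := by linarith
    simp only [dif_pos h3]
    exact (mkPP k n j σ h h3).differentiableAt_P hs

theorem Pcs_small (k : ℕ) (i : Idx k) (h s : ℂ) (_hh : ‖h‖ ≤ 1 / 1000)
    (hs : ρf k (Ns k) ≤ ‖s - locs k i‖) : ‖Pcs k i h s‖ ≤ η'f k (Ns k) := by
  rcases i with _ | ⟨n, j, σ⟩
  · unfold Pcs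
    by_cases h1 : DownClear (dsq k)
    · simp only [if_pos h1]
      exact (downTD k (dsq k)).norm_Φ_le hs
    · simp only [if_neg h1]
      by_cases h2 : LeftClear (dsq k)
      · simp only [if_pos h2]
        exact (leftTD k (dsq k)).norm_Φ_le hs
      · simp only [if_neg h2, norm_zero]
        exact (η'f_pos (Ns_ge k)).le
  · unfold Pcs
    have h3 : ‖h‖ ≤ 1 / 4 := by linarith
    simp only [dif_pos h3]
    exact (mkPP k n j σ h h3).norm_P_le hs

/-- location ranges -/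
theorem xn_add_mem {k : ℕ} (n : Fin (Ns k)) (j : Fin 3) :
    pk k ≤ xn k n + (j : ℕ) * ωf k (Ns k) / 16 ∧
    xn k n + (j : ℕ) * ωf k (Ns k) / 16 ≤ pk k + αk k := by
  have hω := ωf_pos (k := k) (Ns_ge k)
  have h1 := N_mul_ωf (k := k) (Ns_ge k)
  have h2 : (n : ℝ) + 1 ≤ Ns k := by exact_mod_cast n.2
  have h3 : ((j : ℕ) : ℝ) ≤ 2 := by exact_mod_cast (by omega : (j : ℕ) ≤ 2)
  have h4 : (0:ℝ) ≤ ((n : ℕ) : ℝ) := Nat.cast_nonneg _
  have h5 : (0:ℝ) ≤ ((j : ℕ) : ℝ) := Nat.cast_nonneg _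
  unfold xn
  constructor
  · have : 0 ≤ ((n : ℕ) : ℝ) * ωf k (Ns k) := by positivity
    have : 0 ≤ ((j : ℕ) : ℝ) * ωf k (Ns k) := by positivity
    linarith
  · have h6 : ((n : ℝ) + 1) * ωf k (Ns k) ≤ Ns k * ωf k (Ns k) :=
      mul_le_mul_of_nonneg_right h2 hω.le
    have h7 : ((j : ℕ) : ℝ) * ωf k (Ns k) ≤ 2 * ωf k (Ns k) := mul_le_mul_of_nonneg_right h3 hω.le
    linarith

theorem ρf_le_gap (k : ℕ) : ρf k (Ns k) ≤ 1 / 20000 * gapk k := by
  refine (Ns_good k).2.2.trans ?_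
  have := tolk_le k
  have := gapk_pos k
  gcongr

theorem locs_sep (k : ℕ) (i i' : Idx k) (hne : i ≠ i') :
    2 * ρf k (Ns k) ≤ |locs k i - locs k i'| := by
  have hω := ωf_pos (k := k) (Ns_ge k)
  have hω8 := ωf_le (k := k) (Ns_ge k)
  have hα := αk_le k
  have hρ : ρf k (Ns k) = ωf k (Ns k) / 64 := rfl
  have hpk : 1 ≤ pk k := by
    unfold pk
    have : (0:ℝ) < (1 / 2) ^ (k + 1) := by positivity
    linarith
  have hpow : (0:ℝ) < (1 / 2) ^ (k + 1) := by positivity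
  rw [hρ]
  rcases i with _ | ⟨n, j, σ⟩ <;> rcases i' with _ | ⟨n', j', σ'⟩
  · exact absurd rfl hne
  · have h1 := (xn_add_mem n' j').1
    unfold locs
    rw [abs_sub_comm]
    refine le_trans ?_ (le_abs_self _)
    have : (0:ℝ) ≤ if σ' then 0 else 2 := by split_ifs <;> norm_num
    linarith
  · have h1 := (xn_add_mem n j).1
    unfold locs
    refine le_trans ?_ (le_abs_self _)
    have : (0:ℝ) ≤ if σ then 0 else 2 := by split_ifs <;> norm_num
    linarith
  · have h1 := xn_add_mem n j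
    have h2 := xn_add_mem n' j'
    unfold locs
    by_cases hσ : σ = σ'
    · subst hσ
      have e : xn k n + (j : ℕ) * ωf k (Ns k) / 16 + (if σ = true then 0 else 2) -
          (xn k n' + (j' : ℕ) * ωf k (Ns k) / 16 + (if σ = true then 0 else 2)) =
          ωf k (Ns k) / 16 * (((16 * (n : ℤ) + (j : ℕ) - (16 * (n' : ℤ) + (j' : ℕ)) : ℤ)) : ℝ) := by
        unfold xn
        push_cast
        ring
      simp only at e ⊢
      rw [e, abs_mul, abs_of_pos (by positivity)]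
      have h3 : (1:ℝ) ≤ |(((16 * (n : ℤ) + (j : ℕ) - (16 * (n' : ℤ) + (j' : ℕ)) : ℤ)) : ℝ)| := by
        rw [← Int.cast_abs]
        have h4 : 16 * (n : ℤ) + (j : ℕ) - (16 * (n' : ℤ) + (j' : ℕ)) ≠ 0 := by
          intro h5
          apply hne
          have hj := j.2
          have hj' := j'.2
          have h6 : (n : ℕ) = n' := by omega
          have h7 : (j : ℕ) = j' := by omega
          rw [Fin.ext h6, Fin.ext h7]
        exact_mod_cast Int.one_le_abs h4
      nlinarith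
    · rcases σ with _ | _ <;> rcases σ' with _ | _
      · exact absurd rfl hσ
      · simp only [Bool.false_eq_true, if_false, if_true]
        refine le_trans ?_ (le_abs_self _)
        linarith [h1.1, h2.2]
      · simp only [Bool.false_eq_true, if_false, if_true]
        rw [abs_sub_comm]
        refine le_trans ?_ (le_abs_self _)
        linarith [h2.1, h1.2]
      · exact absurd rfl hσ

theorem locs_sep' (j k : ℕ) (hjk : j < k) (i : Idx k) (i' : Idx j) :
    gapk k + ρf j (Ns j) ≤ |locs k i - locs j i'| := by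
  have hρ := ρf_le_gap j
  have hg : gapk k ≤ (1 / 2) ^ (j + 5) := by
    unfold gapk
    exact pow_le_pow_of_le_one (by norm_num) (by norm_num) (by omega)
  have hα : αk k ≤ (1 / 2) ^ (j + 4) := by
    unfold αk
    exact pow_le_pow_of_le_one (by norm_num) (by norm_num) (by omega)
  have hα' : αk j ≤ 1 / 8 := αk_le j
  have hp : (1 / 2 : ℝ) ^ (k + 1) ≤ (1 / 2) ^ (j + 2) :=
    pow_le_pow_of_le_one (by norm_num) (by norm_num) (by omega)
  set z : ℝ := (1 / 2) ^ j with hz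
  have hz0 : 0 < z := by positivity
  have hz1 : z ≤ 1 := pow_le_one₀ (by norm_num) (by norm_num)
  have e1 : (1 / 2 : ℝ) ^ (j + 1) = z / 2 := by rw [hz]; ring
  have e2 : (1 / 2 : ℝ) ^ (j + 2) = z / 4 := by rw [hz]; ring
  have e4 : (1 / 2 : ℝ) ^ (j + 4) = z / 16 := by rw [hz]; ring
  have e5 : (1 / 2 : ℝ) ^ (j + 5) = z / 32 := by rw [hz]; ring
  have hgj : gapk j = z / 16 := by unfold gapk; exact e4
  have hpow : (0:ℝ) < (1 / 2) ^ (k + 1) := by positivity
  rw [hgj] at hρ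
  rw [e5] at hg
  rw [e4] at hα
  rw [e2] at hp
  have hpk : pk k = 1 + (1 / 2) ^ (k + 1) := rfl
  have hpj : pk j = 1 + z / 2 := by unfold pk; rw [e1]
  rcases i with _ | ⟨n, m, σ⟩ <;> rcases i' with _ | ⟨n', m', σ'⟩
  · unfold locs
    rw [e1]
    refine le_trans ?_ (le_abs_self _)
    linarith
  · have h1 := (xn_add_mem n' m').1
    unfold locs
    rw [abs_sub_comm]
    refine le_trans ?_ (le_abs_self _)
    have : (0:ℝ) ≤ if σ' then 0 else 2 := by split_ifs <;> norm_num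
    linarith
  · have h1 := (xn_add_mem n m).1
    unfold locs
    refine le_trans ?_ (le_abs_self _)
    have : (0:ℝ) ≤ if σ then 0 else 2 := by split_ifs <;> norm_num
    rw [e1]
    linarith
  · have h1 := xn_add_mem n m
    have h2 := xn_add_mem n' m'
    unfold locs
    rcases σ with _ | _ <;> rcases σ' with _ | _ <;>
      simp only [Bool.false_eq_true, if_false, if_true]
    · rw [abs_sub_comm]
      refine le_trans ?_ (le_abs_self _)
      linarith [h1.2, h2.1]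
    · refine le_trans ?_ (le_abs_self _)
      linarith [h1.1, h2.2]
    · rw [abs_sub_comm]
      refine le_trans ?_ (le_abs_self _)
      linarith [h2.1, h1.2]
    · rw [abs_sub_comm]
      refine le_trans ?_ (le_abs_self _)
      linarith [h1.2, h2.1]

/-- the assembly -/
noncomputable def asm : Asm where
  ι := Idx
  fin := fun k => inferInstance
  dec := fun k => inferInstance
  loc := locs
  ρ := fun k => ρf k (Ns k)
  gap := gapk
  η := ηk
  η' := fun k => η'f k (Ns k)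
  tol := tolk
  Pc := Pcs
  hρ := fun k => ρf_pos (Ns_ge k)
  hgap := gapk_pos
  hρ_gap := fun k => (Ns_good k).2.2
  hρ_lim := by
    intro t ht
    obtain ⟨K, hK⟩ := exists_pow_lt_of_lt_one ht (by norm_num : (1 / 2 : ℝ) < 1)
    refine ⟨K, fun k hk => ?_⟩
    have h1 := ρf_le_gap k
    have h2 : gapk k ≤ (1 / 2) ^ K := by
      unfold gapk
      exact pow_le_pow_of_le_one (by norm_num) (by norm_num) (by omega)
    have := gapk_pos k
    linarith
  hη'0 := fun k => (η'f_pos (Ns_ge k)).le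
  hη' := by
    intro k
    have h1 : Fintype.card (Idx k) = 6 * Ns k + 1 := by
      simp [Idx]
      ring
    rw [h1]
    have h2 : (1:ℝ) ≤ Ns k := by exact_mod_cast Ns_ge k
    have h3 : 0 < (Ns k : ℝ) := by linarith
    unfold η'f
    rw [mul_div_assoc', div_le_iff₀ (by positivity), mul_comm]
    apply mul_le_mul_of_nonneg_left _ (ηk_pos k).le
    push_cast
    linarith
  hη := fun k => le_rfl
  htol := tolk_pos
  htol0 := by linarith [tolk_le 0]
  htol_anti := tolk_anti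
  hdiff := Pcs_diff
  hsmall := Pcs_small
  hsep := locs_sep
  hsep' := locs_sep'

end Pool.Agent.Hhelper32
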