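import Mathlib
import Pool.Agent.Hhelper32.Geometry

/-! Localization and surjectivity of the constructed function. -/

set_option autoImplicit false

namespace Pool.Agent.Hhelper32

open Set Metric Complex
open scoped Real ComplexConjugate

theorem rr_sep_lt {k k' : ℕ} (hk : k < k') {n j n' j' : ℕ} (hn : n < Ns k) (hj : j < 3) :
    rr k n j + 10 * Rk k' ≤ rr k' n' j' := by
  have h1 := rr_le hn hj
  have h2 : Xs (k + 1) ≤ Xs k' := Xs_mono hk
  rw [Xs_succ] at h2
  have h3 : Xs k' + 10 * Rk k' ≤ rr k' n' j' := by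
    unfold rr
    have h2 := Rk_pos k'
    have h3 : (0:ℝ) ≤ n' := Nat.cast_nonneg n'
    have h4 : (0:ℝ) ≤ j' := Nat.cast_nonneg j'
    nlinarith [mul_nonneg h2.le h3, mul_nonneg h2.le h4]
  linarith

theorem rr_sep_same {k : ℕ} {n j n' j' : ℕ} (h : 3 * n + j ≠ 3 * n' + j') :
    10 * Rk k ≤ |rr k n j - rr k n' j'| := by
  have e : rr k n j - rr k n' j' = 10 * Rk k *
      (((3 * (n : ℤ) + j - (3 * (n' : ℤ) + j') : ℤ)) : ℝ) := by
    unfold rr
    push_cast
    ring
  have hR := Rk_pos k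
  rw [e, abs_mul, abs_of_pos (by positivity)]
  have h3 : (1:ℝ) ≤ |(((3 * (n : ℤ) + j - (3 * (n' : ℤ) + j') : ℤ)) : ℝ)| := by
    rw [← Int.cast_abs]
    have h4 : 3 * (n : ℤ) + j - (3 * (n' : ℤ) + j') ≠ 0 := by omega
    exact_mod_cast Int.one_le_abs h4
  nlinarith

theorem Rk_double {j k : ℕ} (h : j < k) : 2 * Rk j ≤ Rk k := by
  have h1 : εk k ≤ εk j / 2 := by
    unfold εk
    have e1 : k * (1232 * 2 ^ k) ≥ j * (1232 * 2 ^ j) + 1 := by
      have h2 : 2 ^ j ≤ 2 ^ k := Nat.pow_le_pow_right (by norm_num) h.le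
      have h3 : (j + 1) * (1232 * 2 ^ j) ≤ k * (1232 * 2 ^ k) := by
        apply Nat.mul_le_mul h
        exact Nat.mul_le_mul_left _ h2
      have h4 : 1 ≤ 1232 * 2 ^ j := Nat.one_le_iff_ne_zero.mpr (by positivity)
      calc k * (1232 * 2 ^ k) ≥ (j + 1) * (1232 * 2 ^ j) := h3
        _ = j * (1232 * 2 ^ j) + 1232 * 2 ^ j := by ring
        _ ≥ j * (1232 * 2 ^ j) + 1 := by omega
    have h5 : (1 / 2 : ℝ) ^ (k * (1232 * 2 ^ k)) ≤ (1 / 2) ^ (j * (1232 * 2 ^ j) + 1) :=
      pow_le_pow_of_le_one (by norm_num) (by norm_num) e1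
    rw [pow_succ] at h5
    linarith
  have h6 := Rk_mul k
  have h7 := Rk_mul j
  have h8 := εk_pos k
  have h9 := Rk_pos k
  have h10 : (j:ℝ) ≤ k := by exact_mod_cast h.le
  have h11 : (0:ℝ) ≤ j := Nat.cast_nonneg j
  have h12 : Rk j * εk j ≤ Rk k * εk k := by
    rw [h6, h7]; gcongr
  have h13 : Rk k * εk k ≤ Rk k * (εk j / 2) := mul_le_mul_of_nonneg_left h1 h9.le
  have h14 : Rk j * εk j ≤ (Rk k / 2) * εk j := by linarith
  have h15 := le_of_mul_le_mul_right h14 (εk_pos j)
  linarith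

/-- the function -/
noncomputable def F : ℂ → ℂ := asm.f

theorem hh_quarter (k : ℕ) (i : Idx k) : ‖asm.hh k i‖ ≤ 1 / 4 := by
  have := asm.norm_hh_le k i
  linarith

/-- actual test pieces -/
noncomputable def tp (k : ℕ) (n : Fin (Ns k)) (j : Fin 3) (σ : Bool) : PP :=
  mkPP k n j σ (asm.hh k (some (n, j, σ))) (hh_quarter k _)

theorem local_test (k : ℕ) (n : Fin (Ns k)) (j : Fin 3) (σ : Bool) : ∃ e : ℂ → ℂ,
    DifferentiableOn ℂ e (ball ((tp k n j σ).ξ : ℂ) (tp k n j σ).ρ) ∧
    (∀ s ∈ ball ((tp k n j σ).ξ : ℂ) (tp k n j σ).ρ, ‖e s‖ ≤ εk k / 1000) ∧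
    (∀ s ∈ ball ((tp k n j σ).ξ : ℂ) (tp k n j σ).ρ,
      F s = (tp k n j σ).P s + (tp k n j σ).h + e s) := by
  obtain ⟨e, h1, h2, h3⟩ := asm.local_structure k (some (n, j, σ))
  refine ⟨e, h1, h2, fun s hs => ?_⟩
  have h4 := h3 s hs
  have h5 : asm.Pc k (some (n, j, σ)) (asm.hh k (some (n, j, σ))) s = (tp k n j σ).P s := by
    change Pcs k (some (n, j, σ)) (asm.hh k (some (n, j, σ))) s = _
    unfold Pcs
    simp only [dif_pos (hh_quarter k (some (n, j, σ)))]
    rfl
  rw [h5] at h4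
  exact h4

theorem test_high {k : ℕ} {n : Fin (Ns k)} {j : Fin 3} {σ : Bool} {s : ℂ} (hs0 : 0 < s.im)
    (hs : s ∈ ball (locs k (some (n, j, σ)) : ℂ) (ρf k (Ns k))) (him : 2 ≤ (F s).im) :
    ‖F s - ww k n j‖ ≤ 2 * Rk k := by
  obtain ⟨e, h1, h2, h3⟩ := local_test k n j σ
  have h4 := h3 s hs
  rw [h4] at him
  have h5 := (tp k n j σ).high_values h2 hs hs0 him
  rw [← h4] at h5
  have hε := εk_pos k
  have hε1 := εk_le k
  have h6 : ‖(tp k n j σ).c - ww k n j‖ = Rk k - εk k := by
    have : (tp k n j σ).c - ww k n j = ((Rk k - εk k : ℝ) : ℂ) * μμ j σ := by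
      change (ww k n j + ((Rk k - εk k : ℝ) : ℂ) * μμ j σ) - ww k n j = _
      ring
    rw [this, norm_mul, norm_μμ, mul_one, norm_real, Real.norm_of_nonneg]
    linarith [Rk_ge' k]
  have h7 : ‖(tp k n j σ).τ s - (tp k n j σ).c‖ < Rk k := h5.1
  have h8 : ‖F s - (tp k n j σ).τ s‖ ≤ εk k / 500 := h5.2
  have e1 : F s - ww k n j = (F s - (tp k n j σ).τ s) + ((tp k n j σ).τ s - (tp k n j σ).c) +
      ((tp k n j σ).c - ww k n j) := by ring
  rw [e1]
  refine norm_add₃_le.trans ?_
  rw [h6]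
  linarith

/-- region for the down path -/
theorem down_region {k : ℕ} {u s : ℂ} (hs0 : 0 < s.im) :
    ((downTD k u).Φ s).im ≤ 1 / 4 ∨
    (|((downTD k u).Φ s).re - u.re| ≤ 1 / 4 ∧ ((downTD k u).Φ s).im ≤ u.im + 3 / 5) := by
  rcases (downTD k u).region hs0 with ⟨l, h1, h2, h3, h4⟩ | ⟨l, h1, h2, h3, h4⟩
  · left
    have h5 := (abs_le.mp ((abs_im_le_norm _).trans h4)).2
    rw [sub_im] at h5
    have hv := norm_vD u
    have h6 : ((downTD k u).e₁ * l).im ≤ 1 / 5 := by
      have hn := (downTD k u).he₁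
      have hr := (abs_re_le_norm (downTD k u).e₁).trans hn.le
      have hi : (downTD k u).e₁.im ≤ 0 := by
        change (vD u / ‖vD u‖).im ≤ 0
        rw [Complex.div_ofReal_im]
        apply div_nonpos_of_nonpos_of_nonneg _ (norm_nonneg _)
        change min u.im 0 - 2 ≤ 0
        linarith [min_le_right u.im 0]
      rw [mul_im]
      have h7 : (downTD k u).e₁.re * l.im ≤ 1 * (1 / 5) := by
        refine (le_abs_self _).trans ?_
        rw [abs_mul]
        exact mul_le_mul hr h3 (abs_nonneg _) (by norm_num)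
      have h8 : (downTD k u).e₁.im * l.re ≤ 0 := mul_nonpos_of_nonpos_of_nonneg hi h1
      linarith
    linarith
  · right
    have hv : (downTD k u).e₁ * (downTD k u).l₁ = vD u := by
      change vD u / ‖vD u‖ * ((‖vD u‖ : ℝ) : ℂ) = vD u
      have := norm_vD u
      rw [div_mul_cancel₀]
      norm_cast
      linarith
    rw [hv] at h4
    have hre := (abs_re_le_norm _).trans h4
    have him := (abs_le.mp ((abs_im_le_norm _).trans h4)).2
    have e1 : (vD u + (downTD k u).e₂ * l).re = u.re - l.im := by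
      change (vD u + I * l).re = u.re - l.im
      simp [vD]
      ring
    have e2 : (vD u + (downTD k u).e₂ * l).im = (vD u).im + l.re := by
      change (vD u + I * l).im = (vD u).im + l.re
      simp
    rw [sub_re, e1] at hre
    rw [sub_im, e2] at him
    have h2' : l.re ≤ (u.im - (vD u).im) + 1 / 2 := h2
    refine ⟨?_, ?_⟩
    · rw [abs_le] at hre h3 ⊢
      constructor <;> linarith [hre.1, hre.2, h3.1, h3.2]
    · linarith

theorem left_region {k : ℕ} {u s : ℂ} (hs0 : 0 < s.im) :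
    ((leftTD k u).Φ s).re ≤ 1 / 4 ∨
    (|((leftTD k u).Φ s).im - u.im| ≤ 1 / 4 ∧ ((leftTD k u).Φ s).re ≤ u.re + 3 / 5) := by
  rcases (leftTD k u).region hs0 with ⟨l, h1, h2, h3, h4⟩ | ⟨l, h1, h2, h3, h4⟩
  · left
    have h5 := (abs_le.mp ((abs_re_le_norm _).trans h4)).2
    rw [sub_re] at h5
    have hv := norm_vL u
    have h6 : ((leftTD k u).e₁ * l).re ≤ 1 / 5 := by
      have hn := (leftTD k u).he₁
      have hr := (abs_im_le_norm (leftTD k u).e₁).trans hn.le
      have hi : (leftTD k u).e₁.re ≤ 0 := by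
        change (vL u / ‖vL u‖).re ≤ 0
        rw [Complex.div_ofReal_re]
        apply div_nonpos_of_nonpos_of_nonneg _ (norm_nonneg _)
        change min u.re 0 - 2 ≤ 0
        linarith [min_le_right u.re 0]
      rw [mul_re]
      have h7 : -((leftTD k u).e₁.im * l.im) ≤ 1 * (1 / 5) := by
        refine (neg_le_abs _).trans ?_
        rw [abs_mul]
        exact mul_le_mul hr h3 (abs_nonneg _) (by norm_num)
      have h8 : (leftTD k u).e₁.re * l.re ≤ 0 := mul_nonpos_of_nonpos_of_nonneg hi h1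
      linarith
    linarith
  · right
    have hv : (leftTD k u).e₁ * (leftTD k u).l₁ = vL u := by
      change vL u / ‖vL u‖ * ((‖vL u‖ : ℝ) : ℂ) = vL u
      have := norm_vL u
      rw [div_mul_cancel₀]
      norm_cast
      linarith
    rw [hv] at h4
    have him := (abs_im_le_norm _).trans h4
    have hre := (abs_le.mp ((abs_re_le_norm _).trans h4)).2
    have e1 : (vL u + (leftTD k u).e₂ * l).re = (vL u).re + l.re := by
      change (vL u + 1 * l).re = (vL u).re + l.re
      simp
    have e2 : (vL u + (leftTD k u).e₂ * l).im = u.im + l.im := by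
      change (vL u + 1 * l).im = u.im + l.im
      simp [vL]
    rw [sub_re, e1] at hre
    rw [sub_im, e2] at him
    have h2' : l.re ≤ (u.re - (vL u).re) + 1 / 2 := h2
    refine ⟨?_, ?_⟩
    · rw [abs_le] at him h3 ⊢
      constructor <;> linarith [him.1, him.2, h3.1, h3.2]
    · linarith

theorem localization {k : ℕ} (n : Fin (Ns k)) (j : Fin 3) {s : ℂ} (hs0 : 0 < s.im)
    (hs : ‖F s - ww k n j‖ ≤ 2 * (k:ℝ) + 5) :
    ∃ σ, s ∈ ball (locs k (some (n, j, σ)) : ℂ) (ρf k (Ns k)) := by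
  have hk0 : (0:ℝ) ≤ k := Nat.cast_nonneg k
  have hR := Rk_ge_t k
  have hre := (abs_le.mp ((abs_re_le_norm _).trans hs))
  have him := (abs_le.mp ((abs_im_le_norm _).trans hs))
  rw [sub_re] at hre
  rw [sub_im] at him
  have ewr : (ww k n j).re = rr k n j := rfl
  have ewi : (ww k n j).im = Rk k / 10 := rfl
  rw [ewr] at hre
  rw [ewi] at him
  have hrr := rr_ge (k := k) (n := n) (j := j)
  rcases asm.in_ball_or_small s with ⟨k', i, hi⟩ | hsm
  · rcases i with _ | ⟨n', j', σ'⟩
    · exfalso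
      obtain ⟨e, h1, h2, h3⟩ := asm.local_structure k' none
      have h4 : F s = Pcs k' none (asm.hh k' none) s + asm.hh k' none + e s := h3 s hi
      have h5 := asm.norm_hh_le k' none
      have h6 : ‖e s‖ ≤ 1 / 20000 := (h2 s hi).trans (tolk_le k')
      have h5r := abs_le.mp ((abs_re_le_norm _).trans h5)
      have h5i := abs_le.mp ((abs_im_le_norm _).trans h5)
      have h6r := abs_le.mp ((abs_re_le_norm _).trans h6)
      have h6i := abs_le.mp ((abs_im_le_norm _).trans h6)
      have h4r := congrArg Complex.re h4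
      have h4i := congrArg Complex.im h4
      rw [add_re, add_re] at h4r
      rw [add_im, add_im] at h4i
      unfold Pcs at h4r h4i
      by_cases c1 : DownClear (dsq k')
      · simp only [if_pos c1] at h4r h4i
        rcases down_region (k := k') (u := dsq k') hs0 with h7 | ⟨h7, h8⟩
        · linarith [h5i.2, h6i.2, him.1]
        · rcases c1 k n j n.2 j.2 with h9 | h9
          · rw [abs_le] at h7
            rw [lt_abs] at h9
            rcases h9 with h9 | h9
            · linarith [h5r.1, h5r.2, h6r.1, h6r.2, h7.1, h7.2, hre.1, hre.2]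
            · linarith [h5r.1, h5r.2, h6r.1, h6r.2, h7.1, h7.2, hre.1, hre.2]
          · linarith [h5i.2, h6i.2, him.1]
      · simp only [if_neg c1] at h4r h4i
        by_cases c2 : LeftClear (dsq k')
        · simp only [if_pos c2] at h4r h4i
          rcases left_region (k := k') (u := dsq k') hs0 with h7 | ⟨h7, h8⟩
          · linarith [h5r.2, h6r.2, hre.1]
          · rcases c2 k n j n.2 j.2 with h9 | h9
            · rw [abs_le] at h7
              rw [lt_abs] at h9
              rcases h9 with h9 | h9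
              · linarith [h5i.1, h5i.2, h6i.1, h6i.2, h7.1, h7.2, him.1, him.2]
              · linarith [h5i.1, h5i.2, h6i.1, h6i.2, h7.1, h7.2, him.1, him.2]
            · linarith [h5r.2, h6r.2, hre.1]
        · simp only [if_neg c2, zero_re, zero_im] at h4r h4i
          linarith [h5i.2, h6i.2, him.1]
    · have him2 : 2 ≤ (F s).im := by linarith [him.1]
      have h1 := test_high hs0 hi him2
      have h1re := abs_le.mp ((abs_re_le_norm _).trans h1)
      rw [sub_re] at h1re
      have ewr' : (ww k' n' j').re = rr k' n' j' := rfl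
      rw [ewr'] at h1re
      rcases lt_trichotomy k k' with hk | hk | hk
      · exfalso
        have h2 := rr_sep_lt hk (n' := n') (j' := j') n.2 j.2
        have h3 := Rk_mono hk.le
        linarith [h1re.1, hre.2]
      · subst hk
        by_cases hnj : 3 * (n : ℕ) + j = 3 * (n' : ℕ) + j'
        · have hj := j.2
          have hj' := j'.2
          have h6 : (n : ℕ) = n' := by omega
          have h7 : (j : ℕ) = j' := by omega
          refine ⟨σ', ?_⟩
          rw [Fin.ext h6, Fin.ext h7]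
          exact hi
        · exfalso
          have h2 := rr_sep_same (k := k) hnj
          rw [le_abs] at h2
          rcases h2 with h2 | h2 <;> linarith [h1re.1, h1re.2, hre.1, hre.2]
      · exfalso
        have h2 := rr_sep_lt hk (n' := n) (j' := j) n'.2 j'.2
        have h3 := Rk_mono hk.le
        linarith [h1re.2, hre.1]
  · exfalso
    have h1 := (abs_le.mp ((abs_re_le_norm _).trans hsm)).2
    have h2 : (asm.f s).re = (F s).re := rfl
    rw [h2] at h1
    linarith [hre.1]

theorem clear_or {u : ℂ} (hu : ∀ k n j : ℕ, n < Ns k → j < 3 →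
    (2 * (k:ℝ) + 9 < |u.re - rr k n j| ∨ 2 * (k:ℝ) + 9 < |u.im - Rk k / 10|)) :
    DownClear u ∨ LeftClear u := by
  by_contra hcon
  push Not at hcon
  obtain ⟨hd, hl⟩ := hcon
  unfold DownClear at hd
  unfold LeftClear at hl
  push Not at hd hl
  obtain ⟨k₁, n₁, j₁, hn₁, hj₁, h1, h2⟩ := hd
  obtain ⟨k₂, n₂, j₂, hn₂, hj₂, h3, h4⟩ := hl
  have hk₁ : (0:ℝ) ≤ k₁ := Nat.cast_nonneg k₁
  have hk₂ : (0:ℝ) ≤ k₂ := Nat.cast_nonneg k₂
  rw [abs_le] at h1 h3
  rcases lt_trichotomy k₁ k₂ with hk | hk | hk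
  · have h5 := rr_sep_lt hk (n' := n₂) (j' := j₂) hn₁ hj₁
    have h6 := Rk_ge_t k₂
    have h7 : (k₁:ℝ) ≤ k₂ := by exact_mod_cast hk.le
    linarith [h1.1, h1.2]
  · subst hk
    rcases hu k₁ n₁ j₁ hn₁ hj₁ with h5 | h5
    · rw [lt_abs] at h5
      rcases h5 with h5 | h5 <;> linarith [h1.1, h1.2]
    · rw [lt_abs] at h5
      rcases h5 with h5 | h5 <;> linarith [h3.1, h3.2]
  · have h5 := Rk_double hk
    have h6 := Rk_ge_t k₁
    have h7 : (k₂:ℝ) ≤ k₁ := by exact_mod_cast hk.le
    linarith [h3.1, h3.2]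

theorem F_surj (u : ℂ) : ∃ s : ℂ, 0 < s.im ∧ F s = u := by
  by_cases hin : ∃ k n j : ℕ, n < Ns k ∧ j < 3 ∧ |u.re - rr k n j| ≤ 2 * (k:ℝ) + 10 ∧
      |u.im - Rk k / 10| ≤ 2 * (k:ℝ) + 10
  · obtain ⟨k, n, j, hn, hj, h1, h2⟩ := hin
    have hk0 : (0:ℝ) ≤ k := Nat.cast_nonneg k
    set L : ℝ := 2 * (2 * (k:ℝ) + 10) with hL
    set n' : Fin (Ns k) := ⟨n, hn⟩ with hn'
    set j' : Fin 3 := ⟨j, hj⟩ with hj'
    have hw : ‖u - ww k n' j'‖ ≤ L := by
      refine (Complex.norm_le_abs_re_add_abs_im _).trans ?_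
      have e1 : (u - ww k n' j').re = u.re - rr k n j := by rw [sub_re]; rfl
      have e2 : (u - ww k n' j').im = u.im - Rk k / 10 := by rw [sub_im]; rfl
      rw [e1, e2]
      linarith
    obtain ⟨σ, hσ⟩ : ∃ σ : Bool, 0 ≤ (conj (μμ j' σ) * (u - ww k n' j')).re := by
      rcases le_total 0 (conj (νν j') * (u - ww k n' j')).re with h | h
      · exact ⟨true, by unfold μμ; simpa using h⟩
      · refine ⟨false, ?_⟩
        unfold μμ
        rw [if_neg Bool.false_ne_true, map_neg, neg_mul, neg_re]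
        linarith
    obtain ⟨e, h3, h4, h5⟩ := local_test k n' j' σ
    have hL1 : L ^ 2 ≤ (tp k n' j' σ).ε * (tp k n' j' σ).R / 4 := by
      change L ^ 2 ≤ εk k * Rk k / 4
      rw [mul_comm (εk k), Rk_mul]
      rw [hL]
      nlinarith
    have hL2 : 50 * (L + 1) ≤ (tp k n' j' σ).R := by
      change 50 * (L + 1) ≤ Rk k
      have := Rk_ge_t k
      rw [hL]
      linarith
    obtain ⟨s, hs1, hs2, hs3⟩ := (tp k n' j' σ).covers h3 h4 (by positivity : 0 ≤ L) hL1 hL2 hw hσ
    exact ⟨s, hs2, by rw [h5 s hs1, hs3]⟩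
  · push Not at hin
    obtain ⟨m, hm⟩ : ∃ m, ‖u - dsq m‖ < 1 / 100 := by
      have hd := TopologicalSpace.denseRange_denseSeq ℂ
      obtain ⟨m, hm⟩ := hd.exists_mem_open (isOpen_ball (x := u) (ε := 1 / 100))
        ⟨u, mem_ball_self (by norm_num)⟩
      refine ⟨m, ?_⟩
      rw [mem_ball, dist_comm, dist_eq_norm] at hm
      exact hm
    have hmr := abs_le.mp ((abs_re_le_norm _).trans hm.le)
    have hmi := abs_le.mp ((abs_im_le_norm _).trans hm.le)
    rw [sub_re] at hmr
    rw [sub_im] at hmi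
    have hclear : DownClear (dsq m) ∨ LeftClear (dsq m) := by
      apply clear_or
      intro k n j hn hj
      by_cases h1 : |u.re - rr k n j| ≤ 2 * (k:ℝ) + 10
      · right
        have h2 := hin k n j hn hj h1
        rw [lt_abs] at h2 ⊢
        rcases h2 with h2 | h2
        · left; linarith [hmi.1, hmi.2]
        · right; linarith [hmi.1, hmi.2]
      · left
        rw [not_le, lt_abs] at h1
        rw [lt_abs]
        rcases h1 with h2 | h2
        · left; linarith [hmr.1, hmr.2]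
        · right; linarith [hmr.1, hmr.2]
    obtain ⟨e, h1, h2, h3⟩ := asm.local_structure m none
    have hEd : DifferentiableOn ℂ (fun s => asm.hh m none + e s)
        (ball (locs m none : ℂ) (ρf m (Ns m))) := h1.const_add _
    have hEb : ∀ s ∈ ball (locs m none : ℂ) (ρf m (Ns m)), ‖asm.hh m none + e s‖ ≤ 1 / 200 := by
      intro s hs
      refine (norm_add_le _ _).trans ?_
      have h5 := asm.norm_hh_le m none
      have h6 : ‖e s‖ ≤ 1 / 20000 := (h2 s hs).trans (tolk_le m)
      linarith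
    by_cases c1 : DownClear (dsq m)
    · have htarget : (downTD m (dsq m)).e₁ * (downTD m (dsq m)).l₁ +
          (downTD m (dsq m)).e₂ * (downTD m (dsq m)).l₂ = dsq m := by
        change vD (dsq m) / ‖vD (dsq m)‖ * ((‖vD (dsq m)‖ : ℝ) : ℂ) +
          I * (((dsq m).im - (vD (dsq m)).im : ℝ) : ℂ) = dsq m
        have := norm_vD (dsq m)
        rw [div_mul_cancel₀]
        · apply Complex.ext
          · simp [vD]
          · simp
        · norm_cast
          linarith
      obtain ⟨s, hs1, hs2, hs3⟩ := (downTD m (dsq m)).covers hEd hEb (v := u)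
        (by rw [htarget]; exact hm)
      refine ⟨s, hs2, ?_⟩
      have h4 : F s = Pcs m none (asm.hh m none) s + asm.hh m none + e s := h3 s hs1
      rw [h4]
      unfold Pcs
      simp only [if_pos c1]
      rw [← hs3]
      ring
    · have c2 : LeftClear (dsq m) := hclear.resolve_left c1
      have htarget : (leftTD m (dsq m)).e₁ * (leftTD m (dsq m)).l₁ +
          (leftTD m (dsq m)).e₂ * (leftTD m (dsq m)).l₂ = dsq m := by
        change vL (dsq m) / ‖vL (dsq m)‖ * ((‖vL (dsq m)‖ : ℝ) : ℂ) +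
          1 * (((dsq m).re - (vL (dsq m)).re : ℝ) : ℂ) = dsq m
        have := norm_vL (dsq m)
        rw [div_mul_cancel₀]
        · apply Complex.ext
          · simp
          · simp [vL]
        · norm_cast
          linarith
      obtain ⟨s, hs1, hs2, hs3⟩ := (leftTD m (dsq m)).covers hEd hEb (v := u)
        (by rw [htarget]; exact hm)
      refine ⟨s, hs2, ?_⟩
      have h4 : F s = Pcs m none (asm.hh m none) s + asm.hh m none + e s := h3 s hs1
      rw [h4]
      unfold Pcs
      simp only [if_neg c1, if_pos c2]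
      rw [← hs3]
      ring

end Pool.Agent.Hhelper32
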