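import Mathlib
import Pool.Agent.Hhelper32.Geometry2
import Pool.Agent.Hhelper32.Blocking

/-! Smallness of `g s - g (s + 2)` on good cells. -/

set_option autoImplicit false

namespace Pool.Agent.Hhelper32

open MeasureTheory Set Metric Complex
open scoped ENNReal NNReal Real ComplexConjugate

/-- shorthand -/
noncomputable def ωs (k : ℕ) : ℝ := ωf k (Ns k)
noncomputable def δs (k : ℕ) : ℝ := δf k (Xs k) (Ns k)
noncomputable def Λs (k : ℕ) : ℝ := Λf k (Xs k) (Ns k)

theorem ωs_pos (k : ℕ) : 0 < ωs k := ωf_pos (Ns_ge k)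

theorem δs_pos (k : ℕ) : 0 < δs k := by
  unfold δs δf
  have h1 := εk_pos k
  have h2 := Rk_pos k
  have h3 := Λf_ge (k := k) (Ns_ge k) (Xs_nonneg k)
  apply lt_min
  · positivity
  · positivity

theorem sqrt_δs_mul_le (k : ℕ) : √(δs k) * Λs k ≤ εk k / 10 := by
  have h1 := εk_pos k
  have h3 : 38 ≤ Λs k := Λf_ge (k := k) (Ns_ge k) (Xs_nonneg k)
  have h4 : δs k ≤ (εk k / (10 * Λs k)) ^ 2 := by
    refine (min_le_right _ _).trans (le_of_eq ?_)
    change εk k ^ 2 / (100 * (Λs k) ^ 2) = _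
    rw [div_pow]
    ring
  have h5 : √(δs k) ≤ εk k / (10 * Λs k) := by
    rw [Real.sqrt_le_left (by positivity)]
    exact h4
  calc √(δs k) * Λs k ≤ εk k / (10 * Λs k) * Λs k := by gcongr
    _ = εk k / 10 := by field_simp

theorem tp_sp_props {k : ℕ} (n : Fin (Ns k)) (j : Fin 3) (σ : Bool) {x : ℝ}
    (hx : (tp k n j σ).ξ = x + (j : ℕ) * ωs k / 16) :
    0 < (tp k n j σ).sp.im ∧ (tp k n j σ).sp.im ≤ ωs k / 8 ∧
      |(tp k n j σ).sp.re - x| ≤ ωs k / 6 ∧
      38 + Real.log (ωs k / (8 * (tp k n j σ).sp.im)) ≤ Λs k ∧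
      UH ∩ ball ((tp k n j σ).ξ : ℂ) (tp k n j σ).ρ ⊆ cell x (ωs k) := by
  have hω := ωs_pos k
  have h1 := (tp k n j σ).sp_im_pos
  have h2 := (tp k n j σ).sp_mem
  have h3 := (tp k n j σ).sp_im_ge
  rw [mem_ball, dist_eq_norm] at h2
  have hρ : (tp k n j σ).ρ = ωs k / 64 := rfl
  rw [hρ] at h2
  have hre := abs_le.mp ((abs_re_le_norm _).trans h2.le)
  have him := abs_le.mp ((abs_im_le_norm _).trans h2.le)
  rw [sub_re, ofReal_re, hx] at hre
  rw [sub_im, ofReal_im, sub_zero] at him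
  have hj : ((j : ℕ) : ℝ) ≤ 2 := by exact_mod_cast (by omega : (j : ℕ) ≤ 2)
  have hj0 : (0:ℝ) ≤ ((j : ℕ) : ℝ) := Nat.cast_nonneg _
  have hjω : ((j : ℕ) : ℝ) * ωs k ≤ 2 * ωs k := mul_le_mul_of_nonneg_right hj hω.le
  have hjω0 : 0 ≤ ((j : ℕ) : ℝ) * ωs k := by positivity
  refine ⟨h1, by linarith [him.2], ?_, ?_, ?_⟩
  · rw [abs_le]
    constructor <;> linarith [hre.1, hre.2]
  · have hd : 0 < df k (Xs k) (Ns k) := df_pos (Ns_ge k) (Xs_nonneg k)
    have h4 : df k (Xs k) (Ns k) / 400 ≤ (tp k n j σ).sp.im := h3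
    have h5 : ωs k / (8 * (tp k n j σ).sp.im) ≤ 50 * ωs k / df k (Xs k) (Ns k) := by
      rw [div_le_div_iff₀ (by positivity) hd]
      have := mul_le_mul_of_nonneg_left h4 (by positivity : 0 ≤ 400 * ωs k)
      linarith
    have h6 : Real.log (ωs k / (8 * (tp k n j σ).sp.im)) ≤
        Real.log (50 * ωs k / df k (Xs k) (Ns k)) := Real.log_le_log (by positivity) h5
    have h7 : Λs k = 38 + Real.log (50 * ωs k / df k (Xs k) (Ns k)) := rfl
    rw [h7]
    linarith
  · intro z hz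
    refine ⟨hz.1, ?_⟩
    have h8 := hz.2
    rw [mem_ball, dist_eq_norm, hρ, hx] at h8
    rw [mem_ball, dist_eq_norm]
    have e : z - (x : ℂ) = (z - ((x + (j : ℕ) * ωs k / 16 : ℝ) : ℂ)) +
        (((j : ℕ) * ωs k / 16 : ℝ) : ℂ) := by
      push_cast; ring
    rw [e]
    refine (norm_add_le _ _).trans_lt ?_
    rw [norm_real ((j : ℕ) * ωs k / 16), Real.norm_of_nonneg (by positivity)]
    linarith

theorem three_dirs {q : ℂ} {ε : ℝ} (hε : 0 < ε)
    (h : ∀ j : Fin 3, (conj (νν j) * q).re ≤ 21 / 5 * ε) : ‖q‖ ≤ 20 * ε := by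
  have h0 := h 0
  have h1 := h 1
  have h2 := h 2
  have e0 : (conj (νν 0) * q).re = q.re := by
    unfold νν; simp
  have e1 : (conj (νν 1) * q).re = -3 / 5 * q.re + 4 / 5 * q.im := by
    unfold νν
    rw [if_neg (by decide), if_pos rfl, mul_re]
    simp only [conj_re, conj_im]
    ring
  have e2 : (conj (νν 2) * q).re = -3 / 5 * q.re - 4 / 5 * q.im := by
    unfold νν
    rw [if_neg (by decide), if_neg (by decide), mul_re]
    simp only [conj_re, conj_im]
    ring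
  rw [e0] at h0
  rw [e1] at h1
  rw [e2] at h2
  refine (Complex.norm_le_abs_re_add_abs_im q).trans ?_
  have h3 : |q.re| ≤ 7 * ε := by rw [abs_le]; constructor <;> linarith
  have h4 : |q.im| ≤ 42 / 5 * ε := by rw [abs_le]; constructor <;> linarith
  linarith

theorem cell_bound {k : ℕ} (n : Fin (Ns k)) {g : ℂ → ℂ} (hg : DifferentiableOn ℂ g UH)
    (hgi : InjOn g UH) (hgM : ∀ s ∈ UH, ‖g s‖ ≤ (k:ℝ) + 1)
    (hsurj : ∀ v : ℂ, ∃ s ∈ UH, F s + g s = v)
    (hv₁ : volume (g '' cell (xn k n) (ωs k)) ≤ ENNReal.ofReal (δs k))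
    (hv₂ : volume (g '' cell (xn k n + 2) (ωs k)) ≤ ENNReal.ofReal (δs k))
    {s : ℂ} (hs : ‖s - xn k n‖ ≤ ωs k / 4) (hs' : ωs k / 64 ≤ s.im) :
    ‖g s - g (s + 2)‖ ≤ 20 * εk k := by
  apply three_dirs (εk_pos k)
  intro j
  have hk0 : (0:ℝ) ≤ k := Nat.cast_nonneg k
  have hδ := (δs_pos k).le
  have hξ₁ : (tp k n j true).ξ = xn k n + (j : ℕ) * ωs k / 16 := by
    change xn k n + (j : ℕ) * ωf k (Ns k) / 16 + (if true then (0:ℝ) else 2) = _
    rw [if_pos rfl, add_zero]; rfl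
  have hξ₂ : (tp k n j false).ξ = (xn k n + 2) + (j : ℕ) * ωs k / 16 := by
    change xn k n + (j : ℕ) * ωf k (Ns k) / 16 + (if (false : Bool) = true then (0:ℝ) else 2) = _
    rw [if_neg Bool.false_ne_true]
    unfold ωs
    ring
  obtain ⟨a1, a2, a3, a4, a5⟩ := tp_sp_props n j true hξ₁
  obtain ⟨b1, b2, b3, b4, b5⟩ := tp_sp_props n j false hξ₂
  obtain ⟨e₁, c1, c2, c3⟩ := local_test k n j true
  obtain ⟨e₂, d1, d2, d3⟩ := local_test k n j false
  have hμ₁ : (tp k n j true).μ = νν j := by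
    change μμ j true = νν j
    unfold μμ; rw [if_pos rfl]
  have hμ₂ : (tp k n j false).μ = -νν j := by
    change μμ j false = -νν j
    unfold μμ; rw [if_neg Bool.false_ne_true]
  have key := block_one (D₁ := tp k n j true) (D₂ := tp k n j false) (ν := νν j) (w := ww k n j)
    (ε := εk k) (R := Rk k) rfl rfl rfl rfl rfl rfl hμ₁ hμ₂ (f := F) (g := g) c1 d1 c2 d2 c3 d3
    (ρ₀ := 2 * (k:ℝ) + 5) (M := (k:ℝ) + 1) (δ := δs k)
    (by
      intro s hs hsw
      obtain ⟨σ, hσ⟩ := localization n j hs hsw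
      rcases σ with _ | _
      · right; exact hσ
      · left; exact hσ)
    hgM (by linarith) (by linarith [Rk_ge_t k]) hsurj hg hgi hδ (min_le_left _ _)
    ((measure_mono (image_mono a5)).trans hv₁) ((measure_mono (image_mono b5)).trans hv₂)
  have h1 := chain_le hδ hg hgi hv₁ a1 a2 a3 hs hs'
  have h2 := chain_le hδ hg hgi hv₂ (s := s + 2) b1 b2 b3
    (by
      have : s + 2 - ((xn k n + 2 : ℝ) : ℂ) = s - xn k n := by push_cast; ring
      rw [this]; exact hs)
    (by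
      have : (s + 2).im = s.im := by simp
      rw [this]; exact hs')
  have h3 := sqrt_δs_mul_le k
  have h4 : ‖g s - g (tp k n j true).sp‖ ≤ εk k / 10 :=
    (h1.trans (mul_le_mul_of_nonneg_left a4 (Real.sqrt_nonneg _))).trans h3
  have h5 : ‖g (s + 2) - g (tp k n j false).sp‖ ≤ εk k / 10 :=
    (h2.trans (mul_le_mul_of_nonneg_left b4 (Real.sqrt_nonneg _))).trans h3
  have hν := norm_νν j
  have h6 := (abs_le.mp ((abs_re_conj_mul_le (g s - g (tp k n j true).sp) hν).trans h4)).2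
  have h7 := (abs_le.mp ((abs_re_conj_mul_le (g (s + 2) - g (tp k n j false).sp) hν).trans h5)).1
  have e : conj (νν j) * (g s - g (s + 2)) =
      conj (νν j) * (g (tp k n j true).sp - g (tp k n j false).sp) +
      conj (νν j) * (g s - g (tp k n j true).sp) -
      conj (νν j) * (g (s + 2) - g (tp k n j false).sp) := by ring
  rw [e, sub_re, add_re]
  linarith

/-- cells are disjoint -/
theorem cell_disjoint {x y w : ℝ} (h : w ≤ |x - y|) : Disjoint (cell x w) (cell y w) := by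
  rw [Set.disjoint_left]
  rintro z ⟨_, hz⟩ ⟨_, hz'⟩
  rw [mem_ball, dist_eq_norm] at hz hz'
  have h2 : |x - y| = ‖(x : ℂ) - y‖ := by
    rw [← ofReal_sub, norm_real, Real.norm_eq_abs]
  rw [h2] at h
  have h3 : ‖(x : ℂ) - y‖ ≤ ‖z - y‖ + ‖z - x‖ := by
    have : (x : ℂ) - y = (z - y) - (z - x) := by ring
    rw [this]
    exact norm_sub_le _ _
  linarith

theorem xn_mem {k : ℕ} (n : Fin (Ns k)) : 1 ≤ xn k n ∧ xn k n ≤ 13 / 8 := by
  have h1 := xn_add_mem n (0 : Fin 3)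
  have h2 : xn k n + ((0 : Fin 3) : ℕ) * ωf k (Ns k) / 16 = xn k n := by simp
  rw [h2] at h1
  have h3 : 1 ≤ pk k := by
    unfold pk
    have : (0:ℝ) < (1 / 2) ^ (k + 1) := by positivity
    linarith
  have h4 : pk k ≤ 3 / 2 := by
    unfold pk
    have : (1 / 2 : ℝ) ^ (k + 1) ≤ 1 / 2 := by
      rw [pow_succ]
      apply mul_le_of_le_one_left (by norm_num)
      exact pow_le_one₀ (by norm_num) (by norm_num)
    linarith
  have h5 := αk_le k
  constructor <;> linarith [h1.1, h1.2]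

theorem xn_sep {k : ℕ} {n n' : Fin (Ns k)} (h : n ≠ n') : ωs k ≤ |xn k n - xn k n'| := by
  have e : xn k n - xn k n' = ωs k * ((((n : ℕ) : ℤ) - ((n' : ℕ) : ℤ) : ℤ) : ℝ) := by
    unfold xn ωs
    push_cast
    ring
  have hω := ωs_pos k
  rw [e, abs_mul, abs_of_pos hω]
  have h3 : (1:ℝ) ≤ |((((n : ℕ) : ℤ) - ((n' : ℕ) : ℤ) : ℤ) : ℝ)| := by
    rw [← Int.cast_abs]
    have h4 : (((n : ℕ) : ℤ) - ((n' : ℕ) : ℤ) : ℤ) ≠ 0 := by
      intro h5
      apply h
      apply Fin.ext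
      omega
    exact_mod_cast Int.one_le_abs h4
  nlinarith

open Classical in
/-- the number of bad cells is at most half -/
theorem card_bad {k : ℕ} {g : ℂ → ℂ} (hg : DifferentiableOn ℂ g UH)
    (hgi : InjOn g UH) (hgM : ∀ s ∈ UH, ‖g s‖ ≤ (k:ℝ) + 1) :
    2 * ((Finset.univ.filter (fun n : Fin (Ns k) =>
      ¬ (volume (g '' cell (xn k n) (ωs k)) ≤ ENNReal.ofReal (δs k) ∧
        volume (g '' cell (xn k n + 2) (ωs k)) ≤ ENNReal.ofReal (δs k)))).card) ≤ Ns k := by
  set bad := (Finset.univ.filter (fun n : Fin (Ns k) =>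
      ¬ (volume (g '' cell (xn k n) (ωs k)) ≤ ENNReal.ofReal (δs k) ∧
        volume (g '' cell (xn k n + 2) (ωs k)) ≤ ENNReal.ofReal (δs k)))) with hbad
  set C : Fin (Ns k) → Set ℂ := fun n => cell (xn k n) (ωs k) ∪ cell (xn k n + 2) (ωs k) with hC
  have hω8 : ωs k ≤ 1 / 8 := ωf_le (Ns_ge k)
  have hCU : ∀ n, C n ⊆ UH := fun n => union_subset inter_subset_left inter_subset_left
  have hCm : ∀ n, MeasurableSet (C n) := fun n =>
    ((isOpen_cell _ _).union (isOpen_cell _ _)).measurableSet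
  have hdisj : ∀ n n', n ≠ n' → Disjoint (C n) (C n') := by
    intro n n' hne
    have h1 := xn_sep hne
    have h2 := xn_mem n
    have h3 := xn_mem n'
    rw [hC]
    simp only [disjoint_union_left, disjoint_union_right]
    refine ⟨⟨cell_disjoint h1, cell_disjoint ?_⟩, cell_disjoint ?_, cell_disjoint ?_⟩
    · rw [le_abs]
      left
      linarith [h2.1, h2.2, h3.1, h3.2]
    · rw [le_abs]
      right
      linarith [h2.1, h2.2, h3.1, h3.2]
    · have : xn k n + 2 - (xn k n' + 2) = xn k n - xn k n' := by ring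
      rw [this]
      exact h1
  have hgdisj : (bad : Set (Fin (Ns k))).PairwiseDisjoint (fun n => g '' C n) := by
    intro n _ n' _ hne
    change Disjoint (g '' C n) (g '' C n')
    rw [Set.disjoint_left]
    rintro _ ⟨a, ha, rfl⟩ ⟨b, hb, hab⟩
    have hba := hgi (hCU _ hb) (hCU _ ha) hab
    subst hba
    exact Set.disjoint_left.mp (hdisj n n' hne) ha hb
  have hmeas : ∀ n ∈ bad, MeasurableSet (g '' C n) := by
    intro n _
    exact (hCm n).image_of_continuousOn_injOn (hg.continuousOn.mono (hCU n)) (hgi.mono (hCU n))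
  have hsum := measure_biUnion_finset (μ := volume) hgdisj hmeas
  have hlow : ∀ n ∈ bad, ENNReal.ofReal (δs k) ≤ volume (g '' C n) := by
    intro n hn
    rw [hbad, Finset.mem_filter, not_and_or, not_le, not_le] at hn
    rcases hn.2 with h | h
    · exact h.le.trans (measure_mono (image_mono subset_union_left))
    · exact h.le.trans (measure_mono (image_mono subset_union_right))
  have hup : volume (⋃ n ∈ bad, g '' C n) ≤ ENNReal.ofReal (π * ((k:ℝ) + 1) ^ 2) := by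
    refine (measure_mono (t := closedBall (0:ℂ) ((k:ℝ) + 1)) ?_).trans (le_of_eq ?_)
    · apply iUnion₂_subset
      rintro n _ _ ⟨s, hs, rfl⟩
      rw [mem_closedBall, dist_zero_right]
      exact hgM s (hCU n hs)
    · rw [Complex.volume_closedBall, ← ENNReal.ofReal_pow (by positivity)]
      have : (NNReal.pi : ℝ≥0∞) = ENNReal.ofReal π := by
        rw [← NNReal.coe_real_pi, ENNReal.ofReal_coe_nnreal]
      rw [this, ← ENNReal.ofReal_mul (by positivity)]
      congr 1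
      ring
  rw [hsum] at hup
  have h1 : (bad.card : ℝ≥0∞) * ENNReal.ofReal (δs k) ≤ ENNReal.ofReal (π * ((k:ℝ) + 1) ^ 2) := by
    refine le_trans ?_ hup
    rw [← nsmul_eq_mul, ← Finset.sum_const]
    exact Finset.sum_le_sum hlow
  have hδ := δs_pos k
  have h2 : (bad.card : ℝ) * δs k ≤ π * ((k:ℝ) + 1) ^ 2 := by
    rw [← ENNReal.ofReal_natCast, ← ENNReal.ofReal_mul (by positivity),
      ENNReal.ofReal_le_ofReal_iff (by positivity)] at h1
    exact h1
  have h3 : 2 * π * ((k:ℝ) + 1) ^ 2 ≤ Ns k * δs k := (Ns_good k).2.1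
  have h4 : (2 * (bad.card : ℝ)) * δs k ≤ Ns k * δs k := by linarith
  have h5 := le_of_mul_le_mul_right h4 hδ
  exact_mod_cast h5

end Pool.Agent.Hhelper32
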