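import Mathlib
import Pool.Agent.Hhelper32.Chain

/-! The product trick. -/

set_option autoImplicit false

namespace Pool.Agent.Hhelper32

open Set Metric Complex
open scoped Real

noncomputable def rot (m l : ℕ) : ℂ := Complex.exp (I * ((2 * π * l / m : ℝ) : ℂ))

theorem norm_rot (m l : ℕ) : ‖rot m l‖ = 1 := Complex.norm_exp_I_mul_ofReal _

theorem norm_exp_sub_le (x y : ℝ) :
    ‖Complex.exp (I * (x : ℂ)) - Complex.exp (I * (y : ℂ))‖ ≤ |x - y| := by
  have e : Complex.exp (I * (x : ℂ)) - Complex.exp (I * (y : ℂ)) =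
      Complex.exp (I * (y : ℂ)) * (Complex.exp (I * ((x - y : ℝ) : ℂ)) - 1) := by
    rw [mul_sub, mul_one, ← Complex.exp_add]
    congr 2
    push_cast
    ring
  rw [e, norm_mul, Complex.norm_exp_I_mul_ofReal, one_mul]
  exact Real.norm_exp_I_mul_ofReal_sub_one_le

theorem equi {m : ℕ} (hm : 1 ≤ m) {a : ℂ} (ha : ‖a‖ = 1) : ∃ l < m, ‖rot m l - a‖ ≤ π / m := by
  have hm0 : (0:ℝ) < m := by exact_mod_cast hm
  have hpi := Real.pi_pos
  set φ := arg a with hφ
  have hae : a = Complex.exp (I * (φ : ℂ)) := by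
    have := Complex.norm_mul_exp_arg_mul_I a
    rw [ha, ofReal_one, one_mul] at this
    rw [mul_comm, hφ, this]
  set L : ℤ := round (φ * m / (2 * π)) with hL
  have hround : |φ * m / (2 * π) - L| ≤ 1 / 2 := abs_sub_round _
  have hmz : (0:ℤ) < m := by exact_mod_cast hm
  have hmod0 : 0 ≤ L % (m : ℤ) := Int.emod_nonneg _ hmz.ne'
  have hmod1 : L % (m : ℤ) < m := Int.emod_lt_of_pos _ hmz
  obtain ⟨l, hl⟩ : ∃ l : ℕ, (l : ℤ) = L % (m : ℤ) := ⟨(L % (m : ℤ)).toNat, Int.toNat_of_nonneg hmod0⟩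
  refine ⟨l, by omega, ?_⟩
  have hdiv : L = m * (L / m) + l := by
    rw [hl]
    exact (Int.mul_ediv_add_emod L m).symm
  have hrot : rot m l = Complex.exp (I * ((2 * π * L / m : ℝ) : ℂ)) := by
    unfold rot
    have e1 : (2 * π * L / m : ℝ) = 2 * π * l / m + (L / m : ℤ) * (2 * π) := by
      have : (L : ℝ) = m * ((L / m : ℤ) : ℝ) + l := by
        exact_mod_cast hdiv
      rw [this]
      field_simp
      ring
    rw [e1]
    have e2 : I * ((2 * π * l / m + (L / m : ℤ) * (2 * π) : ℝ) : ℂ) =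
        I * ((2 * π * l / m : ℝ) : ℂ) + (L / m : ℤ) * (2 * π * I) := by
      push_cast
      ring
    rw [e2, Complex.exp_add, Complex.exp_int_mul_two_pi_mul_I, mul_one]
  rw [hrot, hae]
  refine (norm_exp_sub_le _ _).trans ?_
  have e3 : 2 * π * L / m - φ = -(2 * π / m * (φ * m / (2 * π) - L)) := by
    field_simp
    ring
  rw [e3, abs_neg, abs_mul, abs_of_pos (by positivity)]
  calc 2 * π / m * |φ * m / (2 * π) - L| ≤ 2 * π / m * (1 / 2) := by gcongr
    _ = π / m := by ring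

/-- Cayley transform -/
noncomputable def Cay (z : ℂ) : ℂ := I * (1 + z) / (1 - z)

theorem one_sub_ne {z : ℂ} (hz : ‖z‖ < 1) : 1 - z ≠ 0 := by
  intro h
  have : z = 1 := by linear_combination -h
  rw [this, norm_one] at hz
  exact lt_irrefl _ hz

theorem Cay_im {z : ℂ} : (Cay z).im * ‖1 - z‖ ^ 2 = 1 - ‖z‖ ^ 2 ∨ 1 - z = 0 := by
  by_cases h : 1 - z = 0
  · exact Or.inr h
  · left
    have hn : normSq (1 - z) ≠ 0 := by rwa [Ne, normSq_eq_zero]
    unfold Cay
    rw [Complex.div_im, Complex.sq_norm, Complex.sq_norm]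
    field_simp
    simp only [normSq_apply, mul_im, mul_re, add_re, add_im, sub_re, sub_im, I_re, I_im, one_re,
      one_im]
    ring

theorem Cay_mem {z : ℂ} (hz : ‖z‖ < 1) : 0 < (Cay z).im := by
  rcases Cay_im (z := z) with h | h
  · have h1 : 0 < 1 - ‖z‖ ^ 2 := by nlinarith [norm_nonneg z]
    have h2 : 0 < ‖1 - z‖ ^ 2 := by
      have := norm_pos_iff.mpr (one_sub_ne hz)
      positivity
    rw [← h] at h1
    exact (mul_pos_iff_of_pos_right h2).mp h1
  · exact absurd h (one_sub_ne hz)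

theorem Cay_diff {z : ℂ} (hz : ‖z‖ < 1) : DifferentiableAt ℂ Cay z := by
  unfold Cay
  exact ((differentiableAt_id.const_add _).const_mul _).div (differentiableAt_id.const_sub _)
    (one_sub_ne hz)

/-- boundary point of the disc -/
noncomputable def bd (x : ℝ) : ℂ := (x - I) / (x + I)

theorem x_add_I_ne (x : ℝ) : (x : ℂ) + I ≠ 0 := by
  intro h
  have := congrArg Complex.im h
  simp at this

theorem norm_bd (x : ℝ) : ‖bd x‖ = 1 := by
  unfold bd
  rw [norm_div]
  have h1 : ‖(x : ℂ) - I‖ = ‖(x : ℂ) + I‖ := by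
    have e : (x : ℂ) - I = (starRingEnd ℂ) ((x : ℂ) + I) := by
      simp [sub_eq_add_neg]
    rw [e, RCLike.norm_conj]
  rw [h1, div_self]
  exact norm_ne_zero_iff.mpr (x_add_I_ne x)

theorem norm_x_add_I {x : ℝ} (hx0 : 0 ≤ x) (hx : x ≤ 2) : ‖(x : ℂ) + I‖ ≤ 9 / 4 := by
  have h : ‖(x : ℂ) + I‖ ^ 2 ≤ (9 / 4) ^ 2 := by
    rw [Complex.sq_norm, normSq_apply]
    simp
    nlinarith
  exact (sq_le_sq₀ (norm_nonneg _) (by norm_num)).mp h

/-- landing -/
theorem landing {x ω : ℝ} (hω : 0 < ω) (hω8 : ω ≤ 1 / 8) (hx0 : 0 ≤ x) (hx : x ≤ 2) {z : ℂ}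
    (hz : ‖z‖ = 1 - ω / 24) (hzx : ‖z - bd x‖ ≤ ω / 12) :
    ‖Cay z - x‖ ≤ ω / 4 ∧ ω / 64 ≤ (Cay z).im := by
  have hz1 : ‖z‖ < 1 := by rw [hz]; linarith
  have hne := one_sub_ne hz1
  have hpos : 0 < ‖1 - z‖ := norm_pos_iff.mpr hne
  have hxI := x_add_I_ne x
  have hxn := norm_x_add_I hx0 hx
  have hxpos : 0 < ‖(x : ℂ) + I‖ := norm_pos_iff.mpr hxI
  have h1 : Cay z - x = (z - bd x) * (x + I) / (1 - z) := by
    unfold Cay bd
    field_simp
    ring
  have h2 : 1 - bd x = 2 * I / (x + I) := by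
    unfold bd
    field_simp
    ring
  have h3 : 8 / 9 ≤ ‖1 - bd x‖ := by
    rw [h2, norm_div, norm_mul, norm_I, mul_one, Complex.norm_ofNat, le_div_iff₀ hxpos]
    linarith
  have h4 : 7 / 8 ≤ ‖1 - z‖ := by
    have : ‖1 - bd x‖ ≤ ‖1 - z‖ + ‖z - bd x‖ := by
      have e : 1 - bd x = (1 - z) + (z - bd x) := by ring
      rw [e]
      exact norm_add_le _ _
    linarith
  constructor
  · rw [h1, norm_div, norm_mul, div_le_iff₀ hpos]
    have h5 : ‖z - bd x‖ * ‖(x : ℂ) + I‖ ≤ ω / 12 * (9 / 4) :=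
      mul_le_mul hzx hxn (norm_nonneg _) (by positivity)
    have h6 : ω / 4 * (7 / 8) ≤ ω / 4 * ‖1 - z‖ := by gcongr
    linarith
  · rcases Cay_im (z := z) with h | h
    · have h5 : ‖1 - z‖ ≤ 2 := by
        refine (norm_sub_le _ _).trans ?_
        rw [norm_one]; linarith
      have h6 : ‖1 - z‖ ^ 2 ≤ 4 := by nlinarith
      have h7 : 0 < (Cay z).im := Cay_mem hz1
      have h8 : (Cay z).im * ‖1 - z‖ ^ 2 ≤ (Cay z).im * 4 := by gcongr
      rw [h, hz] at h8
      nlinarith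
    · exact absurd h hne

theorem product_bound {Fq : ℂ → ℂ} (hF : DifferentiableOn ℂ Fq UH) {B θ ω : ℝ} {N : ℕ}
    (hω : 0 < ω) (hω8 : ω ≤ 1 / 8) (hB : ∀ s ∈ UH, ‖Fq s‖ ≤ B) (hθ : 0 ≤ θ)
    (x : Fin N → ℝ) (hx0 : ∀ n, 0 ≤ x n) (hx2 : ∀ n, x n ≤ 2)
    (hsep : ∀ n n', n ≠ n' → ω ≤ |x n - x n'|)
    (good : Finset (Fin N))
    (hgood : ∀ n ∈ good, ∀ s : ℂ, ‖s - x n‖ ≤ ω / 4 → ω / 64 ≤ s.im → ‖Fq s‖ ≤ θ) :
    ∃ m : ℕ, 1 ≤ m ∧ (m : ℝ) ≤ 77 / ω ∧ good.card ≤ m ∧
      ‖Fq I‖ ^ m ≤ θ ^ good.card * B ^ (m - good.card) := by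
  have hpi := Real.pi_pos
  have hpi4 : π ≤ 3.15 := by linarith [Real.pi_lt_d2]
  set m : ℕ := ⌈24 * π / ω⌉₊ with hm
  have hmge : 24 * π / ω ≤ m := Nat.le_ceil _
  have hmlt : (m : ℝ) < 24 * π / ω + 1 := Nat.ceil_lt_add_one (by positivity)
  have hm0 : (0:ℝ) < m := lt_of_lt_of_le (by positivity) hmge
  have hm1 : 1 ≤ m := by
    have : 0 < m := by exact_mod_cast hm0
    omega
  have hm77 : (m : ℝ) ≤ 77 / ω := by
    refine hmlt.le.trans ?_
    rw [div_add_one hω.ne']
    apply div_le_div_of_nonneg_right _ hω.le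
    linarith
  have hpim : π / m ≤ ω / 24 := by
    rw [div_le_iff₀ hm0]
    rw [div_le_iff₀ hω] at hmge
    linarith
  have hB0 : 0 ≤ B := (norm_nonneg _).trans (hB I (by change 0 < I.im; simp))
  set r : ℝ := 1 - ω / 24 with hr
  have hr0 : 0 < r := by rw [hr]; linarith
  have hr1 : r < 1 := by rw [hr]; linarith
  -- the index associated with a good cell
  have hind : ∀ z : ℂ, ‖z‖ = r → ∀ n : Fin N, ∃ l < m,
      ‖Cay (rot m l * z) - x n‖ ≤ ω / 4 ∧ ω / 64 ≤ (Cay (rot m l * z)).im := by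
    intro z hz n
    have hz0 : z ≠ 0 := by
      intro h
      rw [h, norm_zero] at hz
      linarith
    have ha : ‖bd (x n) * r / z‖ = 1 := by
      rw [norm_div, norm_mul, norm_bd, one_mul, norm_real, Real.norm_of_nonneg hr0.le, hz,
        div_self hr0.ne']
    obtain ⟨l, hl, hla⟩ := equi hm1 ha
    refine ⟨l, hl, ?_⟩
    apply landing hω hω8 (hx0 n) (hx2 n)
    · rw [norm_mul, norm_rot, one_mul, hz]
    · have e : rot m l * z - bd (x n) = (rot m l - bd (x n) * r / z) * z +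
          bd (x n) * ((r - 1 : ℝ) : ℂ) := by
        push_cast
        field_simp
        ring
      rw [e]
      refine (norm_add_le _ _).trans ?_
      rw [norm_mul, norm_mul, norm_bd, hz, norm_real, one_mul, Real.norm_eq_abs,
        abs_of_neg (by linarith : r - 1 < 0)]
      have h1 : ‖rot m l - bd (x n) * r / z‖ * r ≤ ω / 24 * 1 := by
        apply mul_le_mul (hla.trans hpim) hr1.le hr0.le (by positivity)
      rw [hr] at h1 ⊢
      linarith
  have hinj : ∀ z : ℂ, ‖z‖ = r → ∃ φ : Fin N → ℕ, Function.Injective φ ∧ ∀ n, φ n < m ∧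
      ‖Cay (rot m (φ n) * z) - x n‖ ≤ ω / 4 ∧ ω / 64 ≤ (Cay (rot m (φ n) * z)).im := by
    intro z hz
    choose φ hφ using hind z hz
    refine ⟨φ, ?_, hφ⟩
    intro n n' hnn
    by_contra hne
    have h1 := (hφ n).2.1
    have h2 := (hφ n').2.1
    rw [← hnn] at h2
    have h3 := hsep n n' hne
    have h4 : |x n - x n'| = ‖(x n : ℂ) - x n'‖ := by
      rw [← ofReal_sub, norm_real, Real.norm_eq_abs]
    have h5 : ‖(x n : ℂ) - x n'‖ ≤ ‖Cay (rot m (φ n) * z) - x n'‖ +
        ‖Cay (rot m (φ n) * z) - x n‖ := by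
      have : (x n : ℂ) - x n' = (Cay (rot m (φ n) * z) - x n') -
        (Cay (rot m (φ n) * z) - x n) := by ring
      rw [this]
      exact norm_sub_le _ _
    rw [h4] at h3
    linarith
  have hcard : good.card ≤ m := by
    obtain ⟨φ, hφi, hφ⟩ := hinj (r : ℂ) (by rw [norm_real, Real.norm_of_nonneg hr0.le])
    have h1 : good.image φ ⊆ Finset.range m := by
      intro l hl
      rw [Finset.mem_image] at hl
      obtain ⟨n, _, rfl⟩ := hl
      exact Finset.mem_range.mpr (hφ n).1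
    have h2 := Finset.card_le_card h1
    rwa [Finset.card_image_of_injective _ hφi, Finset.card_range] at h2
  refine ⟨m, hm1, hm77, hcard, ?_⟩
  -- the product
  set P : ℂ → ℂ := fun z => ∏ l ∈ Finset.range m, Fq (Cay (rot m l * z)) with hP
  have hPd : DifferentiableOn ℂ P (ball 0 1) := by
    intro z hz
    rw [mem_ball, dist_zero_right] at hz
    apply DifferentiableAt.differentiableWithinAt
    have hPf : P = ∏ l ∈ Finset.range m, fun z => Fq (Cay (rot m l * z)) := by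
      ext z; simp [hP]
    rw [hPf]
    apply DifferentiableAt.finsetProd
    intro l _
    have hz' : ‖rot m l * z‖ < 1 := by rw [norm_mul, norm_rot, one_mul]; exact hz
    have h1 : DifferentiableAt ℂ (fun z => rot m l * z) z := differentiableAt_id.const_mul _
    have h2 : DifferentiableAt ℂ Cay (rot m l * z) := Cay_diff hz'
    have h3 : DifferentiableAt ℂ Fq (Cay (rot m l * z)) :=
      hF.differentiableAt (isOpen_UH.mem_nhds (Cay_mem hz'))
    exact h3.comp z (h2.comp z h1)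
  have hbound : ∀ z : ℂ, ‖z‖ = r → ‖P z‖ ≤ θ ^ good.card * B ^ (m - good.card) := by
    intro z hz
    obtain ⟨φ, hφi, hφ⟩ := hinj z hz
    have h1 : good.image φ ⊆ Finset.range m := by
      intro l hl
      rw [Finset.mem_image] at hl
      obtain ⟨n, _, rfl⟩ := hl
      exact Finset.mem_range.mpr (hφ n).1
    have hzl : ∀ l, ‖rot m l * z‖ < 1 := by
      intro l
      rw [norm_mul, norm_rot, one_mul, hz]
      exact hr1
    rw [hP]
    simp only
    rw [norm_prod, ← Finset.prod_sdiff h1, mul_comm]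
    apply mul_le_mul
    · rw [← Finset.card_image_of_injective good hφi]
      rw [← Finset.prod_const]
      apply Finset.prod_le_prod (fun _ _ => norm_nonneg _)
      intro l hl
      rw [Finset.mem_image] at hl
      obtain ⟨n, hn, rfl⟩ := hl
      exact hgood n hn _ (hφ n).2.1 (hφ n).2.2
    · have h2 : (Finset.range m \ good.image φ).card = m - good.card := by
        rw [Finset.card_sdiff_of_subset h1, Finset.card_range,
          Finset.card_image_of_injective good hφi]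
      rw [← h2, ← Finset.prod_const]
      apply Finset.prod_le_prod (fun _ _ => norm_nonneg _)
      intro l _
      exact hB _ (Cay_mem (hzl l))
    · exact Finset.prod_nonneg (fun _ _ => norm_nonneg _)
    · positivity
  have hP0 : P 0 = Fq I ^ m := by
    have hC0 : Cay 0 = I := by unfold Cay; simp
    simp [hP, hC0]
  have hmax : ‖P 0‖ ≤ θ ^ good.card * B ^ (m - good.card) := by
    have hd : DiffContOnCl ℂ P (ball 0 r) :=
      hPd.diffContOnCl_ball (closedBall_subset_ball hr1)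
    apply Complex.norm_le_of_forall_mem_frontier_norm_le isBounded_ball hd
    · intro z hz
      rw [frontier_ball (0:ℂ) hr0.ne', mem_sphere, dist_zero_right] at hz
      exact hbound z hz
    · exact subset_closure (mem_ball_self hr0)
  rwa [hP0, norm_pow] at hmax

end Pool.Agent.Hhelper32
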