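import Mathlib
import Pool.Agent.Hhelper32.Cells
import Pool.Agent.Hhelper32.Product

/-! The final contradiction and the transfer to the disc. -/

set_option autoImplicit false

namespace Pool.Agent.Hhelper32

open MeasureTheory Set Metric Complex
open scoped ENNReal NNReal Real ComplexConjugate

theorem add_two_mem {s : ℂ} (hs : s ∈ UH) : s + 2 ∈ UH := by
  change 0 < (s + 2).im
  have h : 0 < s.im := hs
  simpa using h

open Classical in
theorem level_bound {g : ℂ → ℂ} (hg : DifferentiableOn ℂ g UH) (hgi : InjOn g UH) {M₀ : ℝ}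
    (hM₀ : 1 ≤ M₀) (hgM : ∀ s ∈ UH, ‖g s‖ ≤ M₀) (hsurj : ∀ v : ℂ, ∃ s ∈ UH, F s + g s = v)
    {k : ℕ} (hk : M₀ ≤ (k:ℝ) + 1) : ‖g I - g (I + 2)‖ ≤ (1 / 2) ^ k * (2 * M₀) := by
  set Fq : ℂ → ℂ := fun s => g s - g (s + 2) with hFq
  have hgM' : ∀ s ∈ UH, ‖g s‖ ≤ (k:ℝ) + 1 := fun s hs => (hgM s hs).trans hk
  have hFd : DifferentiableOn ℂ Fq UH := by
    apply hg.sub
    apply hg.comp (differentiableOn_id.add_const _)
    intro s hs
    exact add_two_mem hs
  have hB : ∀ s ∈ UH, ‖Fq s‖ ≤ 2 * M₀ := by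
    intro s hs
    refine (norm_sub_le _ _).trans ?_
    have := hgM s hs
    have := hgM (s + 2) (add_two_mem hs)
    linarith
  set good := (Finset.univ.filter (fun n : Fin (Ns k) =>
      (volume (g '' cell (xn k n) (ωs k)) ≤ ENNReal.ofReal (δs k) ∧
        volume (g '' cell (xn k n + 2) (ωs k)) ≤ ENNReal.ofReal (δs k)))) with hgood
  have hcard : Ns k ≤ 2 * good.card := by
    have h1 := card_bad hg hgi hgM'
    have h2 := Finset.card_filter_add_card_filter_not (s := (Finset.univ : Finset (Fin (Ns k))))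
      (fun n : Fin (Ns k) => (volume (g '' cell (xn k n) (ωs k)) ≤ ENNReal.ofReal (δs k) ∧
        volume (g '' cell (xn k n + 2) (ωs k)) ≤ ENNReal.ofReal (δs k)))
    rw [Finset.card_univ, Fintype.card_fin] at h2
    rw [hgood]
    omega
  have hsm : ∀ n ∈ good, ∀ s : ℂ, ‖s - xn k n‖ ≤ ωs k / 4 → ωs k / 64 ≤ s.im →
      ‖Fq s‖ ≤ 20 * εk k := by
    intro n hn s hs hs'
    rw [hgood, Finset.mem_filter] at hn
    exact cell_bound n hg hgi hgM' hsurj hn.2.1 hn.2.2 hs hs'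
  obtain ⟨m, hm1, hm77, hGm, hmain⟩ := product_bound hFd (ωs_pos k) (ωf_le (Ns_ge k)) hB
    (by have := εk_pos k; positivity : 0 ≤ 20 * εk k) (fun n : Fin (Ns k) => xn k n)
    (fun n => by linarith [(xn_mem n).1]) (fun n => by linarith [(xn_mem n).2])
    (fun n n' h => xn_sep h) good hsm
  have hm0 : m ≠ 0 := by omega
  have hθ : 20 * εk k = (1 / 2) ^ (k * (1232 * 2 ^ k)) := by unfold εk; ring
  have hmG : m ≤ 1232 * 2 ^ k * good.card := by
    have h1 : 77 / ωs k = 616 * 2 ^ k * (Ns k : ℝ) := by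
      unfold ωs ωf αk
      have : (0:ℝ) < Ns k := by exact_mod_cast Ns_ge k
      field_simp
      rw [pow_add]
      have e : (1 / 2 : ℝ) ^ k * 2 ^ k = 1 := by rw [← mul_pow]; norm_num
      linear_combination (-77) * e
    have h2 : (Ns k : ℝ) ≤ 2 * (good.card : ℝ) := by exact_mod_cast hcard
    have h3 : (m : ℝ) ≤ 1232 * 2 ^ k * (good.card : ℝ) := by
      rw [h1] at hm77
      have h4 : (616 * 2 ^ k : ℝ) * (Ns k : ℝ) ≤ 616 * 2 ^ k * (2 * (good.card : ℝ)) := by gcongr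
      linarith
    exact_mod_cast h3
  have hB1 : 1 ≤ 2 * M₀ := by linarith
  have h5 : (20 * εk k) ^ good.card ≤ ((1 / 2) ^ k) ^ m := by
    rw [hθ, ← pow_mul, ← pow_mul]
    apply pow_le_pow_of_le_one (by norm_num) (by norm_num)
    calc k * m ≤ k * (1232 * 2 ^ k * good.card) := Nat.mul_le_mul_left _ hmG
      _ = k * (1232 * 2 ^ k) * good.card := by ring
  have h6 : (2 * M₀) ^ (m - good.card) ≤ (2 * M₀) ^ m :=
    pow_le_pow_right₀ hB1 (Nat.sub_le _ _)
  have h7 : ‖Fq I‖ ^ m ≤ ((1 / 2) ^ k * (2 * M₀)) ^ m := by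
    rw [mul_pow]
    refine hmain.trans ?_
    apply mul_le_mul h5 h6 (by positivity) (by positivity)
  exact (pow_le_pow_iff_left₀ (norm_nonneg _) (by positivity) hm0).mp h7

theorem no_g {g : ℂ → ℂ} (hg : DifferentiableOn ℂ g UH) (hgi : InjOn g UH) {M : ℝ}
    (hgM : ∀ s ∈ UH, ‖g s‖ ≤ M) (hsurj : ∀ v : ℂ, ∃ s ∈ UH, F s + g s = v) : False := by
  set M₀ := max M 1 with hM₀
  have h1 : 1 ≤ M₀ := le_max_right _ _
  have h2 : ∀ s ∈ UH, ‖g s‖ ≤ M₀ := fun s hs => (hgM s hs).trans (le_max_left _ _)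
  have hI : I ∈ UH := by change 0 < I.im; simp
  have hne : g I ≠ g (I + 2) := by
    intro h
    have := hgi hI (add_two_mem hI) h
    have h3 : (2:ℂ) = 0 := by linear_combination -this
    norm_num at h3
  have hpos : 0 < ‖g I - g (I + 2)‖ := norm_pos_iff.mpr (sub_ne_zero.mpr hne)
  have hM₀pos : 0 < M₀ := by linarith
  obtain ⟨K, hK⟩ := exists_pow_lt_of_lt_one
    (by positivity : 0 < ‖g I - g (I + 2)‖ / (2 * M₀)) (by norm_num : (1 / 2 : ℝ) < 1)
  obtain ⟨K', hK'⟩ := exists_nat_ge M₀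
  set k := max K K' with hk
  have h4 : (1 / 2 : ℝ) ^ k ≤ (1 / 2) ^ K :=
    pow_le_pow_of_le_one (by norm_num) (by norm_num) (le_max_left _ _)
  have h5 : M₀ ≤ (k:ℝ) + 1 := by
    have : (K' : ℝ) ≤ k := by exact_mod_cast le_max_right K K'
    linarith
  have h6 := level_bound hg hgi h1 h2 hsurj h5
  rw [lt_div_iff₀ (by positivity)] at hK
  have h7 : (1 / 2 : ℝ) ^ k * (2 * M₀) ≤ (1 / 2) ^ K * (2 * M₀) := by gcongr
  linarith

/-- inverse Cayley -/
noncomputable def iC (s : ℂ) : ℂ := (s - I) / (s + I)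

theorem add_I_ne {s : ℂ} (hs : s ∈ UH) : s + I ≠ 0 := by
  intro h
  have h1 := congrArg Complex.im h
  have h2 : 0 < s.im := hs
  simp at h1
  linarith

theorem iC_mem {s : ℂ} (hs : s ∈ UH) : iC s ∈ ball (0:ℂ) 1 := by
  have hne := add_I_ne hs
  have h2 : 0 < s.im := hs
  rw [mem_ball, dist_zero_right]
  unfold iC
  rw [norm_div, div_lt_one (norm_pos_iff.mpr hne)]
  apply lt_of_pow_lt_pow_left₀ 2 (norm_nonneg _)
  rw [Complex.sq_norm, Complex.sq_norm, normSq_apply, normSq_apply]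
  simp
  nlinarith

theorem Cay_iC {s : ℂ} (hs : s ∈ UH) : Cay (iC s) = s := by
  have hne := add_I_ne hs
  unfold Cay iC
  have h1 : 1 - (s - I) / (s + I) = 2 * I / (s + I) := by field_simp; ring
  have h2 : 1 + (s - I) / (s + I) = 2 * s / (s + I) := by field_simp; ring
  rw [h1, h2]
  have hI := I_ne_zero
  field_simp

theorem iC_Cay {z : ℂ} (hz : z ∈ ball (0:ℂ) 1) : iC (Cay z) = z := by
  rw [mem_ball, dist_zero_right] at hz
  have hne := one_sub_ne hz
  unfold Cay iC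
  have hI := I_ne_zero
  have h1 : I * (1 + z) / (1 - z) - I = 2 * I * z / (1 - z) := by field_simp; ring
  have h2 : I * (1 + z) / (1 - z) + I = 2 * I / (1 - z) := by field_simp; ring
  rw [h1, h2]
  field_simp

theorem iC_diff {s : ℂ} (hs : s ∈ UH) : DifferentiableAt ℂ iC s := by
  unfold iC
  exact (differentiableAt_id.sub_const _).div (differentiableAt_id.add_const _) (add_I_ne hs)

theorem main_theorem :
    ∃ f : ℂ → ℂ, AnalyticOnNhd ℂ f (ball (0:ℂ) 1) ∧ f '' ball (0:ℂ) 1 = univ ∧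
      ∀ g : ℂ → ℂ, AnalyticOnNhd ℂ g (ball (0:ℂ) 1) → InjOn g (ball (0:ℂ) 1) →
        Bornology.IsBounded (g '' ball (0:ℂ) 1) →
        (fun z => f z + g z) '' ball (0:ℂ) 1 ≠ univ := by
  refine ⟨fun z => F (Cay z), ?_, ?_, ?_⟩
  · apply DifferentiableOn.analyticOnNhd _ isOpen_ball
    intro z hz
    rw [mem_ball, dist_zero_right] at hz
    exact ((asm.differentiableAt_f (Cay_mem hz)).comp z (Cay_diff hz)).differentiableWithinAt
  · rw [eq_univ_iff_forall]
    intro v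
    obtain ⟨s, hs, hsv⟩ := F_surj v
    exact ⟨iC s, iC_mem hs, by simp only; rw [Cay_iC hs, hsv]⟩
  · intro g hg hgi hgb huniv
    obtain ⟨M, hM⟩ := hgb.exists_norm_le
    have hcd : ∀ s ∈ UH, DifferentiableAt ℂ (fun s => g (iC s)) s := fun s hs =>
      (hg (iC s) (iC_mem hs)).differentiableAt.comp s (iC_diff hs)
    apply no_g (g := fun s => g (iC s)) (fun s hs => (hcd s hs).differentiableWithinAt) _
      (M := M) (fun s hs => hM _ ⟨iC s, iC_mem hs, rfl⟩) _
    · intro s hs s' hs' h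
      have h1 := hgi (iC_mem hs) (iC_mem hs') h
      rw [← Cay_iC hs, ← Cay_iC hs', h1]
    · intro v
      have hv : v ∈ (fun z => F (Cay z) + g z) '' ball (0:ℂ) 1 := by rw [huniv]; trivial
      obtain ⟨z, hz, hzv⟩ := hv
      refine ⟨Cay z, Cay_mem (by rwa [mem_ball, dist_zero_right] at hz), ?_⟩
      rw [iC_Cay hz]
      exact hzv

end Pool.Agent.Hhelper32
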